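import Pool.Agent.H109Z.Frog.Wn

set_option autoImplicit false

/-! The exploration: the frog model dominates the Poissonised comparison model. -/

namespace Pool.Agent.H109Z.FrogGW

open MeasureTheory ProbabilityTheory Function Finset
open scoped ENNReal NNReal

lemma supp_lead_or {g : ℕ → ℝ} {k c : ℕ} (hc : c ∈ (lead g k).support) : c < k ∨ c = 0 := by
  unfold lead at hc
  split_ifs at hc with h
  · left
    by_contra hk
    exact hc (by simp only [PMF.ofFinset_apply]; exact if_neg (by simpa using hk))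
  · right; simpa using hc

lemma supp_stepM {lam : ℝ} (hl : 0 ≤ lam) (h : ℕ) {g m : ℕ → ℝ} {k : ℕ} (hg : ∀ i < k, 0 ≤ g i)
    (hm : ∀ i < k, 0 ≤ m i) {a : ℝ} (ha : a ∈ (stepM lam h g m k).support) :
    0 ≤ a ∧ a ≤ ((h : ℝ) + 1) * (Cs g k / (1 + Cs g k)) := by
  simp only [stepM, PMF.mem_support_bind_iff, PMF.mem_support_map_iff] at ha
  obtain ⟨c, -, r, -, rfl⟩ := ha
  have hC := Cs_nonneg hg
  have : 0 ≤ ∑ a ∈ Rch k r c, m a :=
    Finset.sum_nonneg fun a ha => hm a (mem_range.1 (Rch_subset k c r ha))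
  exact ⟨le_min (by positivity) (by positivity), min_le_left _ _⟩

lemma supp_PM {lam : ℝ} (hl : 0 ≤ lam) : ∀ (h : ℕ) (Z : V → ℕ), ∀ a ∈ (PM lam h Z).support, 0 ≤ a
  | 0, Z => by simp [PM]
  | h + 1, Z => by
    intro a ha
    simp only [PM, PMF.mem_support_bind_iff] at ha
    obtain ⟨m, hm, ha⟩ := ha
    exact (supp_stepM hl h (fun i _ => (gh_box h _).1)
      (fun i hi => supp_PM hl h _ _ ((supp_piL hm).1 i (List.mem_range.2 hi))) ha).1

lemma PM_succ_sh (lam : ℝ) (h : ℕ) (w : V) (Z : V → ℕ) : PM lam (h + 1) (sh w Z) =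
    (piL (fun i => PM lam h (sh (i :: w) Z)) (fun _ => 0) (List.range (Z w))).bind
      fun m => stepM lam h (fun i => gh h (sh (i :: w) Z)) m (Z w) := by
  simp only [PM, sh_sh]
  rfl

/-- the claim proved by induction on the height, in continuation-passing form -/
def Cl (Z : V → ℕ) (n : ℕ) (lam : ℝ≥0) (s : ℝ≥0∞) (mk : V → (ℕ → ℝ) → Option (V × V)) (h : ℕ) :
    Prop :=
  ∀ c : V, c ≠ [] → InTree Z c → c.length + h = n →
    ∀ (ps : Frog → V) (A : Finset Frog) (S P : Set V) (X : Type) (ρ : X → ℝ≥0∞) (σ : X → ℝ),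
      (∀ x, 0 ≤ σ x ∧ σ x ≤ 1) → (∀ z, c <:+ z → z ∈ S) → (∀ f ∈ A, f.1 ∉ S) →
      (∀ f : Frog, c <:+ f.1 → ps f = f.1) →
      (∀ (ps' : Frog → V) (B : Finset Frog), (∀ f ∈ B, c <:+ f.1 ∧ ps' f = c.tail) →
        (∀ f : Frog, ¬ c <:+ f.1 → ps' f = ps f) →
        WW lam s mk ps' (A ∪ B) (S \ Dw c) P ≤ ∑' x, ρ x * ENNReal.ofReal (σ x) ^ B.card) →
      AW Z h c (fun e => WW lam s mk ps A S (P ∪ pth c e)) ≤
        ENNReal.ofReal (gh h (sh c Z)) * ∑' x, ρ x * Lap (PM lam h (sh c Z)) (1 - σ x)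

variable {Z : V → ℕ} {n : ℕ} {lam : ℝ≥0} {s : ℝ≥0∞} {mk : V → (ℕ → ℝ) → Option (V × V)}

lemma Cl_zero (hs : s ≤ 1) : Cl Z n lam s mk 0 := by
  intro c _ _ _ ps A S P X ρ σ _ _ _ _ hcont
  have := hcont ps ∅ (by simp) fun _ _ => rfl
  simp only [AW, gh, PM, Lap, EL_pure, mul_zero, ee_zero, ENNReal.ofReal_one, one_mul, mul_one]
  simp only [Finset.union_empty, Finset.card_empty, pow_zero, mul_one] at this
  exact (WW_mono hs ps subset_rfl Set.diff_subset Set.subset_union_left).trans this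

lemma tsum_EL {X Y : Type} (ρ : X → ℝ≥0∞) (TT : X → PMF Y) (a b : X → Y → ℝ≥0∞) :
    ∑' p : X × Y, ρ p.1 * TT p.1 p.2 * a p.1 p.2 * b p.1 p.2 =
      ∑' x, ρ x * EL (TT x) fun y => a x y * b x y := by
  rw [ENNReal.tsum_prod (f := fun x y => ρ x * TT x y * a x y * b x y)]
  simp only [EL, ← ENNReal.tsum_mul_left, mul_assoc]

lemma suffix_child_eq {c c' : ℕ} {w z : V} (h : c :: w <:+ z) (h' : c' :: w <:+ z) : c = c' := by
  have := (List.suffix_of_suffix_length_le h h' (by simp)).eq_of_length (by simp)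
  simpa using this

lemma pth_child (c : ℕ) (w e : V) : pth (c :: w) e ⊆ pth w e := fun _ hz =>
  ⟨(List.suffix_cons c w).trans hz.1, hz.2⟩

/-- the sleeping vertices while the children `U` of `w` are unexplored -/
def SU (S : Set V) (w : V) (U : Finset ℕ) : Set V := (S \ Dw w) ∪ {z | ∃ c ∈ U, c :: w <:+ z}

lemma SU_erase (S : Set V) (w : V) (U : Finset ℕ) (c : ℕ) :
    SU S w (U.erase c) ⊆ SU S w U \ Dw (c :: w) := by
  rintro z (hz | ⟨c', hc', hz⟩)
  · exact ⟨Or.inl hz, fun h => hz.2 ((List.suffix_cons c w).trans h)⟩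
  · exact ⟨Or.inr ⟨c', Finset.mem_of_mem_erase hc', hz⟩,
      fun h => Finset.ne_of_mem_erase hc' (suffix_child_eq hz h)⟩

lemma loop_bound (hs : s ≤ 1) (hd : ∀ x, Disc (mk x)) {h : ℕ} (hC : Cl Z n lam s mk h) {w : V}
    (hw : w ≠ []) (hwT : InTree Z w) (hlen : w.length + (h + 1) = n)
    (hrec : ∀ F : Option (V × V) → ℝ≥0∞, (∀ a, F a ≤ 1) → ∫⁻ u, F (mk w u) ∂UU ≤
      AW Z (h + 1) w (fun e => F (some (w, e))) +
        ENNReal.ofReal (1 - gh (h + 1) (sh w Z)) * ∫⁻ u, F (mk w.tail u) ∂UU)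
    {ps : Frog → V} {A : Finset Frog} {S P : Set V} {X : Type} {ρ : X → ℝ≥0∞} {σ0 : X → ℝ}
    (hA : ∀ f ∈ A, ¬ w <:+ f.1)
    (hcont : ∀ (ps' : Frog → V) (B : Finset Frog), (∀ f ∈ B, w <:+ f.1 ∧ ps' f = w.tail) →
        (∀ f : Frog, ¬ w <:+ f.1 → ps' f = ps f) →
        WW lam s mk ps' (A ∪ B) (S \ Dw w) P ≤ ∑' x, ρ x * ENNReal.ofReal (σ0 x) ^ B.card)
    (hσ0 : ∀ x, 0 ≤ σ0 x)
    {TT : X → PMF XX} {σ : X → Finset ℕ → XX → ℝ}
    (h1 : ∀ x U, U ⊆ range (Z w) → ∀ y, 0 ≤ σ x U y ∧ σ x U y ≤ 1)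
    (h2 : ∀ x U, U ⊆ range (Z w) → ∀ m : ℕ,
      ENNReal.ofReal ((σ0 x + ∑ c ∈ range (Z w) \ U, gh h (sh (c :: w) Z)) /
          (1 + Cs (fun i => gh h (sh (i :: w) Z)) (Z w))) *
          EL (TT x) (fun y => ENNReal.ofReal (σ x U y) ^ m) +
        ∑ c ∈ U, ENNReal.ofReal (gh h (sh (c :: w) Z) /
          (1 + Cs (fun i => gh h (sh (i :: w) Z)) (Z w))) *
          EL (TT x) (fun y => ENNReal.ofReal (σ x (U.erase c) y) ^ m *
            Lap (PM lam h (sh (c :: w) Z)) (1 - σ x (U.erase c) y))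
      ≤ EL (TT x) fun y => ENNReal.ofReal (σ x U y) ^ (m + 1)) :
    ∀ (u : ℕ) (U : Finset ℕ), U.card = u → U ⊆ range (Z w) → ∀ (m : ℕ) (Q B : Finset Frog)
      (ps' : Frog → V), Q.card = m → (∀ f ∈ Q, w <:+ f.1 ∧ ps' f = w) →
      (∀ f ∈ B, w <:+ f.1 ∧ ps' f = w.tail) → (∀ f : Frog, ¬ w <:+ f.1 → ps' f = ps f) →
      (∀ f ∈ A ∪ Q ∪ B, f.1 ∉ SU S w U) → (∀ c ∈ U, ∀ f : Frog, c :: w <:+ f.1 → ps' f = f.1) →
      WW lam s mk ps' (A ∪ Q ∪ B) (SU S w U) P ≤
        ∑' x, ρ x * ENNReal.ofReal (σ0 x) ^ B.card *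
          EL (TT x) fun y => ENNReal.ofReal (σ x U y) ^ m := by
  classical
  have hwt : w.tail ≠ w := by
    intro h
    have := congrArg List.length h
    cases w with
    | nil => exact hw rfl
    | cons i v => simp at this
  set g : ℕ → ℝ := fun i => gh h (sh (i :: w) Z) with hg
  have hg0 : ∀ i, 0 ≤ g i := fun i => (gh_box h _).1
  have hCs := Cs_nonneg (g := g) (k := Z w) fun i _ => hg0 i
  intro u
  induction u using Nat.strong_induction_on with
  | _ u ihu =>
  intro U hU hUs m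
  induction m with
  | zero =>
    intro Q B ps' hQ _ hB hps _ _
    rw [Finset.card_eq_zero] at hQ
    subst hQ
    simp only [pow_zero, EL_const, mul_one, Finset.union_empty]
    exact (WW_mono hs ps' subset_rfl Set.subset_union_left subset_rfl).trans (hcont ps' B hB hps)
  | succ m ihm =>
    intro Q B ps' hQ hQ' hB hps hS hpsU
    obtain ⟨f, hf⟩ : Q.Nonempty := Finset.card_pos.1 (by omega)
    have hfm : f ∈ A ∪ Q ∪ B := by simp [hf]
    have hfA : f ∉ A := fun h => hA f h (hQ' f hf).1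
    have hfB : f ∉ B := fun h => hwt ((hB f h).2.symm.trans (hQ' f hf).2)
    have hQe : (Q.erase f).card = m := by rw [Finset.card_erase_of_mem hf, hQ]; rfl
    have hsub : A ∪ Q.erase f ∪ B ⊆ (A ∪ Q ∪ B).erase f := by
      intro a ha
      simp only [Finset.mem_union, Finset.mem_erase] at ha ⊢
      rcases ha with (ha | ha) | ha
      · exact ⟨by rintro rfl; exact hfA ha, Or.inl (Or.inl ha)⟩
      · exact ⟨ha.1, Or.inl (Or.inr ha.2)⟩
      · exact ⟨by rintro rfl; exact hfB ha, Or.inr ha⟩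
    have hS' : ∀ a ∈ A ∪ Q.erase f ∪ B, a.1 ∉ SU S w U := fun a ha =>
      hS a (Finset.mem_of_mem_erase (hsub ha))
    -- the three kinds of moves
    have hup : WW lam s mk (update ps' f w.tail) (A ∪ Q ∪ B) (SU S w U) P ≤
        ∑' x, ρ x * ENNReal.ofReal (σ0 x) ^ (B.card + 1) *
          EL (TT x) fun y => ENNReal.ofReal (σ x U y) ^ m := by
      have e : A ∪ Q ∪ B = A ∪ Q.erase f ∪ insert f B := by
        ext a
        simp only [Finset.mem_union, Finset.mem_erase, Finset.mem_insert]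
        by_cases ha : a = f
        · simp [ha, hf]
        · simp [ha]
      rw [← Finset.card_insert_of_notMem hfB, e]
      refine ihm _ _ _ hQe (fun a ha => ?_) (fun a ha => ?_) (fun a ha => ?_) (e ▸ hS)
        fun c hc a ha => ?_
      · rw [update_of_ne (Finset.ne_of_mem_erase ha)]
        exact hQ' a (Finset.mem_of_mem_erase ha)
      · rcases Finset.mem_insert.1 ha with rfl | ha'
        · exact ⟨(hQ' a hf).1, update_self _ _ _⟩
        · rw [update_of_ne (by rintro rfl; exact hfB ha')]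
          exact hB a ha'
      · rw [update_of_ne (by rintro rfl; exact ha (hQ' a hf).1)]
        exact hps a ha
      · rw [update_of_ne (by rintro rfl; exact hS a hfm (Or.inr ⟨c, hc, ha⟩))]
        exact hpsU c hc a ha
    have hold : ∀ c, AW Z h (c :: w)
        (fun e => WW lam s mk ps' ((A ∪ Q ∪ B).erase f) (SU S w U) (P ∪ pth w e)) ≤
        ENNReal.ofReal (g c) * ∑' x, ρ x * ENNReal.ofReal (σ0 x) ^ B.card *
          EL (TT x) fun y => ENNReal.ofReal (σ x U y) ^ m := by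
      intro c
      rw [← AW_const]
      refine AW_mono Z h _ fun e => ?_
      refine (WW_mono hs ps' hsub subset_rfl Set.subset_union_left).trans ?_
      exact ihm _ _ _ hQe (fun a ha => hQ' a (Finset.mem_of_mem_erase ha)) hB hps hS' hpsU
    have hnew : ∀ c ∈ U, AW Z h (c :: w)
        (fun e => WW lam s mk ps' ((A ∪ Q ∪ B).erase f) (SU S w U) (P ∪ pth w e)) ≤
        ENNReal.ofReal (g c) * ∑' x, ρ x * ENNReal.ofReal (σ0 x) ^ B.card *
          EL (TT x) fun y => ENNReal.ofReal (σ x (U.erase c) y) ^ m *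
            Lap (PM lam h (sh (c :: w) Z)) (1 - σ x (U.erase c) y) := by
      intro c hc
      have hUe : U.erase c ⊆ range (Z w) := (Finset.erase_subset _ _).trans hUs
      refine (AW_mono Z h _ fun e => WW_mono hs ps' hsub subset_rfl
        (Set.union_subset_union_right P (pth_child c w e))).trans ?_
      rw [← tsum_EL (fun x => ρ x * ENNReal.ofReal (σ0 x) ^ B.card)]
      refine hC (c :: w) (List.cons_ne_nil _ _)
        (inTree_cons.2 ⟨hwT, mem_range.1 (hUs hc)⟩) (by simp only [List.length_cons]; omega)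
        ps' _ _ P (X × XX) (fun p => ρ p.1 * ENNReal.ofReal (σ0 p.1) ^ B.card * TT p.1 p.2 *
          ENNReal.ofReal (σ p.1 (U.erase c) p.2) ^ m) (fun p => σ p.1 (U.erase c) p.2)
        (fun p => h1 p.1 _ hUe p.2) (fun z hz => Or.inr ⟨c, hc, hz⟩) hS' (hpsU c hc) ?_
      intro ps'' B' hB' hps''
      have hnT : ∀ a ∈ A ∪ Q.erase f ∪ B, ¬ c :: w <:+ a.1 := fun a ha h =>
        hS' a ha (Or.inr ⟨c, hc, h⟩)
      have hdis : Disjoint (Q.erase f) B' := Finset.disjoint_left.2 fun a ha ha' =>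
        hnT a (by simp only [Finset.mem_union]; exact Or.inl (Or.inr ha)) (hB' a ha').1
      have e : A ∪ Q.erase f ∪ B ∪ B' = A ∪ (Q.erase f ∪ B') ∪ B := by
        ext a
        simp only [Finset.mem_union]
        tauto
      rw [e, tsum_EL (fun x => ρ x * ENNReal.ofReal (σ0 x) ^ B.card) TT
        (fun x y => ENNReal.ofReal (σ x (U.erase c) y) ^ m)
        (fun x y => ENNReal.ofReal (σ x (U.erase c) y) ^ B'.card)]
      simp only [← pow_add]
      refine (WW_mono hs ps'' subset_rfl (SU_erase S w U c) subset_rfl).trans ?_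
      refine ihu (U.erase c).card (by rw [← hU]; exact Finset.card_erase_lt_of_mem hc) _ rfl hUe
        _ _ _ _ (by rw [Finset.card_union_of_disjoint hdis, hQe]) (fun a ha => ?_)
        (fun a ha => ?_) (fun a ha => ?_) (fun a ha => ?_) fun c' hc' a ha => ?_
      · rcases Finset.mem_union.1 ha with ha | ha
        · rw [hps'' a (hnT a (by simp only [Finset.mem_union]; exact Or.inl (Or.inr ha)))]
          exact hQ' a (Finset.mem_of_mem_erase ha)
        · exact ⟨(List.suffix_cons c w).trans (hB' a ha).1, (hB' a ha).2⟩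
      · rw [hps'' a (hnT a (Finset.mem_union_right _ ha))]
        exact hB a ha
      · rw [hps'' a fun h => ha ((List.suffix_cons c w).trans h)]
        exact hps a ha
      · rw [← e] at ha
        intro hz
        have := SU_erase S w U c hz
        rcases Finset.mem_union.1 ha with ha | ha
        · exact hS' a ha this.1
        · exact this.2 (hB' a ha).1
      · rw [hps'' a fun h => Finset.ne_of_mem_erase hc' (suffix_child_eq ha h)]
        exact hpsU c' (Finset.mem_of_mem_erase hc') a ha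
    refine (WW_step hs hd ENNReal.ofReal_ne_top hrec P hfm (hS f hfm) (hQ' f hf).2).trans ?_
    have hD : 0 < 1 + Cs g (Z w) := by positivity
    have e1 : 1 - gh (h + 1) (sh w Z) = 1 / (1 + Cs g (Z w)) := by
      rw [gh_succ_sh]
      change 1 - Cs g (Z w) / (1 + Cs g (Z w)) = _
      field_simp
      ring
    rw [e1]
    simp only [AW]
    rw [← Finset.sum_sdiff hUs]
    refine (add_le_add (mul_le_mul' (add_le_add (Finset.sum_le_sum fun c _ => hold c)
      (Finset.sum_le_sum hnew)) le_rfl) (mul_le_mul' le_rfl hup)).trans ?_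
    simp only [← ENNReal.tsum_mul_left]
    rw [← Summable.tsum_finsetSum fun _ _ => ENNReal.summable,
      ← Summable.tsum_finsetSum fun _ _ => ENNReal.summable, ← ENNReal.tsum_add,
      ← ENNReal.tsum_mul_right, ← ENNReal.tsum_add]
    refine ENNReal.tsum_le_tsum fun x => ?_
    refine le_trans (le_of_eq ?_) (mul_le_mul' le_rfl (h2 x U hUs m))
    have e2 : ∀ a : ℝ, 0 ≤ a → ENNReal.ofReal (a / (1 + Cs g (Z w))) =
        ENNReal.ofReal a * ENNReal.ofReal (1 / (1 + Cs g (Z w))) := fun a ha => by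
      rw [← ENNReal.ofReal_mul ha, mul_one_div]
    rw [e2 _ (add_nonneg (hσ0 x) (Finset.sum_nonneg fun c _ => hg0 c)),
      ENNReal.ofReal_add (hσ0 x) (Finset.sum_nonneg fun c _ => hg0 c),
      ENNReal.ofReal_sum_of_nonneg fun c _ => hg0 c]
    have e3 : ∀ c, ENNReal.ofReal (gh h (sh (c :: w) Z) / (1 + Cs g (Z w))) =
        ENNReal.ofReal (g c) * ENNReal.ofReal (1 / (1 + Cs g (Z w))) := fun c => e2 _ (hg0 c)
    simp only [e3, mul_add, add_mul, Finset.mul_sum, Finset.sum_mul]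
    rw [add_comm, ← add_assoc]
    congr 1
    · congr 1
      · ring
      · exact Finset.sum_congr rfl fun c _ => by ring
    · exact Finset.sum_congr rfl fun c _ => by ring

lemma AW_mono' (Z : V → ℕ) : ∀ (h : ℕ) (w : V) {φ ψ : V → ℝ≥0∞}, (∀ e, w <:+ e → φ e ≤ ψ e) →
    AW Z h w φ ≤ AW Z h w ψ
  | 0, w, _, _, hh => hh w (List.suffix_refl w)
  | h + 1, w, _, _, hh => mul_le_mul' (Finset.sum_le_sum fun i _ =>
      AW_mono' Z h (i :: w) fun e he => hh e ((List.suffix_cons i w).trans he)) le_rfl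

lemma Cl_succ (hD1 : D1Stmt) (hs : s ≤ 1) (hd : ∀ x, Disc (mk x)) {h : ℕ}
    (hrec : ∀ w, w ≠ [] → InTree Z w → w.length + (h + 1) = n →
      ∀ F : Option (V × V) → ℝ≥0∞, (∀ a, F a ≤ 1) → ∫⁻ u, F (mk w u) ∂UU ≤
      AW Z (h + 1) w (fun e => F (some (w, e))) +
        ENNReal.ofReal (1 - gh (h + 1) (sh w Z)) * ∫⁻ u, F (mk w.tail u) ∂UU)
    (hC : Cl Z n lam s mk h) : Cl Z n lam s mk (h + 1) := by
  classical
  intro w hw hwT hlen ps A S P X ρ σ0 hσ0 hSw hAS hps hcont
  set g : ℕ → ℝ := fun i => gh h (sh (i :: w) Z) with hg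
  have hg0 : ∀ i, 0 ≤ g i := fun i => (gh_box h _).1
  have hCs := Cs_nonneg (g := g) (k := Z w) fun i _ => hg0 i
  have hl : (0 : ℝ) ≤ lam := lam.2
  choose TT σ h1 h2 h3 using fun x : X => hD1 g (Z w) (fun i => PM lam h (sh (i :: w) Z))
    (1 - σ0 x) lam h (fun i _ => hg0 i) (fun i _ => supp_PM hl h _) (by linarith [(hσ0 x).2])
    (by linarith [(hσ0 x).1]) hl
  have hA : ∀ f ∈ A, ¬ w <:+ f.1 := fun f hf h => hAS f hf (hSw _ h)
  have hloop := loop_bound (S := S) (P := P) hs hd hC hw hwT hlen (hrec w hw hwT hlen) hA hcont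
    (fun x => (hσ0 x).1) h1 (fun x U hU m => by simpa only [sub_sub_cancel] using h2 x U hU m)
  have hcw : ∀ c : ℕ, ¬ c :: w <:+ w := fun c h => by simpa using h.length_le
  have key : ∀ c ∈ range (Z w), AW Z h (c :: w) (fun e => WW lam s mk ps A S (P ∪ pth w e)) ≤
      ENNReal.ofReal (g c) * ∑' x, ρ x * EL (TT x) fun y =>
        ee (lam * (1 - σ x ((range (Z w)).erase c) y)) *
          Lap (PM lam h (sh (c :: w) Z)) (1 - σ x ((range (Z w)).erase c) y) := by
    intro c hc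
    set U := (range (Z w)).erase c with hU
    have hUs : U ⊆ range (Z w) := Finset.erase_subset _ _
    refine (AW_mono' Z h _ (ψ := fun e => ∑' j, poissonMeasure lam {j} *
      WW lam s mk ps (A ∪ Qz w j) (S \ {w}) (P ∪ pth (c :: w) e)) fun e he => ?_).trans ?_
    · refine (WW_wake hs hd ps A (z := w) (Or.inr ⟨List.suffix_refl w,
        (List.suffix_cons c w).trans he⟩) (hSw w (List.suffix_refl w))).trans ?_
      exact ENNReal.tsum_le_tsum fun j => mul_le_mul' le_rfl (WW_mono hs ps subset_rfl subset_rfl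
        (Set.union_subset_union_right P (pth_child c w e)))
    rw [AW_tsum]
    have hj : ∀ j, AW Z h (c :: w)
        (fun e => WW lam s mk ps (A ∪ Qz w j) (S \ {w}) (P ∪ pth (c :: w) e)) ≤
        ENNReal.ofReal (g c) * ∑' x, ρ x * EL (TT x) fun y => ENNReal.ofReal (σ x U y) ^ j *
          Lap (PM lam h (sh (c :: w) Z)) (1 - σ x U y) := by
      intro j
      rw [← tsum_EL ρ]
      refine hC (c :: w) (List.cons_ne_nil _ _)
        (inTree_cons.2 ⟨hwT, mem_range.1 hc⟩) (by simp only [List.length_cons]; omega)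
        ps _ _ P (X × XX) (fun p => ρ p.1 * TT p.1 p.2 * ENNReal.ofReal (σ p.1 U p.2) ^ j)
        (fun p => σ p.1 U p.2) (fun p => h1 p.1 _ hUs p.2)
        (fun z hz => ⟨hSw z ((List.suffix_cons c w).trans hz), by rintro rfl; exact hcw c hz⟩)
        (fun f hf => ?_) (fun f hf => hps f ((List.suffix_cons c w).trans hf)) ?_
      · rcases Finset.mem_union.1 hf with hf | hf
        · exact fun h => hAS f hf h.1
        · exact fun h => h.2 (mem_Qz.1 hf).1
      intro ps' B' hB' hps'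
      have hdis : Disjoint (Qz w j) B' := Finset.disjoint_left.2 fun a ha ha' =>
        hcw c ((mem_Qz.1 ha).1 ▸ (hB' a ha').1)
      have hSU : SU S w U ⊆ (S \ {w}) \ Dw (c :: w) := by
        rintro z (hz | ⟨c', hc', hz⟩)
        · exact ⟨⟨hz.1, by rintro rfl; exact hz.2 (List.suffix_refl _)⟩,
            fun h => hz.2 ((List.suffix_cons c w).trans h)⟩
        · exact ⟨⟨hSw z ((List.suffix_cons c' w).trans hz), by rintro rfl; exact hcw c' hz⟩,
            fun h => Finset.ne_of_mem_erase hc' (suffix_child_eq hz h)⟩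
      rw [tsum_EL ρ TT (fun x y => ENNReal.ofReal (σ x U y) ^ j)
        (fun x y => ENNReal.ofReal (σ x U y) ^ B'.card)]
      simp only [← pow_add]
      refine (WW_mono hs ps' subset_rfl hSU subset_rfl).trans ?_
      have := hloop _ U rfl hUs (j + B'.card) (Qz w j ∪ B') ∅ ps'
        (by rw [Finset.card_union_of_disjoint hdis, card_Qz]) (fun a ha => ?_) (by simp)
        (fun a ha => hps' a fun h => ha ((List.suffix_cons c w).trans h)) (fun a ha hz => ?_)
        fun c' hc' a ha => ?_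
      · simpa only [Finset.union_empty, Finset.card_empty, pow_zero, mul_one,
          Finset.union_assoc] using this
      · rcases Finset.mem_union.1 ha with ha | ha
        · have e := (mem_Qz.1 ha).1
          rw [hps' a (e ▸ hcw c), hps a (e ▸ List.suffix_refl _)]
          exact ⟨e ▸ List.suffix_refl _, e⟩
        · exact ⟨(List.suffix_cons c w).trans (hB' a ha).1, (hB' a ha).2⟩
      · have := hSU hz
        simp only [Finset.union_empty, Finset.mem_union] at ha
        rcases ha with ha | ha | ha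
        · exact hAS a ha this.1.1
        · exact this.1.2 (mem_Qz.1 ha).1
        · exact this.2 (hB' a ha).1
      · rw [hps' a fun h => Finset.ne_of_mem_erase hc' (suffix_child_eq ha h)]
        exact hps a ((List.suffix_cons c' w).trans ha)
    refine (ENNReal.tsum_le_tsum fun j => mul_le_mul' le_rfl (hj j)).trans (le_of_eq ?_)
    simp only [← ENNReal.tsum_mul_left]
    rw [ENNReal.tsum_comm]
    refine tsum_congr fun x => ?_
    simp only [← poisson_pgf lam (h1 x U hUs _).1, ← ENNReal.tsum_mul_right, EL_tsum,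
      ← ENNReal.tsum_mul_left, mul_assoc, EL_const_mul]
    exact tsum_congr fun j => by ring
  simp only [AW]
  refine (mul_le_mul' (Finset.sum_le_sum key) le_rfl).trans ?_
  rw [gh_succ_sh, PM_succ_sh]
  simp only [← ENNReal.tsum_mul_left]
  rw [← Summable.tsum_finsetSum fun _ _ => ENNReal.summable, ← ENNReal.tsum_mul_right]
  refine ENNReal.tsum_le_tsum fun x => ?_
  rw [mul_left_comm]
  refine le_trans (le_of_eq ?_) (mul_le_mul' le_rfl (h3 x))
  rw [Finset.mul_sum, Finset.sum_mul]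
  refine Finset.sum_congr rfl fun c _ => ?_
  rw [div_eq_mul_one_div (g c), ENNReal.ofReal_mul (hg0 c)]
  ring

lemma Cl_all (hD1 : D1Stmt) (hs : s ≤ 1) (hd : ∀ x, Disc (mk x))
    (hrec : ∀ i v h, InTree Z (i :: v) → (i :: v).length + h = n →
      ∀ F : Option (V × V) → ℝ≥0∞, (∀ a, F a ≤ 1) → ∫⁻ u, F (mk (i :: v) u) ∂UU ≤
      AW Z h (i :: v) (fun e => F (some (i :: v, e))) +
        ENNReal.ofReal (1 - gh h (sh (i :: v) Z)) * ∫⁻ u, F (mk v u) ∂UU) :
    ∀ h, Cl Z n lam s mk h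
  | 0 => Cl_zero hs
  | h + 1 => Cl_succ hD1 hs hd (fun w hw hT hl => by
      obtain ⟨i, v, rfl⟩ := List.exists_cons_of_ne_nil hw
      exact hrec i v (h + 1) hT hl) (Cl_all hD1 hs hd hrec h)

end Pool.Agent.H109Z.FrogGW
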