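import Pool.Agent.H109Z.Frog.Moments

set_option autoImplicit false

/-! Discrete probability toolkit: expectations under a `PMF`, finite independent products. -/

namespace Pool.Agent.H109Z.FrogGW

open Function
open scoped ENNReal

/-- expectation under a `PMF` -/
noncomputable def EL {α : Type*} (P : PMF α) (f : α → ℝ≥0∞) : ℝ≥0∞ := ∑' a, P a * f a

section basic
variable {α β : Type*}

lemma EL_pure (a : α) (f : α → ℝ≥0∞) : EL (PMF.pure a) f = f a := by
  classical
  unfold EL
  rw [tsum_eq_single a]
  · simp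
  · intro b hb
    simp [PMF.pure_apply, hb]

lemma EL_bind (P : PMF α) (K : α → PMF β) (f : β → ℝ≥0∞) :
    EL (P.bind K) f = EL P fun a => EL (K a) f := by
  unfold EL
  simp only [PMF.bind_apply, ← ENNReal.tsum_mul_right, ← ENNReal.tsum_mul_left, mul_assoc]
  exact ENNReal.tsum_comm

lemma EL_map (P : PMF α) (g : α → β) (f : β → ℝ≥0∞) :
    EL (P.map g) f = EL P fun a => f (g a) := by
  rw [PMF.map, EL_bind]
  simp only [Function.comp_apply, EL_pure]

lemma EL_const (P : PMF α) (c : ℝ≥0∞) : EL P (fun _ => c) = c := by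
  unfold EL
  rw [ENNReal.tsum_mul_right, P.tsum_coe, one_mul]

lemma EL_mono_supp (P : PMF α) {f g : α → ℝ≥0∞} (h : ∀ a ∈ P.support, f a ≤ g a) :
    EL P f ≤ EL P g := by
  refine ENNReal.tsum_le_tsum fun a => ?_
  by_cases ha : P a = 0
  · simp [ha]
  · exact mul_le_mul' le_rfl (h a ha)

lemma EL_mono (P : PMF α) {f g : α → ℝ≥0∞} (h : ∀ a, f a ≤ g a) : EL P f ≤ EL P g :=
  EL_mono_supp P fun a _ => h a

lemma EL_congr_supp (P : PMF α) {f g : α → ℝ≥0∞} (h : ∀ a ∈ P.support, f a = g a) :
    EL P f = EL P g :=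
  le_antisymm (EL_mono_supp P fun a ha => (h a ha).le) (EL_mono_supp P fun a ha => (h a ha).ge)

lemma EL_le_const (P : PMF α) {f : α → ℝ≥0∞} {c : ℝ≥0∞} (h : ∀ a ∈ P.support, f a ≤ c) :
    EL P f ≤ c :=
  (EL_mono_supp P h).trans (EL_const P c).le

lemma EL_add (P : PMF α) (f g : α → ℝ≥0∞) :
    EL P (fun a => f a + g a) = EL P f + EL P g := by
  unfold EL
  simp only [mul_add, ENNReal.tsum_add]

lemma EL_const_mul (P : PMF α) (c : ℝ≥0∞) (f : α → ℝ≥0∞) :
    EL P (fun a => c * f a) = c * EL P f := by
  unfold EL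
  rw [← ENNReal.tsum_mul_left]
  simp only [mul_left_comm]

lemma EL_mul_const (P : PMF α) (c : ℝ≥0∞) (f : α → ℝ≥0∞) :
    EL P (fun a => f a * c) = EL P f * c := by
  simp only [mul_comm _ c, EL_const_mul]

lemma EL_comm (P : PMF α) (Q : PMF β) (f : α → β → ℝ≥0∞) :
    EL P (fun a => EL Q fun b => f a b) = EL Q fun b => EL P fun a => f a b := by
  unfold EL
  simp only [← ENNReal.tsum_mul_left]
  rw [ENNReal.tsum_comm]
  simp only [mul_left_comm]

lemma EL_tsum (P : PMF α) (f : β → α → ℝ≥0∞) :
    EL P (fun a => ∑' b, f b a) = ∑' b, EL P (f b) := by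
  unfold EL
  simp only [← ENNReal.tsum_mul_left]
  exact ENNReal.tsum_comm

lemma EL_sum (P : PMF α) (s : Finset β) (f : β → α → ℝ≥0∞) :
    EL P (fun a => ∑ b ∈ s, f b a) = ∑ b ∈ s, EL P (f b) := by
  classical
  induction s using Finset.induction_on with
  | empty => simp [EL]
  | insert b s hb ih => simp only [Finset.sum_insert hb, EL_add, ih]

end basic

/-- independent coordinates with laws `P i` for `i` in the list, the default `d` elsewhere -/
noncomputable def piL {ι α : Type*} [DecidableEq ι] (P : ι → PMF α) (d : ι → α) :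
    List ι → PMF (ι → α)
  | [] => PMF.pure d
  | i :: l => (piL P d l).bind fun x => (P i).map fun a => update x i a

section pi
variable {ι α β γ : Type*} [DecidableEq ι]

lemma EL_piL_cons (P : ι → PMF α) (d : ι → α) (i : ι) (l : List ι) (F : (ι → α) → ℝ≥0∞) :
    EL (piL P d (i :: l)) F = EL (piL P d l) fun x => EL (P i) fun a => F (update x i a) := by
  simp only [piL, EL_bind, EL_map]

/-- resampling one coordinate -/
lemma EL_resample (P : ι → PMF α) (d : ι → α) {i : ι} : ∀ {l : List ι}, i ∈ l →
    ∀ F : (ι → α) → ℝ≥0∞,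
    EL (piL P d l) F = EL (piL P d l) fun x => EL (P i) fun a => F (update x i a) := by
  intro l
  induction l with
  | nil => intro h; simp at h
  | cons j l ih =>
    intro h F
    rw [EL_piL_cons, EL_piL_cons]
    by_cases hij : i = j
    · subst hij
      simp only [update_idem, EL_const]
    · have hl : i ∈ l := by simpa [hij] using h
      rw [ih hl]
      congr 1
      funext x
      rw [EL_comm]
      simp only [update_comm hij]

lemma piL_congr {P P' : ι → PMF α} (d : ι → α) : ∀ {l : List ι}, (∀ i ∈ l, P i = P' i) →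
    piL P d l = piL P' d l := by
  intro l
  induction l with
  | nil => intro _; rfl
  | cons j l ih =>
    intro h
    simp only [piL]
    rw [ih fun i hi => h i (List.mem_cons_of_mem _ hi), h j List.mem_cons_self]

/-- the law of a coordinate on which `F` does not depend is irrelevant -/
lemma EL_piL_congr {P P' : ι → PMF α} (d : ι → α) {c : ι} (h : ∀ i, i ≠ c → P i = P' i) :
    ∀ (l : List ι) (F : (ι → α) → ℝ≥0∞), (∀ x a, F (update x c a) = F x) →
    EL (piL P d l) F = EL (piL P' d l) F := by
  intro l
  induction l with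
  | nil => intro F _; rfl
  | cons j l ih =>
    intro F hF
    rw [EL_piL_cons, EL_piL_cons]
    by_cases hj : j = c
    · subst hj
      simp only [hF, EL_const]
      exact ih F hF
    · rw [← h j hj]
      refine ih _ fun x a => ?_
      simp only [update_comm (Ne.symm hj), hF]

lemma supp_piL {P : ι → PMF α} {d : ι → α} : ∀ {l : List ι} {x : ι → α},
    x ∈ (piL P d l).support → (∀ i ∈ l, x i ∈ (P i).support) ∧ ∀ i, i ∉ l → x i = d i := by
  intro l
  induction l with
  | nil =>
    intro x hx
    simp only [piL, PMF.support_pure, Set.mem_singleton_iff] at hx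
    simp [hx]
  | cons j l ih =>
    intro x hx
    simp only [piL, PMF.mem_support_bind_iff, PMF.mem_support_map_iff] at hx
    obtain ⟨y, hy, a, ha, rfl⟩ := hx
    obtain ⟨h1, h2⟩ := ih hy
    constructor
    · intro i hi
      by_cases hij : i = j
      · subst hij; simpa using ha
      · rw [update_of_ne hij]
        exact h1 i (by simpa [hij] using hi)
    · intro i hi
      simp only [List.mem_cons, not_or] at hi
      rw [update_of_ne hi.1]
      exact h2 i hi.2

/-- independence of one coordinate from the rest -/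
lemma EL_indep (P : ι → PMF α) (d : ι → α) {i : ι} {l : List ι} (hi : i ∈ l)
    {F : (ι → α) → ℝ≥0∞} (hF : ∀ x a, F (update x i a) = F x) (G : α → ℝ≥0∞) :
    EL (piL P d l) (fun x => F x * G (x i)) = EL (piL P d l) F * EL (P i) G := by
  rw [EL_resample P d hi]
  simp only [hF, update_self, EL_const_mul, EL_mul_const]

lemma EL_coord (P : ι → PMF α) (d : ι → α) {i : ι} {l : List ι} (hi : i ∈ l) (G : α → ℝ≥0∞) :
    EL (piL P d l) (fun x => G (x i)) = EL (P i) G := by
  have := EL_indep P d hi (F := fun _ => 1) (fun _ _ => rfl) G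
  simpa [EL_const] using this

/-- product formula -/
lemma EL_prod (P : ι → PMF α) (d : ι → α) (l : List ι) (S : Finset ι) (hS : ∀ i ∈ S, i ∈ l)
    (F : (ι → α) → ℝ≥0∞) (g : ι → (ι → α) → α → ℝ≥0∞)
    (hF : ∀ j ∈ S, ∀ x a, F (update x j a) = F x)
    (hg : ∀ i ∈ S, ∀ j ∈ S, ∀ x a, g i (update x j a) = g i x) :
    EL (piL P d l) (fun x => F x * ∏ i ∈ S, g i x (x i)) =
      EL (piL P d l) fun x => F x * ∏ i ∈ S, EL (P i) (g i x) := by
  have key : ∀ T : Finset ι, T ⊆ S → ∀ F : (ι → α) → ℝ≥0∞,
      (∀ j ∈ T, ∀ x a, F (update x j a) = F x) →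
      EL (piL P d l) (fun x => F x * ∏ i ∈ T, g i x (x i)) =
        EL (piL P d l) fun x => F x * ∏ i ∈ T, EL (P i) (g i x) := by
    intro T
    induction T using Finset.induction_on with
    | empty => intro _ F _; simp
    | insert j T hj ih =>
      intro hT F hF
      have hjS : j ∈ S := hT (Finset.mem_insert_self _ _)
      have hTS : T ⊆ S := (Finset.subset_insert _ _).trans hT
      simp only [Finset.prod_insert hj]
      rw [EL_resample P d (hS j hjS)]
      have e : ∀ x a, F (update x j a) * (g j (update x j a) (update x j a j) *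
          ∏ i ∈ T, g i (update x j a) (update x j a i)) =
          (F x * ∏ i ∈ T, g i x (x i)) * g j x a := by
        intro x a
        rw [hF j (Finset.mem_insert_self _ _), hg j hjS j hjS, update_self]
        have : ∏ i ∈ T, g i (update x j a) (update x j a i) = ∏ i ∈ T, g i x (x i) := by
          refine Finset.prod_congr rfl fun i hi => ?_
          rw [hg i (hTS hi) j hjS, update_of_ne (by rintro rfl; exact hj hi)]
        rw [this]; ring
      simp only [e, EL_const_mul]
      have := ih hTS (fun x => F x * EL (P j) (g j x)) (fun i hi x a => by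
        rw [hF i (Finset.mem_insert_of_mem hi), hg j hjS i (hTS hi)])
      simp only [mul_assoc] at this ⊢
      rw [← this]
      congr 1
      funext x
      ring
  exact key S subset_rfl F hF

/-- product formula without parameters -/
lemma EL_prod' (P : ι → PMF α) (d : ι → α) (l : List ι) (S : Finset ι) (hS : ∀ i ∈ S, i ∈ l)
    (g : ι → α → ℝ≥0∞) :
    EL (piL P d l) (fun x => ∏ i ∈ S, g i (x i)) = ∏ i ∈ S, EL (P i) (g i) := by
  have := EL_prod P d l S hS (fun _ => 1) (fun i _ => g i) (fun _ _ _ _ => rfl)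
    (fun _ _ _ _ _ _ => rfl)
  simpa [EL_const] using this

/-- two-stage sampling of independent coordinates -/
lemma EL_piL_bind (P : ι → PMF α) (K : ι → α → PMF β) (f : ι → α → β → γ) (d1 : ι → α)
    (d2 : ι → β) : ∀ l : List ι, l.Nodup → ∀ F : (ι → γ) → ℝ≥0∞,
    EL (piL (fun i => (P i).bind fun a => (K i a).map (f i a)) (fun i => f i (d1 i) (d2 i)) l) F =
      EL (piL P d1 l) fun x => EL (piL (fun i => K i (x i)) d2 l) fun y =>
        F fun i => f i (x i) (y i) := by
  intro l
  induction l with
  | nil => intro _ F; simp only [piL, EL_pure]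
  | cons j l ih =>
    intro hl F
    rw [List.nodup_cons] at hl
    rw [EL_piL_cons, ih hl.2, EL_piL_cons]
    congr 1
    funext x
    simp only [EL_bind, EL_map, EL_piL_cons, update_self]
    rw [EL_comm]
    congr 1
    funext a
    rw [piL_congr (P := fun i => K i (update x j a i)) (P' := fun i => K i (x i)) d2
      (fun i hi => by rw [update_of_ne (by rintro rfl; exact hl.1 hi)])]
    congr 1
    funext y
    congr 1
    funext b
    congr 1
    funext i
    by_cases h : i = j
    · subst h; simp
    · simp [update_of_ne h]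

end pi

/-- `exp (-x)` as an extended nonnegative real -/
noncomputable def ee (x : ℝ) : ℝ≥0∞ := ENNReal.ofReal (Real.exp (-x))

lemma ee_add (x y : ℝ) : ee (x + y) = ee x * ee y := by
  unfold ee
  rw [← ENNReal.ofReal_mul (Real.exp_pos _).le, ← Real.exp_add]
  congr 2; ring

lemma ee_zero : ee 0 = 1 := by simp [ee]

lemma ee_anti {x y : ℝ} (h : x ≤ y) : ee y ≤ ee x :=
  ENNReal.ofReal_le_ofReal (Real.exp_le_exp.2 (neg_le_neg h))

lemma ee_le_one {x : ℝ} (h : 0 ≤ x) : ee x ≤ 1 := ee_zero ▸ ee_anti h

lemma ee_sum {β : Type*} (s : Finset β) (f : β → ℝ) : ee (∑ b ∈ s, f b) = ∏ b ∈ s, ee (f b) := by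
  classical
  induction s using Finset.induction_on with
  | empty => simp [ee_zero]
  | insert b s hb ih => rw [Finset.sum_insert hb, Finset.prod_insert hb, ee_add, ih]

/-- `true` with probability `1 - exp (-x)` (for `x ≥ 0`) -/
noncomputable def bern (x : ℝ) : PMF Bool :=
  PMF.ofFintype (fun b => if b then 1 - ee (max x 0) else ee (max x 0)) (by
    simp [tsub_add_cancel_of_le (ee_le_one (le_max_right x 0))])

lemma EL_bern {x : ℝ} (hx : 0 ≤ x) (f : Bool → ℝ≥0∞) :
    EL (bern x) f = (1 - ee x) * f true + ee x * f false := by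
  unfold EL bern
  rw [tsum_fintype]
  simp [max_eq_left hx]

end Pool.Agent.H109Z.FrogGW
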