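import Mathlib

set_option autoImplicit false

/-!
# The Poisson frog model on a Galton-Watson tree: definitions

Vertices are words of child indices, the most recent index first: the root is `[]`, the `i`-th
child of `v` is `i :: v`, the parent of `i :: v` is `v`.
-/

namespace Pool.Agent.H109Z.FrogGW

open MeasureTheory ProbabilityTheory
open scoped NNReal

/-- Potential vertices. -/
abbrev V := List ℕ

/-- The rooted tree with offspring numbers `Z`: the vertex `v` has the children `i :: v`,
`i < Z v`. -/
inductive InTree (Z : V → ℕ) : V → Prop
  | root : InTree Z []
  | child (v : V) (i : ℕ) : InTree Z v → i < Z v → InTree Z (i :: v)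

/-- Non-extinction: the tree is infinite. -/
def Survives (Z : V → ℕ) : Prop := {v | InTree Z v}.Infinite

/-- Independent offspring numbers with law `μ`: the unconditioned Galton-Watson law. -/
noncomputable def GW0 (μ : Measure ℕ) : Measure (V → ℕ) := Measure.infinitePi fun _ => μ

/-- The Galton-Watson law conditioned on non-extinction. -/
noncomputable def GW (μ : Measure ℕ) : Measure (V → ℕ) := cond (GW0 μ) {Z | Survives Z}

/-- The number of neighbours of `x` in the tree. -/
def deg (Z : V → ℕ) (x : V) : ℕ := if x = [] then Z x else Z x + 1

/-- One step of simple random walk from `x`, driven by `u` uniform in `[0,1)`: the index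
`j = ⌊u * deg⌋` is uniform in `{0, …, deg - 1}`; the walk moves to the child `j :: x` if
`j < Z x` and to the parent otherwise. -/
noncomputable def step (Z : V → ℕ) (x : V) (u : ℝ) : V :=
  if ⌊u * (deg Z x : ℝ)⌋₊ < Z x then ⌊u * (deg Z x : ℝ)⌋₊ :: x else x.tail

/-- Particles: `(v, i)` is the `i`-th particle placed at the vertex `v`. -/
abbrev Frog := V × ℕ

/-- The trajectory of the particle `f`: it starts at its vertex and its `n`-th step uses the
uniform variable `U (f, n)`. -/
noncomputable def walk (Z : V → ℕ) (U : Frog × ℕ → ℝ) (f : Frog) : ℕ → V
  | 0 => f.1
  | n + 1 => step Z (walk Z U f n) (U (f, n))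

/-- The particles that become active: the particle at the root, and the `N v` particles at a
non-root vertex `v` as soon as the trajectory of an active particle visits `v`. -/
inductive Active (Z N : V → ℕ) (U : Frog × ℕ → ℝ) : Frog → Prop
  | root : Active Z N U ([], 0)
  | wake (f : Frog) (n : ℕ) (v : V) (i : ℕ) : Active Z N U f → walk Z U f n = v → v ≠ [] →
      i < N v → Active Z N U (v, i)

/-- The uniform law on `[0,1)`. -/
noncomputable def unif : Measure ℝ := volume.restrict (Set.Ico 0 1)

/-- The randomness of the frog model with parameter `lam`: independent Poisson(`lam`) numbers of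
sleeping particles, and independent uniform variables driving all the walks. -/
noncomputable def FM (lam : ℝ≥0) : Measure ((V → ℕ) × (Frog × ℕ → ℝ)) :=
  (Measure.infinitePi fun _ : V => poissonMeasure lam).prod
    (Measure.infinitePi fun _ : Frog × ℕ => unif)

/-- The frog model with parameter `lam` on the tree given by `Z` is transient: almost surely only
finitely many active particles visit the root. -/
def Transient (lam : ℝ≥0) (Z : V → ℕ) : Prop :=
  ∀ᵐ p ∂(FM lam), {f | Active Z p.1 p.2 f ∧ ∃ n, walk Z p.2 f n = []}.Finite

end Pool.Agent.H109Z.FrogGW
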