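import Pool.Agent.H109Z.Frog.Bm

set_option autoImplicit false

/-! One step of the recursion for the deficit: pointwise inequalities. -/

namespace Pool.Agent.H109Z.FrogGW

open Function Finset
open scoped ENNReal NNReal

lemma add_pow_le_eta {η a b : ℝ} (hη : 0 < η) (ha : 0 ≤ a) (hb : 0 ≤ b) (q : ℕ) :
    (a + b) ^ q ≤ (1 + η) ^ q * a ^ q + (1 + 1 / η) ^ q * b ^ q := by
  rw [← mul_pow, ← mul_pow]
  rcases le_total b (η * a) with h | h
  · have : (a + b) ^ q ≤ ((1 + η) * a) ^ q := pow_le_pow_left₀ (by positivity) (by nlinarith) q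
    have : 0 ≤ ((1 + 1 / η) * b) ^ q := by positivity
    linarith
  · have h' : a ≤ 1 / η * b := by
      rw [one_div, ← div_eq_inv_mul, le_div_iff₀ hη]; linarith
    have : (a + b) ^ q ≤ ((1 + 1 / η) * b) ^ q := pow_le_pow_left₀ (by positivity) (by nlinarith) q
    have : 0 ≤ ((1 + η) * a) ^ q := by positivity
    linarith

lemma add_pow_le_two {a b : ℝ} (ha : 0 ≤ a) (hb : 0 ≤ b) (q : ℕ) :
    (a + b) ^ q ≤ 2 ^ q * (a ^ q + b ^ q) := by
  have := add_pow_le_eta one_pos ha hb q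
  norm_num at this
  linarith

lemma mul_pow_le_frac {a p : ℝ} (ha : 0 ≤ a) (h0 : 0 ≤ p) (h1 : p ≤ 1) {q : ℕ} (hq : 1 ≤ q) :
    (a * p) ^ q ≤ a ^ q * p := by
  rw [mul_pow]
  exact mul_le_mul_of_nonneg_left (pow_le_of_le_one h0 h1 (by omega)) (by positivity)

/-- admissible pairs at height `h` -/
def Bx (h : ℕ) (x : ℝ × ℝ) : Prop := (0 ≤ x.1 ∧ x.1 ≤ 1) ∧ 0 ≤ x.2 ∧ x.2 ≤ h * x.1

lemma dl_nonneg {h : ℕ} {x : ℝ × ℝ} (hx : Bx h x) : 0 ≤ dl h x :=
  div_nonneg (by linarith [hx.2.2]) hx.1.1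

lemma mul_dl {h : ℕ} {x : ℝ × ℝ} (hx : Bx h x) : x.1 * dl h x = h * x.1 - x.2 := by
  unfold dl
  rcases hx.1.1.eq_or_lt with h0 | h0
  · have := hx.2.2
    rw [← h0] at this ⊢
    linarith [hx.2.1]
  · field_simp

/-- the harmonic average of the deficits of the children -/
noncomputable def Sx (h k : ℕ) (x : ℕ → ℝ × ℝ) : ℝ :=
  ∑ i ∈ range k, (x i).1 / Cs (fun i => (x i).1) k * dl h (x i)

/-- the harmonic weight of the children that are not reached -/
noncomputable def pf (k : ℕ) (x : ℕ → ℝ × ℝ) (c : ℕ) (r : ℕ → ℕ → Bool) : ℝ :=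
  ∑ b ∈ range k \ Rch k r c, (x b).1 / Cs (fun i => (x i).1) k

variable {h k : ℕ} {x : ℕ → ℝ × ℝ}

lemma Cx_nonneg (hx : ∀ i < k, Bx h (x i)) : 0 ≤ Cs (fun i => (x i).1) k :=
  Cs_nonneg fun i hi => (hx i hi).1.1

lemma px_nonneg (hx : ∀ i < k, Bx h (x i)) {i : ℕ} (hi : i ∈ range k) :
    0 ≤ (x i).1 / Cs (fun i => (x i).1) k :=
  div_nonneg (hx i (mem_range.1 hi)).1.1 (Cx_nonneg hx)

lemma px_sum (hC : 0 < Cs (fun i => (x i).1) k) :
    ∑ i ∈ range k, (x i).1 / Cs (fun i => (x i).1) k = 1 := by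
  rw [← Finset.sum_div]
  exact div_self hC.ne'

lemma px_sum_le (hx : ∀ i < k, Bx h (x i)) :
    ∑ i ∈ range k, (x i).1 / Cs (fun i => (x i).1) k ≤ 1 := by
  rcases (Cx_nonneg hx).eq_or_lt with h0 | h0
  · simp [← h0]
  · exact (px_sum h0).le

lemma sib_nonneg' (hx : ∀ i < k, Bx h (x i)) (i : ℕ) : 0 ≤ sib x k i :=
  Finset.sum_nonneg fun j hj => (hx j (mem_range.1 (Finset.mem_of_mem_erase hj))).1.1

lemma px_le (hx : ∀ i < k, Bx h (x i)) {i : ℕ} (hi : i ∈ range k) :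
    (x i).1 / Cs (fun i => (x i).1) k ≤ 1 / (1 + sib x k i) := by
  have hs := sib_nonneg' hx i
  obtain ⟨h0, h1⟩ := (hx i (mem_range.1 hi)).1
  rw [Cs_eq_sib x (mem_range.1 hi)]
  rcases h0.eq_or_lt with h0 | h0
  · rw [← h0, zero_div]; positivity
  · rw [div_le_div_iff₀ (by positivity) (by positivity)]
    nlinarith

lemma Sx_nonneg (hx : ∀ i < k, Bx h (x i)) : 0 ≤ Sx h k x :=
  Finset.sum_nonneg fun i hi => mul_nonneg (px_nonneg hx hi) (dl_nonneg (hx i (mem_range.1 hi)))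

lemma pf_nonneg (hx : ∀ i < k, Bx h (x i)) (c : ℕ) (r : ℕ → ℕ → Bool) : 0 ≤ pf k x c r :=
  Finset.sum_nonneg fun _ hi => px_nonneg hx (Finset.mem_sdiff.1 hi).1

lemma pf_le_one (hx : ∀ i < k, Bx h (x i)) (c : ℕ) (r : ℕ → ℕ → Bool) : pf k x c r ≤ 1 :=
  (Finset.sum_le_sum_of_subset_of_nonneg Finset.sdiff_subset
    fun _ hi _ => px_nonneg hx hi).trans (px_sum_le hx)

/-- the pair produced by one step -/
noncomputable def nx (lam : ℝ) (h k : ℕ) (x : ℕ → ℝ × ℝ) (c : ℕ) (r : ℕ → ℕ → Bool) : ℝ × ℝ :=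
  (Cs (fun i => (x i).1) k / (1 + Cs (fun i => (x i).1) k),
    min (((h : ℝ) + 1) * (Cs (fun i => (x i).1) k / (1 + Cs (fun i => (x i).1) k)))
      ((lam + ∑ a ∈ Rch k r c, (x a).2) / (1 + Cs (fun i => (x i).1) k)))

lemma EL_nu_succ (μ : PMF ℕ) (lam : ℝ) (h : ℕ) (f : ℝ × ℝ → ℝ≥0∞) :
    EL (nu μ lam (h + 1)) f = EZ μ (nu μ lam h) fun k x => EL (lead (fun i => (x i).1) k) fun c =>
      EL (rows (fun i => (x i).1) k (update (fun i => (x i).2) c (lam + (x c).2))) fun r =>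
        f (nx lam h k x c r) := by
  simp only [nu, EL_bind, EL_map, EZ, stepM, nx]

lemma dl_nx_zero (lam : ℝ) (c : ℕ) (r : ℕ → ℕ → Bool) (hC : Cs (fun i => (x i).1) k = 0) :
    dl (h + 1) (nx lam h k x c r) = 0 := by
  simp [dl, nx, hC]

lemma dl_nx_le (hx : ∀ i < k, Bx h (x i)) (lam : ℝ) (c : ℕ) (r : ℕ → ℕ → Bool)
    (hC : 0 < Cs (fun i => (x i).1) k) : dl (h + 1) (nx lam h k x c r) ≤
      max 0 (1 - lam / Cs (fun i => (x i).1) k + Sx h k x + h * pf k x c r) := by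
  set C := Cs (fun i => (x i).1) k with hCd
  have hR := Rch_subset k c r
  have e1 : (∑ a ∈ Rch k r c, (x a).2) / C =
      h * ∑ a ∈ Rch k r c, (x a).1 / C - ∑ a ∈ Rch k r c, (x a).1 / C * dl h (x a) := by
    rw [Finset.sum_div, Finset.mul_sum, ← Finset.sum_sub_distrib]
    refine Finset.sum_congr rfl fun a ha => ?_
    rw [div_mul_eq_mul_div, mul_dl (hx a (mem_range.1 (hR ha)))]
    ring
  have e2 : pf k x c r + ∑ a ∈ Rch k r c, (x a).1 / C = 1 := by
    rw [pf, Finset.sum_sdiff hR]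
    exact px_sum hC
  have e3 : ∑ a ∈ Rch k r c, (x a).1 / C * dl h (x a) ≤ Sx h k x :=
    Finset.sum_le_sum_of_subset_of_nonneg hR fun i hi _ =>
      mul_nonneg (px_nonneg hx hi) (dl_nonneg (hx i (mem_range.1 hi)))
  unfold dl nx
  rw [← hCd]
  dsimp only
  push_cast
  rcases min_cases (((h : ℝ) + 1) * (C / (1 + C))) ((lam + ∑ a ∈ Rch k r c, (x a).2) / (1 + C))
    with h1 | h1
  · rw [h1.1, sub_self, zero_div]; exact le_max_left _ _
  · rw [h1.1]
    refine le_trans ?_ (le_max_right _ _)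
    have e4 : (((h : ℝ) + 1) * (C / (1 + C)) - (lam + ∑ a ∈ Rch k r c, (x a).2) / (1 + C)) /
        (C / (1 + C)) = h + 1 - lam / C - (∑ a ∈ Rch k r c, (x a).2) / C := by
      field_simp
      ring
    rw [e4, e1, show ∑ a ∈ Rch k r c, (x a).1 / C = 1 - pf k x c r by linarith]
    linarith

lemma dl_nx_pow (hx : ∀ i < k, Bx h (x i)) {lam : ℝ} (hl : 0 ≤ lam) (c : ℕ) (r : ℕ → ℕ → Bool)
    {η : ℝ} (hη : 0 < η) {q : ℕ} (hq : 1 ≤ q) :
    ENNReal.ofReal (dl (h + 1) (nx lam h k x c r)) ^ q ≤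
      ENNReal.ofReal ((1 + η) ^ q) * ENNReal.ofReal (Sx h k x) ^ q +
        ENNReal.ofReal ((1 + 1 / η) ^ q * 2 ^ q) *
          (1 + (h : ℝ≥0∞) ^ q * ENNReal.ofReal (pf k x c r)) := by
  have hS := Sx_nonneg hx
  have hp := pf_nonneg hx c r
  have h1 : dl (h + 1) (nx lam h k x c r) ≤ Sx h k x + (1 + h * pf k x c r) := by
    rcases (Cx_nonneg hx).eq_or_lt with h0 | h0
    · rw [dl_nx_zero lam c r h0.symm]; positivity
    · refine (dl_nx_le hx lam c r h0).trans (max_le (by positivity) ?_)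
      have : 0 ≤ lam / Cs (fun i => (x i).1) k := by positivity
      linarith
  refine (pow_le_pow_left' (ENNReal.ofReal_le_ofReal h1) q).trans ?_
  rw [← ENNReal.ofReal_pow (by positivity), ← ENNReal.ofReal_pow hS, ← ENNReal.ofReal_natCast,
    ← ENNReal.ofReal_pow (by positivity), ← ENNReal.ofReal_mul (by positivity),
    ← ENNReal.ofReal_mul (by positivity), ← ENNReal.ofReal_one,
    ← ENNReal.ofReal_add (by positivity) (by positivity), ← ENNReal.ofReal_mul (by positivity),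
    ← ENNReal.ofReal_add (by positivity) (by positivity)]
  refine ENNReal.ofReal_le_ofReal ((add_pow_le_eta hη hS (by positivity) q).trans ?_)
  have h2 := add_pow_le_two (a := 1) (b := h * pf k x c r) zero_le_one (by positivity) q
  have h3 := mul_pow_le_frac (a := (h : ℝ)) (by positivity) hp (pf_le_one hx c r) hq
  rw [one_pow] at h2
  have h4 : (1 + h * pf k x c r) ^ q ≤ 2 ^ q * (1 + h ^ q * pf k x c r) :=
    h2.trans (mul_le_mul_of_nonneg_left (by linarith) (by positivity))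
  rw [mul_assoc]
  exact add_le_add le_rfl (mul_le_mul_of_nonneg_left h4 (by positivity))

lemma dl_nx_pos (hx : ∀ i < k, Bx h (x i)) {lam L : ℝ} (hL : 0 < L) (K : ℕ)
    (hl : (K + 1) * (L + 1) ≤ lam) (c : ℕ) (r : ℕ → ℕ → Bool) {q : ℕ} (hq : 1 ≤ q) :
    (if 0 < dl (h + 1) (nx lam h k x c r) then (1 : ℝ≥0∞) else 0) ≤
      (∑ i ∈ range k, if K < k then ENNReal.ofReal (1 / (1 + sib x k i)) else 0) +
        ENNReal.ofReal ((2 / L) ^ q) * (ENNReal.ofReal (Sx h k x) ^ q +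
          (h : ℝ≥0∞) ^ q * ENNReal.ofReal (pf k x c r)) := by
  have hS := Sx_nonneg hx
  have hp := pf_nonneg hx c r
  by_cases hd : 0 < dl (h + 1) (nx lam h k x c r)
  swap
  · rw [if_neg hd]; exact zero_le
  rw [if_pos hd]
  rcases (Cx_nonneg hx).eq_or_lt with h0 | h0
  · rw [dl_nx_zero lam c r h0.symm] at hd; simp at hd
  by_cases hK : K < k
  · refine le_trans ?_ le_self_add
    simp only [if_pos hK]
    rw [← ENNReal.ofReal_sum_of_nonneg fun i _ => by have := sib_nonneg' hx i; positivity,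
      ← ENNReal.ofReal_one]
    exact ENNReal.ofReal_le_ofReal ((px_sum h0).ge.trans
      (Finset.sum_le_sum fun i hi => px_le hx hi))
  · refine le_trans ?_ le_add_self
    have h1 := hd.trans_le (dl_nx_le hx lam c r h0)
    rw [lt_max_iff] at h1
    replace h1 := h1.resolve_left (lt_irrefl _)
    have h2 : Cs (fun i => (x i).1) k ≤ K + 1 := by
      have := Cs_le (g := fun i => (x i).1) (k := k) fun i hi => (hx i hi).1.2
      have h3 : (k : ℝ) ≤ K := by exact_mod_cast not_lt.1 hK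
      linarith
    have h3 : L + 1 ≤ lam / Cs (fun i => (x i).1) k := by
      rw [le_div_iff₀ h0]
      nlinarith
    have h4 : L ^ q ≤ (Sx h k x + h * pf k x c r) ^ q := pow_le_pow_left₀ hL.le (by linarith) q
    have h5 := add_pow_le_two hS (b := h * pf k x c r) (by positivity) q
    have h6 := mul_pow_le_frac (a := (h : ℝ)) (by positivity) hp (pf_le_one hx c r) hq
    rw [← ENNReal.ofReal_pow hS, ← ENNReal.ofReal_natCast,
      ← ENNReal.ofReal_pow (by positivity), ← ENNReal.ofReal_mul (by positivity),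
      ← ENNReal.ofReal_add (by positivity) (by positivity), ← ENNReal.ofReal_mul (by positivity),
      ← ENNReal.ofReal_one]
    refine ENNReal.ofReal_le_ofReal ?_
    rw [div_pow, div_mul_eq_mul_div, le_div_iff₀ (by positivity), one_mul]
    exact (h4.trans h5).trans (mul_le_mul_of_nonneg_left (by linarith) (by positivity))

lemma Sx_jensen (hx : ∀ i < k, Bx h (x i)) {q : ℕ} (hq : 1 ≤ q) : Sx h k x ^ q ≤
    ∑ i ∈ range k, (x i).1 / Cs (fun i => (x i).1) k * dl h (x i) ^ q := by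
  rcases (Cx_nonneg hx).eq_or_lt with h0 | h0
  · simp [Sx, ← h0, zero_pow (by omega : q ≠ 0)]
  · exact Real.pow_arith_mean_le_arith_mean_pow (range k) _ _ (fun i hi => px_nonneg hx hi)
      (px_sum h0) (fun i hi => dl_nonneg (hx i (mem_range.1 hi))) q

lemma Sx_le_kappa (hx : ∀ i < k, Bx h (x i)) {q : ℕ} (hq : 1 ≤ q) :
    ENNReal.ofReal (Sx h k x) ^ q ≤
      ∑ i ∈ range k, ENNReal.ofReal (1 / (1 + sib x k i)) * ENNReal.ofReal (dl h (x i)) ^ q := by
  rw [← ENNReal.ofReal_pow (Sx_nonneg hx)]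
  refine (ENNReal.ofReal_le_ofReal (Sx_jensen hx hq)).trans ?_
  rw [ENNReal.ofReal_sum_of_nonneg fun i hi =>
    mul_nonneg (px_nonneg hx hi) (pow_nonneg (dl_nonneg (hx i (mem_range.1 hi))) q)]
  refine Finset.sum_le_sum fun i hi => ?_
  rw [ENNReal.ofReal_mul (px_nonneg hx hi), ENNReal.ofReal_pow (dl_nonneg (hx i (mem_range.1 hi)))]
  exact mul_le_mul' (ENNReal.ofReal_le_ofReal (px_le hx hi)) le_rfl

lemma Sx_le_theta (hx : ∀ i < k, Bx h (x i)) {q : ℕ} (hq : 1 ≤ q) (K : ℕ) :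
    ENNReal.ofReal (Sx h k x) ^ q ≤
      ∑ i ∈ range k, (ENNReal.ofReal (1 / (1 + sib x k i)) ^ q +
        (if K < k then ENNReal.ofReal (1 / (1 + sib x k i)) else 0) +
        ∑ j ∈ (range k).erase i, (if K < k then 0 else 1) * if 0 < dl h (x j) then 1 else 0) *
          ENNReal.ofReal (dl h (x i)) ^ q := by
  classical
  by_cases h2 : ∀ i ∈ range k, ∃ j ∈ (range k).erase i, 0 < dl h (x j)
  · refine (Sx_le_kappa hx hq).trans (Finset.sum_le_sum fun i hi => mul_le_mul' ?_ le_rfl)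
    by_cases hK : K < k
    · rw [if_pos hK]
      exact le_add_self.trans le_self_add
    · refine le_trans ?_ le_add_self
      obtain ⟨j, hj, hj'⟩ := h2 i hi
      refine le_trans ?_ (Finset.single_le_sum (fun _ _ => zero_le) hj)
      rw [if_neg hK, if_pos hj', mul_one]
      have := sib_nonneg' hx i
      exact ENNReal.ofReal_le_one.2 (by rw [div_le_one (by positivity)]; linarith)
  · push Not at h2
    obtain ⟨i, hi, h2⟩ := h2
    refine le_trans ?_ (Finset.single_le_sum (fun _ _ => zero_le) hi)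
    have e : Sx h k x = (x i).1 / Cs (fun i => (x i).1) k * dl h (x i) := by
      rw [Sx, ← Finset.add_sum_erase _ _ hi, Finset.sum_eq_zero, add_zero]
      intro j hj
      rw [le_antisymm (h2 j hj) (dl_nonneg (hx j (mem_range.1 (Finset.mem_of_mem_erase hj)))),
        mul_zero]
    rw [e, ENNReal.ofReal_mul (px_nonneg hx hi), mul_pow]
    refine mul_le_mul' ?_ le_rfl
    exact (pow_le_pow_left' (ENNReal.ofReal_le_ofReal (px_le hx hi)) q).trans
      (le_self_add.trans le_self_add)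

end Pool.Agent.H109Z.FrogGW
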