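import Pool.Agent.H109Z.Frog.Em1

set_option autoImplicit false

/-! The main induction: the deficit stays tight. -/

namespace Pool.Agent.H109Z.FrogGW

open Function Finset
open scoped ENNReal NNReal

lemma supp_nu {μ : PMF ℕ} {σ0 : ℝ≥0∞} {lam : ℝ} (hl : 0 ≤ lam) (he : Env μ σ0 (nu μ lam)) :
    ∀ h, ∀ x ∈ (nu μ lam h).support, Bx h x
  | 0, x, hx => by
    simp only [nu, PMF.support_pure, Set.mem_singleton_iff] at hx
    subst hx
    simp [Bx]
  | h + 1, x, hx => by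
    refine ⟨he.box _ x hx, ?_⟩
    simp only [nu, PMF.mem_support_bind_iff, PMF.mem_support_map_iff] at hx
    obtain ⟨k, -, y, hy, m, hm, rfl⟩ := hx
    have hb : ∀ i < k, Bx h (y i) := fun i hi => supp_nu hl he h _ (supp_EZ hy hi)
    have := supp_stepM hl h (fun i hi => (hb i hi).1.1) (fun i hi => (hb i hi).2.1) hm
    push_cast
    exact this

/-- `q`-th moment of the deficit -/
noncomputable def FF (ν : PMF (ℝ × ℝ)) (h q : ℕ) : ℝ≥0∞ :=
  EL ν fun x => ENNReal.ofReal (dl h x) ^ q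

/-- probability of a positive deficit -/
noncomputable def PD (ν : PMF (ℝ × ℝ)) (h : ℕ) : ℝ≥0∞ := EL ν fun x => if 0 < dl h x then 1 else 0

lemma EL_pf {h k : ℕ} {x : ℕ → ℝ × ℝ} (hx : ∀ i < k, Bx h (x i)) (lam : ℝ) (a b : ℝ≥0∞) :
    EL (lead (fun i => (x i).1) k) (fun c =>
      EL (rows (fun i => (x i).1) k (update (fun i => (x i).2) c (lam + (x c).2))) fun r =>
        a + b * ENNReal.ofReal (pf k x c r)) = a + b * failP lam k x := by
  simp only [EL_add, EL_const, EL_const_mul, failP]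
  congr 3
  funext c
  congr 1
  funext r
  exact ENNReal.ofReal_sum_of_nonneg fun i hi => px_nonneg hx (Finset.mem_sdiff.1 hi).1

variable {μ : PMF ℕ} {lam : ℝ} {h q : ℕ}

lemma FF_succ (hb : ∀ x ∈ (nu μ lam h).support, Bx h x) (hl : 0 ≤ lam) {η : ℝ} (hη : 0 < η)
    (hq : 1 ≤ q) : FF (nu μ lam (h + 1)) (h + 1) q ≤
      ENNReal.ofReal ((1 + η) ^ q) *
        EZ μ (nu μ lam h) (fun k x => ENNReal.ofReal (Sx h k x) ^ q) +
      ENNReal.ofReal ((1 + 1 / η) ^ q * 2 ^ q) *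
        (1 + (h : ℝ≥0∞) ^ q * EZ μ (nu μ lam h) (failP lam)) := by
  rw [FF, EL_nu_succ]
  refine (EZ_mono _ _ (G := fun k x => ENNReal.ofReal ((1 + η) ^ q) *
    ENNReal.ofReal (Sx h k x) ^ q + ENNReal.ofReal ((1 + 1 / η) ^ q * 2 ^ q) *
      (1 + (h : ℝ≥0∞) ^ q * failP lam k x)) fun k x hx => ?_).trans (le_of_eq ?_)
  · have hx' : ∀ i < k, Bx h (x i) := fun i hi => hb _ (hx i hi)
    refine (EL_mono _ fun c => EL_mono _ fun r => dl_nx_pow hx' hl c r hη hq).trans (le_of_eq ?_)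
    simp only [mul_add, ← add_assoc, ← mul_assoc]
    exact EL_pf hx' lam _ _
  · simp only [EZ_add, EZ_const_mul, EZ_fst, EL_const]

lemma PD_succ (hb : ∀ x ∈ (nu μ lam h).support, Bx h x) {L : ℝ} (hL : 0 < L) (K : ℕ)
    (hl : (K + 1) * (L + 1) ≤ lam) (hq : 1 ≤ q) : PD (nu μ lam (h + 1)) (h + 1) ≤
      EZ μ (nu μ lam h) (fun k x => ∑ i ∈ range k,
        if K < k then ENNReal.ofReal (1 / (1 + sib x k i)) else 0) +
      ENNReal.ofReal ((2 / L) ^ q) *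
        (EZ μ (nu μ lam h) (fun k x => ENNReal.ofReal (Sx h k x) ^ q) +
          (h : ℝ≥0∞) ^ q * EZ μ (nu μ lam h) (failP lam)) := by
  rw [PD, EL_nu_succ]
  refine (EZ_mono _ _ (G := fun k x => (∑ i ∈ range k,
    if K < k then ENNReal.ofReal (1 / (1 + sib x k i)) else 0) + ENNReal.ofReal ((2 / L) ^ q) *
      (ENNReal.ofReal (Sx h k x) ^ q + (h : ℝ≥0∞) ^ q * failP lam k x))
      fun k x hx => ?_).trans (le_of_eq ?_)
  · have hx' : ∀ i < k, Bx h (x i) := fun i hi => hb _ (hx i hi)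
    refine (EL_mono _ fun c => EL_mono _ fun r => dl_nx_pos hx' hL K hl c r hq).trans
      (le_of_eq ?_)
    simp only [mul_add, ← add_assoc, ← mul_assoc]
    exact EL_pf hx' lam _ _
  · simp only [EZ_add, EZ_const_mul]

variable {ν : PMF (ℝ × ℝ)}

lemma ES_kappa (hb : ∀ x ∈ ν.support, Bx h x) (hq : 1 ≤ q) :
    EZ μ ν (fun k x => ENNReal.ofReal (Sx h k x) ^ q) ≤
      EZ μ ν (fun k x => ∑ i ∈ range k, ENNReal.ofReal (1 / (1 + sib x k i))) * FF ν h q := by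
  rw [FF, ← EZ_child μ ν (fun k i x => ENNReal.ofReal (1 / (1 + sib x k i)))
    (fun k i x a => by rw [sib_update])]
  exact EZ_mono _ _ fun k x hx => Sx_le_kappa (fun i hi => hb _ (hx i hi)) hq

lemma ES_theta (hb : ∀ x ∈ ν.support, Bx h x) (hq : 1 ≤ q) (K : ℕ) :
    EZ μ ν (fun k x => ENNReal.ofReal (Sx h k x) ^ q) ≤
      (EZ μ ν (fun k x => ∑ i ∈ range k, ENNReal.ofReal (1 / (1 + sib x k i)) ^ q) +
        EZ μ ν (fun k x => ∑ i ∈ range k,
          if K < k then ENNReal.ofReal (1 / (1 + sib x k i)) else 0) +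
        (K : ℝ≥0∞) * K * PD ν h) * FF ν h q := by
  refine (EZ_mono _ _ fun k x hx => Sx_le_theta (fun i hi => hb _ (hx i hi)) hq K).trans ?_
  rw [EZ_child μ ν (fun k i x => ENNReal.ofReal (1 / (1 + sib x k i)) ^ q +
        (if K < k then ENNReal.ofReal (1 / (1 + sib x k i)) else 0) +
        ∑ j ∈ (range k).erase i, (if K < k then 0 else 1) * if 0 < dl h (x j) then 1 else 0)
    (fun k i x a => by
      rw [sib_update]
      congr 1
      exact Finset.sum_congr rfl fun j hj => by rw [update_of_ne (Finset.ne_of_mem_erase hj)])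
    (fun x => ENNReal.ofReal (dl h x) ^ q)]
  refine mul_le_mul' ?_ le_rfl
  simp only [Finset.sum_add_distrib, EZ_add]
  refine add_le_add le_rfl ?_
  refine (EZ_mono _ _ (G := fun k x => ∑ j ∈ range k, (if K < k then 0 else (K : ℝ≥0∞)) *
    if 0 < dl h (x j) then 1 else 0) fun k x _ => ?_).trans ?_
  · by_cases hK : K < k
    · simp [hK]
    · simp only [if_neg hK, one_mul]
      rw [← Finset.mul_sum]
      refine (Finset.sum_le_sum fun i _ => Finset.sum_le_sum_of_subset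
        (Finset.erase_subset _ _)).trans ?_
      rw [Finset.sum_const, Finset.card_range, nsmul_eq_mul]
      exact mul_le_mul' (by exact_mod_cast not_lt.1 hK) le_rfl
  · rw [EZ_child μ ν (fun k _ _ => if K < k then 0 else (K : ℝ≥0∞)) (fun _ _ _ _ => rfl)
      fun x => if 0 < dl h x then 1 else 0]
    refine mul_le_mul' ?_ le_rfl
    rw [EZ_fst]
    refine EL_le_const _ fun k _ => ?_
    by_cases hK : K < k
    · simp [hK]
    · rw [Finset.sum_const, Finset.card_range, nsmul_eq_mul, if_neg hK]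
      exact mul_le_mul' (by exact_mod_cast not_lt.1 hK) le_rfl

lemma exists_small {a b : ℝ≥0∞} (ha : a ≠ ⊤) (hb : b ≠ 0) :
    ∃ ε : ℝ, 0 < ε ∧ a * ENNReal.ofReal ε ≤ b := by
  obtain ⟨n, hn, h⟩ := ENNReal.exists_nnreal_pos_mul_lt ha hb
  exact ⟨n, hn, by rw [ENNReal.ofReal_coe_nnreal, mul_comm]; exact h.le⟩

lemma exists_eta {θ : ℝ≥0∞} (hθ : θ < 1) (q : ℕ) :
    ∃ η : ℝ, 0 < η ∧ ENNReal.ofReal ((1 + η) ^ q) * θ < 1 := by
  lift θ to ℝ≥0 using hθ.ne_top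
  have h1 : (θ : ℝ) < 1 := by exact_mod_cast hθ
  have hc : ContinuousAt (fun η : ℝ => (1 + η) ^ q * θ) 0 := by fun_prop
  have := hc.eventually (gt_mem_nhds (a := (1 : ℝ)) (by simpa using h1))
  obtain ⟨η, h2, h3⟩ := ((this.filter_mono nhdsWithin_le_nhds).and
    (self_mem_nhdsWithin (s := Set.Ioi (0 : ℝ)))).exists
  refine ⟨η, h3, ?_⟩
  have h4 : (0 : ℝ) < η := h3
  rw [← ENNReal.ofReal_coe_nnreal, ← ENNReal.ofReal_mul (by positivity)]
  exact ENNReal.ofReal_lt_one.2 h2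

lemma exists_fix {ρ B : ℝ≥0∞} (hρ : ρ < 1) (hB : B ≠ ⊤) : ∃ F : ℝ≥0∞, F ≠ ⊤ ∧ ρ * F + B ≤ F := by
  have h0 : 1 - ρ ≠ 0 := (tsub_pos_of_lt hρ).ne'
  have h1 : 1 - ρ ≠ ⊤ := ENNReal.sub_ne_top ENNReal.one_ne_top
  refine ⟨B * (1 - ρ)⁻¹, ENNReal.mul_ne_top hB (ENNReal.inv_ne_top.2 h0), le_of_eq ?_⟩
  calc ρ * (B * (1 - ρ)⁻¹) + B = ρ * (B * (1 - ρ)⁻¹) + (1 - ρ) * (B * (1 - ρ)⁻¹) := by
        rw [mul_left_comm (1 - ρ), ENNReal.mul_inv_cancel h0 h1, mul_one]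
    _ = _ := by rw [← add_mul, add_tsub_cancel_of_le hρ.le, one_mul]

theorem tight (hE : EnvStmt) (hJ : EJStmt) (μ : PMF ℕ) (σ0 : ℝ≥0∞) (hσ : σ0 ≠ 0)
    (h2 : ∃ k, 2 ≤ k ∧ μ k ≠ 0) (henv : ∀ lam, Env μ σ0 (nu μ lam)) :
    ∃ (q : ℕ) (F : ℝ≥0∞) (l1 : ℝ), 1 ≤ q ∧ F ≠ ⊤ ∧ ∀ lam, l1 ≤ lam → 0 ≤ lam →
      ∀ h, FF (nu μ lam h) h q ≤ F := by
  obtain ⟨-, -, hc, ⟨κ, hκ, hκ'⟩, q, θ, hq, hθ, hθ'⟩ := hE μ σ0 hσ h2
  obtain ⟨π1, CJ, hπ1, hCJ, hJ⟩ := hJ μ σ0 hσ h2 q hq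
  obtain ⟨η, hη, hρ0⟩ := exists_eta hθ q
  set a := ENNReal.ofReal ((1 + η) ^ q) with ha
  set c := ENNReal.ofReal ((1 + 1 / η) ^ q * 2 ^ q) with hcd
  have ha' : a ≠ ⊤ := ENNReal.ofReal_ne_top
  have hc' : c ≠ ⊤ := ENNReal.ofReal_ne_top
  obtain ⟨ρ, hρ1, hρ2⟩ := exists_between hρ0
  obtain ⟨δ0, hδ0, hδ⟩ := exists_small (a := 3) (b := ρ - a * θ) (by simp)
    (tsub_pos_of_lt hρ1).ne'
  set δ := ENNReal.ofReal δ0 with hδd
  have hδ1 : δ ≠ 0 := by simpa [hδd] using hδ0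
  have hδ2 : a * θ + 3 * δ ≤ ρ := (add_le_add le_rfl hδ).trans (add_tsub_cancel_of_le hρ1.le).le
  obtain ⟨e1, he1, he1'⟩ := exists_small ha' hδ1
  obtain ⟨K1, hK1⟩ := hc (ENNReal.ofReal e1) (by simpa using he1)
  obtain ⟨p2, hp2, hp2'⟩ := exists_small (a := a * ((K1 : ℝ≥0∞) * K1))
    (ENNReal.mul_ne_top ha' (ENNReal.mul_ne_top (by simp) (by simp))) hδ1
  obtain ⟨eJ, heJ, heJ'⟩ := exists_small hc' hδ1
  obtain ⟨l0, hl0⟩ := hJ (ENNReal.ofReal eJ) (by simpa using heJ)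
  obtain ⟨F, hF, hF'⟩ := exists_fix hρ2 (B := c * (1 + CJ))
    (ENNReal.mul_ne_top hc' (by simpa using hCJ))
  set π := min π1 (ENNReal.ofReal p2) with hπ
  have hπ0 : π / 2 ≠ 0 := by
    simp only [ne_eq, ENNReal.div_eq_zero_iff, ENNReal.ofNat_ne_top, or_false, hπ, min_eq_zero,
      not_or]
    exact ⟨hπ1, by simpa using hp2⟩
  obtain ⟨K2, hK2⟩ := hc (π / 2) hπ0
  obtain ⟨τ, hτ, hτ'⟩ := exists_small (a := κ * F + (ENNReal.ofReal eJ * F + CJ))
    (by simp [ENNReal.mul_ne_top, hκ, hF, hCJ]) hπ0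
  set L : ℝ := 2 + 2 / τ with hL
  have hL0 : 0 < L := by positivity
  have hLτ : (2 / L) ^ q ≤ τ := by
    have h3 : 0 < 2 / τ := by positivity
    refine (pow_le_of_le_one (by positivity) (by rw [div_le_one hL0]; linarith) (by omega)).trans ?_
    rw [div_le_iff₀ hL0, hL, mul_add, mul_div_cancel₀ _ hτ.ne']
    linarith
  refine ⟨q, F, max l0 ((K2 + 1) * (L + 1)), hq, hF, fun lam hl hl' => ?_⟩
  have hb := supp_nu hl' (henv lam)
  suffices ∀ h, FF (nu μ lam h) h q ≤ F ∧ PD (nu μ lam h) h ≤ π from fun h => (this h).1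
  intro h
  induction h with
  | zero => simp [FF, PD, nu, EL_pure, dl, zero_pow (by omega : q ≠ 0)]
  | succ h ih =>
    have hJ' : (h : ℝ≥0∞) ^ q * EZ μ (nu μ lam h) (failP lam) ≤ ENNReal.ofReal eJ * F + CJ :=
      (hl0 lam (le_of_max_le_left hl) hl' _ (henv lam) h (fun x hx => (hb h x hx).2)
        (ih.2.trans (min_le_left _ _))).trans (add_le_add (mul_le_mul' le_rfl ih.1) le_rfl)
    constructor
    · refine (FF_succ (hb h) hl' hη hq).trans (le_trans ?_ hF')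
      have h3 := (ES_theta (μ := μ) (hb h) hq K1).trans (mul_le_mul' (add_le_add (add_le_add
        (hθ' _ (henv lam) h) (hK1 _ (henv lam) h))
        (mul_le_mul' le_rfl (ih.2.trans (min_le_right _ _)))) ih.1)
      refine (add_le_add (mul_le_mul' le_rfl h3)
        (mul_le_mul' le_rfl (add_le_add le_rfl hJ'))).trans ?_
      calc _ = (a * θ + a * ENNReal.ofReal e1 + a * ((K1 : ℝ≥0∞) * K1) * ENNReal.ofReal p2 +
            c * ENNReal.ofReal eJ) * F + c * (1 + CJ) := by ring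
        _ ≤ (a * θ + δ + δ + δ) * F + c * (1 + CJ) := by gcongr
        _ = (a * θ + 3 * δ) * F + c * (1 + CJ) := by ring
        _ ≤ _ := by gcongr
    · refine (PD_succ (hb h) hL0 K2 (le_of_max_le_right hl) hq).trans ?_
      have h3 := (ES_kappa (μ := μ) (hb h) hq).trans (mul_le_mul' (hκ' _ (henv lam) h) ih.1)
      rw [← ENNReal.add_halves π]
      refine add_le_add (hK2 _ (henv lam) h) (le_trans ?_ hτ')
      rw [mul_comm]
      exact mul_le_mul' (add_le_add h3 hJ') (ENNReal.ofReal_le_ofReal hLτ)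

theorem main_bound (hE : EnvStmt) (hJ : EJStmt) (μ : PMF ℕ) (σ0 : ℝ≥0∞) (hσ : σ0 ≠ 0)
    (h2 : ∃ k, 2 ≤ k ∧ μ k ≠ 0) (henv : ∀ lam, Env μ σ0 (nu μ lam)) :
    ∃ l1 : ℝ, ∀ lam, l1 ≤ lam → 0 ≤ lam → ∀ ε : ℝ≥0∞, ε ≠ 0 → ∃ h,
      EZ μ (nu μ lam h) (fun k x => ∑ i ∈ range k,
        ENNReal.ofReal ((x i).1 / Cs (fun i => (x i).1) k) * ee (1 / 2 * (x i).2)) ≤ ε := by
  obtain ⟨q, F, l1, hq, hF, hF'⟩ := tight hE hJ μ σ0 hσ h2 henv
  obtain ⟨hG, -, -, ⟨κ, hκ, hκ'⟩, -⟩ := hE μ σ0 hσ h2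
  obtain ⟨G, hG, hG'⟩ := hG 1
  refine ⟨l1, fun lam hl hl' ε hε => ?_⟩
  have hε2 : ε / 2 ≠ 0 := by simpa using hε
  obtain ⟨η, hη, hη'⟩ := exists_small (ENNReal.mul_ne_top hκ hG) hε2
  obtain ⟨τ, hτ, hτ'⟩ := exists_small (a := κ * (F + 1))
    (ENNReal.mul_ne_top hκ (by simpa using hF)) hε2
  obtain ⟨h, hh⟩ := exists_nat_ge (2 + 2 / τ + 4 / (η * τ))
  have t1 : 0 < 2 / τ := by positivity
  have t2 : 0 < 4 / (η * τ) := by positivity
  have hh0 : (0 : ℝ) < h := by linarith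
  have hb := supp_nu hl' (henv lam) h
  refine ⟨h, ?_⟩
  refine (EZ_mono _ _ (G := fun k x => ∑ i ∈ range k, ENNReal.ofReal (1 / (1 + sib x k i)) *
    (ENNReal.ofReal η * (if 0 < (x i).1 then ENNReal.ofReal (1 / (x i).1) ^ 1 else 0) +
      ENNReal.ofReal τ * (ENNReal.ofReal (dl h (x i)) ^ q + 1))) fun k x hx => ?_).trans ?_
  · refine Finset.sum_le_sum fun i hi => ?_
    have hx' : ∀ i < k, Bx h (x i) := fun i hi => hb _ (hx i hi)
    have hxi := hx' i (mem_range.1 hi)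
    rcases hxi.1.1.eq_or_lt with h0 | h0
    · simp [← h0]
    refine mul_le_mul' (ENNReal.ofReal_le_ofReal (px_le hx' hi)) ?_
    rw [if_pos h0, pow_one]
    have he1 : ee (1 / 2 * (x i).2) ≤ 1 := ee_le_one (by linarith [hxi.2.1])
    by_cases c1 : (x i).1 ≤ η
    · refine he1.trans (le_trans ?_ le_self_add)
      rw [← ENNReal.ofReal_mul hη.le, ← ENNReal.ofReal_one]
      exact ENNReal.ofReal_le_ofReal (by rw [mul_one_div, le_div_iff₀ h0]; linarith)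
    refine le_trans ?_ le_add_self
    rw [mul_add, mul_one]
    by_cases c2 : (h : ℝ) / 2 ≤ dl h (x i)
    · refine he1.trans (le_trans ?_ le_self_add)
      rw [← ENNReal.ofReal_pow (dl_nonneg hxi), ← ENNReal.ofReal_mul hτ.le, ← ENNReal.ofReal_one]
      refine ENNReal.ofReal_le_ofReal ?_
      have h3 : dl h (x i) ≤ dl h (x i) ^ q := le_self_pow₀ (by linarith) (by omega)
      have h4 : 2 / τ ≤ 2 * dl h (x i) ^ q := by linarith
      rw [div_le_iff₀ hτ] at h4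
      linarith
    · refine le_trans ?_ le_add_self
      refine ENNReal.ofReal_le_ofReal ?_
      have h3 := mul_dl hxi
      have h4 : h * η / 4 ≤ 1 / 2 * (x i).2 := by
        push Not at c1 c2
        nlinarith
      have h5 : 4 / (η * τ) ≤ h := by linarith
      rw [div_le_iff₀ (by positivity)] at h5
      have h6 := Real.add_one_le_exp (1 / 2 * (x i).2)
      rw [Real.exp_neg, inv_le_comm₀ (Real.exp_pos _) hτ, inv_le_iff_one_le_mul₀ hτ]
      nlinarith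
  · rw [EZ_child μ _ (fun k i x => ENNReal.ofReal (1 / (1 + sib x k i)))
      (fun k i x a => by rw [sib_update]) fun y =>
      (ENNReal.ofReal η * (if 0 < y.1 then ENNReal.ofReal (1 / y.1) ^ 1 else 0) +
        ENNReal.ofReal τ * (ENNReal.ofReal (dl h y) ^ q + 1))]
    simp only [EL_add, EL_const_mul, EL_const]
    refine (mul_le_mul' (hκ' _ (henv lam) h) (add_le_add (mul_le_mul' le_rfl (hG' _ (henv lam) h))
      (mul_le_mul' le_rfl (add_le_add (hF' lam hl hl' h) le_rfl)))).trans ?_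
    rw [← ENNReal.add_halves ε]
    calc _ = κ * G * ENNReal.ofReal η + κ * (F + 1) * ENNReal.ofReal τ := by ring
      _ ≤ _ := add_le_add hη' hτ'

end Pool.Agent.H109Z.FrogGW
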