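import Pool.Agent.H109Z.Frog.Defs

set_option autoImplicit false

/-! The frog model under the joint law of the tree and the frogs. -/

namespace Pool.Agent.H109Z.FrogGW

open MeasureTheory
open scoped NNReal

/-- The visits of the root: pairs of an awake frog and a step of its walk at which it stands at
the root.  A sample point consists of the tree, the numbers of sleeping frogs and the variables
driving the walks. -/
def rootVisits (ω : (V → ℕ) × ((V → ℕ) × (Frog × ℕ → ℝ))) : Set (Frog × ℕ) :=
  {p | Active ω.1 ω.2.1 ω.2.2 p.1 ∧ walk ω.1 ω.2.2 p.1 p.2 = []}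

/-- The joint law of the Galton-Watson tree conditioned to be infinite and of the frogs with
density `lam`. -/
noncomputable def Joint (μ : Measure ℕ) (lam : ℝ≥0) :
    Measure ((V → ℕ) × ((V → ℕ) × (Frog × ℕ → ℝ))) := (GW μ).prod (FM lam)

/-- Transience: almost surely the root is visited only finitely often. -/
def JTransient (μ : Measure ℕ) (lam : ℝ≥0) : Prop := ∀ᵐ ω ∂(Joint μ lam), (rootVisits ω).Finite

/-- Recurrence: almost surely the root is visited infinitely often. -/
def JRecurrent (μ : Measure ℕ) (lam : ℝ≥0) : Prop := ∀ᵐ ω ∂(Joint μ lam), (rootVisits ω).Infinite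

end Pool.Agent.H109Z.FrogGW
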