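import Pool.Agent.H109Z.Frog.Root
import Pool.Agent.H109Z.Frog.Em2
import Pool.Agent.H109Z.Frog.JDefs
import Pool.Agent.H262Z.Frog.D23
import Pool.Agent.H658Z.Frog.D1
import Pool.Agent.H399Z.Frog.TaskA
import Pool.Agent.H807Z.Frog.Env
import Pool.Agent.H456Z.Frog.Ann
import Pool.Agent.H486Z.Frog.EJ

set_option autoImplicit false

/-! Recurrence at large densities, and the phase transition. -/

namespace Pool.Agent.H109Z.FrogGW

open MeasureTheory ProbabilityTheory Function Finset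
open scoped ENNReal NNReal

variable (μ : Measure ℕ) [IsProbabilityMeasure μ]

/-- the quenched bound at depth `h + 1` -/
noncomputable def bq (lam : ℝ) (h : ℕ) (Z : V → ℕ) : ℝ≥0∞ :=
  EL (piL (fun i => PM lam h (sh [i] Z)) (fun _ => 0) (List.range (Z []))) fun m =>
    ∑ i ∈ range (Z []), ENNReal.ofReal (gh h (sh [i] Z) / Cs (fun i => gh h (sh [i] Z)) (Z [])) *
      ee (1 / 2 * m i)

lemma bq_eq (lam : ℝ) (h : ℕ) (Z : V → ℕ) : bq lam h Z =
    ∑ i ∈ range (Z []), ENNReal.ofReal (gh h (sh [i] Z) / Cs (fun i => gh h (sh [i] Z)) (Z [])) *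
      Lap (PM lam h (sh [i] Z)) (1 / 2) := by
  rw [bq, EL_sum]
  refine Finset.sum_congr rfl fun i hi => ?_
  rw [EL_const_mul, EL_coord (fun i => PM lam h (sh [i] Z)) _
    (List.mem_range.2 (mem_range.1 hi)) fun m => ee (1 / 2 * m)]
  rfl

lemma bq_ann (lam : ℝ) (h : ℕ) : Measurable (bq lam h) ∧ ∫⁻ Z, bq lam h Z ∂(GW0 μ) =
    EZ μ.toPMF (nu μ.toPMF lam h) fun k x => ∑ i ∈ range k,
      ENNReal.ofReal ((x i).1 / Cs (fun i => (x i).1) k) * ee (1 / 2 * (x i).2) := by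
  refine (Ann_thm μ lam h).2 (fun k x => ∑ i ∈ range k,
      ENNReal.ofReal ((x i).1 / Cs (fun i => (x i).1) k) * ee (1 / 2 * (x i).2)) ?_
  intro k x x' hx
  have : Cs (fun i => (x i).1) k = Cs (fun i => (x' i).1) k :=
    Finset.sum_congr rfl fun i hi => congrArg Prod.fst (hx i (mem_range.1 hi))
  rw [this]
  exact Finset.sum_congr rfl fun i hi => by rw [hx i (mem_range.1 hi)]

theorem visitors_infinite (hm : 1 < ∫⁻ n, (n : ℝ≥0∞) ∂μ) :
    ∃ l1 : ℝ≥0, ∀ lam : ℝ≥0, l1 ≤ lam → ∀ᵐ Z ∂(GW0 μ), Survives Z → ∀ᵐ p ∂(FM lam),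
      {f | Active Z p.1 p.2 f ∧ ∃ k, walk Z p.2 f k = []}.Infinite := by
  have h2 : ∃ k, 2 ≤ k ∧ μ.toPMF k ≠ 0 := by
    by_contra hc
    push Not at hc
    apply two_ne_zero_of_mean μ hm
    have : {n : ℕ | 2 ≤ n} = ⋃ k ∈ {n : ℕ | 2 ≤ n}, {k} := (Set.biUnion_of_singleton _).symm
    rw [this, measure_biUnion_null_iff (Set.to_countable _)]
    intro k hk
    simpa [Measure.toPMF_apply] using hc k hk
  obtain ⟨l1, hl1⟩ := main_bound Env_thm (EJ_thm Env_thm D2_thm D3_thm) μ.toPMF (sv μ) (sv_ne_zero μ hm) h2 (env_nu μ)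
  refine ⟨l1.toNNReal, fun lam hl => ?_⟩
  have hl' : l1 ≤ lam := (Real.le_coe_toNNReal l1).trans (by exact_mod_cast hl)
  have hmeas : Measurable fun Z => ⨅ h, bq lam h Z := Measurable.iInf fun h => (bq_ann μ lam h).1
  have hz : ∫⁻ Z, ⨅ h, bq lam h Z ∂(GW0 μ) = 0 := by
    by_contra hne
    obtain ⟨ε, h0, hε⟩ := exists_between (pos_iff_ne_zero.2 hne)
    obtain ⟨h, hh⟩ := hl1 lam hl' lam.2 ε h0.ne'
    rw [← (bq_ann μ lam h).2] at hh
    exact absurd ((lintegral_mono fun Z => iInf_le _ h).trans hh) (not_le.2 hε)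
  rw [lintegral_eq_zero_iff hmeas] at hz
  filter_upwards [hz] with Z hZ hs
  have hfew : ∀ j, FM lam (Few Z j) = 0 := by
    intro j
    have : ENNReal.ofReal (1 / 2) ^ j * FM lam (Few Z j) ≤ ⨅ h, bq lam h Z := le_iInf fun h => by
      rw [bq_eq]
      exact root_bound A_thm A0_thm D1_thm Z h lam (gh_pos_of_survives _ Z hs) j
    rw [show (⨅ h, bq lam h Z) = 0 from hZ, nonpos_iff_eq_zero, mul_eq_zero] at this
    exact this.resolve_left (by simp)
  have := ae_all_iff.2 fun j => measure_eq_zero_iff_ae_notMem.1 (hfew j)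
  filter_upwards [this] with p hp hfin
  exact hp hfin.toFinset.card ⟨hfin.toFinset, le_rfl, fun f h1 h2 => by simpa using ⟨h1, h2⟩⟩

lemma ms_active (f : Frog) : MeasurableSet {ω : Om | Active ω.1 ω.2.1 ω.2.2 f} := by
  let r : Om → Frog → Frog → Prop := fun ω f g =>
    ∃ n, walk ω.1 ω.2.2 f n = g.1 ∧ g.1 ≠ [] ∧ g.2 < ω.2.1 g.1
  have hr : ∀ f g, MeasurableSet {ω | r ω f g} := by
    intro f g
    have : {ω | r ω f g} = ⋃ n, {ω : Om | walk ω.1 ω.2.2 f n = g.1} ∩
        ({_ω | g.1 ≠ []} ∩ {ω : Om | g.2 < ω.2.1 g.1}) := by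
      ext ω; simp [r]
    rw [this]
    exact MeasurableSet.iUnion fun n => (disc_walk f n g.1).inter ((MeasurableSet.const _).inter
      ((measurable_fst.comp measurable_snd) (ms_lt g.2 g.1)))
  have : {ω : Om | Active ω.1 ω.2.1 ω.2.2 f} =
      {ω | Relation.ReflTransGen (r ω) ([], 0) f} := by
    ext ω
    simp only [Set.mem_ofPred_eq]
    constructor
    · intro h
      induction h with
      | root => exact Relation.ReflTransGen.refl
      | wake g n v i _ h2 h3 h4 ih => exact ih.tail ⟨n, h2, h3, h4⟩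
    · intro h
      induction h with
      | refl => exact Active.root
      | tail _ h2 ih =>
        obtain ⟨n, h3, h4, h5⟩ := h2
        exact Active.wake _ n _ _ ih h3 h4 h5
  rw [this]
  exact ms_rtg hr _ _

lemma ms_visits : MeasurableSet {ω : Om | (rootVisits ω).Infinite} := by
  have : {ω : Om | (rootVisits ω).Infinite} = ⋂ s : Finset (Frog × ℕ), ⋃ p : Frog × ℕ,
      ({ω : Om | Active ω.1 ω.2.1 ω.2.2 p.1} ∩ {ω : Om | walk ω.1 ω.2.2 p.1 p.2 = []}) ∩
        {_ω | p ∉ s} := by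
    ext ω
    simp only [Set.mem_ofPred_eq, Set.mem_iInter, Set.mem_iUnion, Set.mem_inter_iff]
    constructor
    · intro h s
      obtain ⟨v, hv, hs⟩ := h.exists_notMem_finset s
      exact ⟨v, hv, hs⟩
    · intro h hf
      obtain ⟨v, hv, hs⟩ := h hf.toFinset
      exact hs (hf.mem_toFinset.2 hv)
  rw [this]
  exact MeasurableSet.iInter fun s => MeasurableSet.iUnion fun p =>
    ((ms_active p.1).inter (disc_walk p.1 p.2 [])).inter (MeasurableSet.const _)

theorem phase_transition (hm : 1 < ∫⁻ n, (n : ℝ≥0∞) ∂μ) :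
    (∀ lam, IsProbabilityMeasure (Joint μ lam)) ∧
      ∃ l1 l2 : ℝ≥0, 0 < l1 ∧ l1 < l2 ∧ JTransient μ l1 ∧ ∀ lam, l2 ≤ lam → JRecurrent μ lam := by
  have hp : IsProbabilityMeasure (GW μ) := cond_isProbabilityMeasure (sv_ne_zero μ hm)
  refine ⟨fun lam => by unfold Joint; infer_instance, ?_⟩
  obtain ⟨l1, hl1, h1⟩ := visits_finite μ hm
  obtain ⟨l2, h2⟩ := visitors_infinite μ hm
  refine ⟨l1, max l2 (l1 + 1), hl1, lt_max_of_lt_right (lt_add_one _), ?_, fun lam hl => ?_⟩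
  · unfold JTransient Joint
    have hms : MeasurableSet {ω : Om | (rootVisits ω).Finite} := by
      convert ms_visits.compl using 1
      ext ω
      exact Set.not_infinite.symm
    rw [Measure.ae_prod_iff_ae_ae hms]
    filter_upwards [cond_absolutelyContinuous.ae_le h1, ae_cond_mem ms_survives] with Z h3 h4
    exact h3 h4
  · unfold JRecurrent Joint
    rw [Measure.ae_prod_iff_ae_ae ms_visits]
    filter_upwards [cond_absolutelyContinuous.ae_le (h2 lam (le_of_max_le_left hl)),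
      ae_cond_mem ms_survives] with Z h3 h4
    filter_upwards [h3 h4] with p hp
    intro hfin
    refine hp ((hfin.image Prod.fst).subset ?_)
    rintro f ⟨h5, k, h6⟩
    exact ⟨(f, k), ⟨h5, h6⟩, rfl⟩

end Pool.Agent.H109Z.FrogGW
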