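import Pool.Agent.H109Z.Frog.Pot

set_option autoImplicit false

namespace Pool.Agent.H109Z.FrogGW

open MeasureTheory ProbabilityTheory Set
open scoped NNReal ENNReal

variable (μ : Measure ℕ) [IsProbabilityMeasure μ]

/-- admissible resistance and density -/
def Good (r : ℝ) (lam : ℝ≥0) : Prop :=
  1 ≤ r ∧ sv μ + ENNReal.ofReal r * (∫⁻ Z, ik (kk Z) ∂(GW0 μ)) +
    ENNReal.ofReal (r ^ 3) * lam * (∫⁻ Z, ik (kk Z) * csz Z ∂(GW0 μ)) ≤ ENNReal.ofReal r * sv μ

lemma exists_good (h2 : μ {n | 2 ≤ n} ≠ 0) (hs : sv μ ≠ 0) :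
    ∃ (r : ℝ) (lam : ℝ≥0), 0 < lam ∧ Good μ r lam := by
  have h1 := aa_lt μ h2 hs
  have h3 := m0_ne_top μ h2 hs
  have h4 := sv_ne_top μ
  unfold Good
  generalize (∫⁻ Z, ik (kk Z) ∂(GW0 μ)) = a at *
  generalize (∫⁻ Z, ik (kk Z) * csz Z ∂(GW0 μ)) = m at *
  generalize sv μ = s at *
  have h5 : a ≠ ⊤ := ne_top_of_lt h1
  lift a to ℝ≥0 using h5
  lift m to ℝ≥0 using h3
  lift s to ℝ≥0 using h4
  have has : (a : ℝ) < s := by exact_mod_cast h1
  have ha0 : (0 : ℝ) ≤ a := a.2
  have hm0 : (0 : ℝ) ≤ m := m.2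
  have hd : (0 : ℝ) < s - a := by linarith
  have hs0 : (0 : ℝ) < s := by linarith
  set r : ℝ := 2 * s / (s - a) with hr
  have hr1 : r * (s - a) = 2 * s := by rw [hr]; field_simp
  have hr2 : 1 ≤ r := by
    rw [hr, le_div_iff₀ hd]; linarith
  have hl : (0 : ℝ) < s / (r ^ 3 * (m + 1)) := by positivity
  obtain ⟨l, hl'⟩ : ∃ l : ℝ≥0, (l : ℝ) = s / (r ^ 3 * (m + 1)) := ⟨⟨_, hl.le⟩, rfl⟩
  refine ⟨r, l, by rw [← NNReal.coe_pos, hl']; exact hl, hr2, ?_⟩
  have hr0 : 0 ≤ r := by linarith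
  rw [← ENNReal.ofReal_coe_nnreal, ← ENNReal.ofReal_coe_nnreal (p := a),
    ← ENNReal.ofReal_coe_nnreal (p := m), ← ENNReal.ofReal_coe_nnreal (p := l),
    ← ENNReal.ofReal_mul hr0, ← ENNReal.ofReal_mul hr0, ← ENNReal.ofReal_mul (by positivity),
    ← ENNReal.ofReal_mul (by positivity), ← ENNReal.ofReal_add (by positivity) (by positivity),
    ← ENNReal.ofReal_add (by positivity) (by positivity)]
  apply ENNReal.ofReal_le_ofReal
  have : r ^ 3 * (s / (r ^ 3 * (m + 1))) * m ≤ s := by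
    have : r ^ 3 * (s / (r ^ 3 * (m + 1))) * m = s * (m / (m + 1)) := by
      field_simp
    rw [this]
    have : (m : ℝ) / (m + 1) ≤ 1 := by
      rw [div_le_one (by positivity)]; linarith
    nlinarith
  rw [hl']
  nlinarith

/-- voltage as a function of the conductance -/
noncomputable def hh (A B g : ℝ) : ℝ := (1 - g) / (A + B * g)

/-- conductance after the reveal -/
noncomputable def gk (r : ℝ) (k : ℕ) : ℝ := k * r⁻¹ / (1 + k * r⁻¹)

lemma gk_bounds {r : ℝ} (hr : 1 ≤ r) {k : ℕ} (hk : 0 < k) : 0 < gk r k ∧ gk r k ≤ 1 := by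
  have : (0 : ℝ) < k := by exact_mod_cast hk
  have hr0 : 0 < r := by linarith
  unfold gk
  refine ⟨by positivity, ?_⟩
  rw [div_le_one (by positivity)]
  linarith

lemma hh_nonneg {A B g : ℝ} (hA : 0 ≤ A) (hB : 0 ≤ B) (h0 : 0 ≤ g) (h1 : g ≤ 1) :
    0 ≤ hh A B g := div_nonneg (by linarith) (by positivity)

open Classical in
lemma key_int {r : ℝ} {lam : ℝ≥0} (hg : Good μ r lam) {A B : ℝ} (hA : 0 ≤ A) (hB : 0 ≤ B)
    (hAB : 0 < A + B) :
    ∫⁻ Z, (if Survives Z then ENNReal.ofReal (hh A B (gk r (kk Z))) * (1 + lam * csz Z) else 0)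
      ∂(GW0 μ) ≤ ENNReal.ofReal (hh A B r⁻¹) * sv μ := by
  obtain ⟨hr, hg⟩ := hg
  have hr0 : 0 < r := by linarith
  set κ := (A + B) / (A * r + B) ^ 2 with hκ
  have hκ0 : 0 ≤ κ := by positivity
  have hγ : 0 ≤ hh A B r⁻¹ := hh_nonneg hA hB (by positivity) (inv_le_one_of_one_le₀ hr)
  have hI : Measurable ({Z : V → ℕ | Survives Z}.indicator (1 : (V → ℕ) → ℝ≥0∞)) :=
    measurable_one.indicator ms_survives
  have hpt : ∀ Z, (if Survives Z then ENNReal.ofReal (hh A B (gk r (kk Z))) * (1 + lam * csz Z)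
      else 0) + ENNReal.ofReal κ * ENNReal.ofReal r * {Z : V → ℕ | Survives Z}.indicator 1 Z ≤
      ENNReal.ofReal (hh A B r⁻¹) * {Z : V → ℕ | Survives Z}.indicator 1 Z +
        ENNReal.ofReal κ * ({Z : V → ℕ | Survives Z}.indicator 1 Z + ENNReal.ofReal r * ik (kk Z) +
          ENNReal.ofReal (r ^ 3) * lam * (ik (kk Z) * csz Z)) := by
    intro Z
    by_cases hZ : Survives Z
    · have hk := kk_pos.2 hZ
      have hk' : (1 : ℝ) ≤ kk Z := by exact_mod_cast hk
      obtain ⟨h1, h2⟩ := key_real hA hB hAB hr hk'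
      have hb := gk_bounds hr hk
      have h0 : 0 ≤ hh A B (gk r (kk Z)) := hh_nonneg hA hB hb.1.le hb.2
      have hik : ik (kk Z) = ENNReal.ofReal ((kk Z : ℝ)⁻¹) := by
        rw [ik, if_neg hk.ne', ENNReal.ofReal_inv_of_pos (by linarith), ENNReal.ofReal_natCast]
      simp only [hZ, if_true, indicator, mem_ofPred_eq, Pi.one_apply, mul_one]
      have e1 : ENNReal.ofReal (hh A B (gk r (kk Z))) + ENNReal.ofReal κ * ENNReal.ofReal r ≤
          ENNReal.ofReal (hh A B r⁻¹) + ENNReal.ofReal κ * (1 + ENNReal.ofReal r * ik (kk Z)) := by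
        rw [hik, ← ENNReal.ofReal_mul hκ0, ← ENNReal.ofReal_mul hr0.le, ← ENNReal.ofReal_one,
          ← ENNReal.ofReal_add zero_le_one (by positivity), ← ENNReal.ofReal_mul hκ0,
          ← ENNReal.ofReal_add h0 (by positivity), ← ENNReal.ofReal_add hγ (by positivity)]
        exact ENNReal.ofReal_le_ofReal h1
      have e2 : ENNReal.ofReal (hh A B (gk r (kk Z))) ≤
          ENNReal.ofReal κ * (ENNReal.ofReal (r ^ 3) * ik (kk Z)) := by
        rw [hik, ← ENNReal.ofReal_mul (by positivity), ← ENNReal.ofReal_mul hκ0]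
        exact ENNReal.ofReal_le_ofReal h2
      calc _ = (ENNReal.ofReal (hh A B (gk r (kk Z))) + ENNReal.ofReal κ * ENNReal.ofReal r) +
            ENNReal.ofReal (hh A B (gk r (kk Z))) * (lam * csz Z) := by ring
        _ ≤ (ENNReal.ofReal (hh A B r⁻¹) + ENNReal.ofReal κ * (1 + ENNReal.ofReal r * ik (kk Z))) +
            (ENNReal.ofReal κ * (ENNReal.ofReal (r ^ 3) * ik (kk Z))) * (lam * csz Z) := by
          gcongr
        _ = _ := by ring
    · simp [hZ]
  have hint := lintegral_mono (μ := GW0 μ) hpt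
  rw [lintegral_add_right _ (hI.const_mul _), lintegral_add_left (hI.const_mul _),
    lintegral_const_mul _ hI, lintegral_const_mul _ hI, lintegral_const_mul' _ _ (by simp),
    lintegral_add_left (hI.fun_add ((measurable_kk ik).const_mul _)), lintegral_add_left hI,
    lintegral_const_mul _ (measurable_kk ik),
    lintegral_const_mul _ ((measurable_kk ik).fun_mul measurable_csz),
    lintegral_indicator_one ms_survives] at hint
  have hfin : ENNReal.ofReal κ * ENNReal.ofReal r * GW0 μ {Z | Survives Z} ≠ ⊤ :=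
    ENNReal.mul_ne_top (ENNReal.mul_ne_top (by simp) (by simp)) (measure_ne_top _ _)
  refine (ENNReal.add_le_add_iff_right hfin).1 (hint.trans ?_)
  rw [mul_assoc (ENNReal.ofReal κ)]
  unfold sv at hg ⊢
  gcongr

lemma poisson_mean (lam : ℝ≥0) : ∫⁻ n, (n : ℝ≥0∞) ∂(poissonMeasure lam) = lam := by
  rw [lintegral_countable']
  simp only [poissonMeasure_singleton]
  have h := (hasSum_one_poissonMeasure lam).mul_left (lam : ℝ)
  have h2 : HasSum (fun n : ℕ => (n : ℝ) * (Real.exp (-lam) * lam ^ n / (n.factorial : ℝ)))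
      (lam : ℝ) := by
    rw [← hasSum_nat_add_iff' 1]
    simp only [Finset.range_one, Finset.sum_singleton, Nat.cast_zero, zero_mul, sub_zero]
    rw [mul_one] at h
    refine h.congr_fun fun n => ?_
    rw [Nat.factorial_succ]
    push_cast
    field_simp
    ring
  have h3 : ∀ n : ℕ, (n : ℝ≥0∞) * ENNReal.ofReal (Real.exp (-lam) * lam ^ n / (n.factorial : ℝ)) =
      ENNReal.ofReal ((n : ℝ) * (Real.exp (-lam) * lam ^ n / (n.factorial : ℝ))) := by
    intro n
    rw [ENNReal.ofReal_mul (by positivity), ENNReal.ofReal_natCast]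
  simp only [h3]
  rw [← ENNReal.ofReal_tsum_of_nonneg (fun n => by positivity) h2.summable, h2.tsum_eq]
  simp

lemma unif_floor {d : ℕ} (hd : 0 < d) (F : ℕ → ℝ≥0∞) :
    ∫⁻ u, F ⌊u * (d : ℝ)⌋₊ ∂unif = (∑ j ∈ Finset.range d, F j) * (d : ℝ≥0∞)⁻¹ := by
  have hd' : (0 : ℝ) < d := by exact_mod_cast hd
  have hm : Measurable fun u : ℝ => ⌊u * (d : ℝ)⌋₊ :=
    Nat.measurable_floor.comp (measurable_id.mul_const _)
  rw [← lintegral_map (Measurable.of_discrete) hm, lintegral_countable', Finset.sum_mul,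
    tsum_eq_sum (s := Finset.range d)]
  · refine Finset.sum_congr rfl fun j hj => ?_
    have hj' : (j : ℝ) + 1 ≤ d := by exact_mod_cast Finset.mem_range.1 hj
    congr 1
    rw [Measure.map_apply hm (measurableSet_singleton _), unif,
      Measure.restrict_apply (hm (measurableSet_singleton _))]
    have : (fun u : ℝ => ⌊u * (d : ℝ)⌋₊) ⁻¹' {j} ∩ Ico 0 1 = Ico ((j : ℝ) / d) ((j + 1) / d) := by
      ext u
      simp only [mem_inter_iff, mem_preimage, mem_singleton_iff, mem_Ico]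
      rw [div_le_iff₀ hd', lt_div_iff₀ hd']
      constructor
      · rintro ⟨h1, h2, h3⟩
        exact (Nat.floor_eq_iff (by positivity)).1 h1
      · rintro ⟨h1, h2⟩
        have h0 : 0 ≤ u * d := le_trans (by positivity) h1
        refine ⟨(Nat.floor_eq_iff h0).2 ⟨h1, h2⟩, ?_, ?_⟩
        · by_contra h
          push Not at h
          nlinarith
        · by_contra h
          push Not at h
          nlinarith
    rw [this, Real.volume_Ico, ← sub_div, add_sub_cancel_left, one_div,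
      ENNReal.ofReal_inv_of_pos hd', ENNReal.ofReal_natCast]
  · intro j hj
    have hj' : (d : ℝ) ≤ j := by exact_mod_cast not_lt.1 (mt Finset.mem_range.2 hj)
    rw [Measure.map_apply hm (measurableSet_singleton _), unif,
      Measure.restrict_apply (hm (measurableSet_singleton _))]
    have : (fun u : ℝ => ⌊u * (d : ℝ)⌋₊) ⁻¹' {j} ∩ Ico 0 1 = ∅ := by
      ext u
      simp only [mem_inter_iff, mem_preimage, mem_singleton_iff, mem_Ico, mem_empty_iff_false,
        iff_false]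
      rintro ⟨h1, h2, h3⟩
      have := ((Nat.floor_eq_iff (by positivity)).1 h1).1
      nlinarith
    simp [this]

/-- reward for leaving the root -/
noncomputable def cz (Z : V → ℕ) (x : V) : ℝ≥0∞ := if x = [] then (Z [] : ℝ≥0∞)⁻¹ else 0

lemma move_int {Z : V → ℕ} {S : Finset V} {β : V → ℝ} (hβ : ∀ v, 0 < β v ∧ β v ≤ 1)
    (hs : Survives Z) {x : V} (hx : x ∈ S) :
    ∫⁻ u, ENNReal.ofReal (psi Z S β (step Z x u)) ∂unif + cz Z x =
      ENNReal.ofReal (psi Z S β x) := by
  have hβ' : ∀ v, 0 ≤ β v ∧ β v ≤ 1 := fun v => ⟨(hβ v).1.le, (hβ v).2⟩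
  have hp := psi_nonneg (Z := Z) (S := S) hβ'
  have hd : 0 < deg Z x := by
    unfold deg
    split_ifs with h
    · subst h
      obtain ⟨i, hi, -⟩ := survives_iff.1 hs
      omega
    · omega
  have := unif_floor hd fun j => ENNReal.ofReal (psi Z S β (if j < Z x then j :: x else x.tail))
  unfold step
  rw [this]
  cases x with
  | nil =>
    have hz : deg Z [] = Z [] := by simp [deg]
    rw [hz] at hd ⊢
    have h1 := harm_root hβ hs hx
    rw [Finset.sum_congr rfl (g := fun j => ENNReal.ofReal (psi Z S β [j]))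
      (fun j hj => by rw [if_pos (Finset.mem_range.1 hj)]),
      ← ENNReal.ofReal_sum_of_nonneg fun j _ => hp _]
    simp only [cz, if_true]
    rw [← add_one_mul, ← ENNReal.ofReal_one,
      ← ENNReal.ofReal_add (Finset.sum_nonneg fun j _ => hp _) zero_le_one, h1,
      ENNReal.ofReal_mul (by positivity), ENNReal.ofReal_natCast, mul_comm, ← mul_assoc,
      ENNReal.inv_mul_cancel (by exact_mod_cast hd.ne') (by simp), one_mul]
  | cons j y =>
    have hz : deg Z (j :: y) = Z (j :: y) + 1 := by simp [deg]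
    rw [hz]
    have h1 := harm_cons (Z := Z) hβ' hx
    rw [Finset.sum_range_succ, Finset.sum_congr rfl
      (g := fun i => ENNReal.ofReal (psi Z S β (i :: j :: y)))
      (fun j hj => by rw [if_pos (Finset.mem_range.1 hj)]),
      ← ENNReal.ofReal_sum_of_nonneg fun j _ => hp _, if_neg (lt_irrefl _), List.tail_cons,
      ← ENNReal.ofReal_add (Finset.sum_nonneg fun j _ => hp _) (hp _), h1,
      ENNReal.ofReal_mul (by positivity)]
    have : ENNReal.ofReal ((Z (j :: y) : ℝ) + 1) = ((Z (j :: y) + 1 : ℕ) : ℝ≥0∞) := by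
      rw [← ENNReal.ofReal_natCast]; push_cast; rfl
    rw [this, mul_comm, ← mul_assoc, ENNReal.inv_mul_cancel (by simp) (by simp), one_mul]
    simp [cz]

end Pool.Agent.H109Z.FrogGW
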