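import Pool.Agent.H109Z.Frog.Reveal

set_option autoImplicit false

namespace Pool.Agent.H109Z.FrogGW

open MeasureTheory ProbabilityTheory Set
open scoped NNReal ENNReal

variable (μ : Measure ℕ) [IsProbabilityMeasure μ]

open Classical in
lemma HH_step {r : ℝ} {lam : ℝ≥0} (hg : Good μ r lam) (a : ℕ → Frog) (j : ℕ) :
    ∫⁻ ω, HH r a (j + 1) ω ∂(PP μ lam) ≤ ∫⁻ ω, HH r a j ω ∂(PP μ lam) := by
  rw [(disc_cls a j).lint_split _ (measurable_HH r a (j + 1)),
    (disc_cls a j).lint_split _ (measurable_HH r a j)]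
  refine ENNReal.tsum_le_tsum fun c => ?_
  rcases c with _ | t | w
  · refine lintegral_mono fun ω => ?_
    dsimp only
    split_ifs with h
    · simp only [HH, st, cl_none h, le_refl]
    · exact le_rfl
  · convert move_step μ hg.1 lam a j t
  · convert reveal_step μ hg a j w

lemma HH_bound {r : ℝ} {lam : ℝ≥0} (hg : Good μ r lam) (a : ℕ → Frog) (j : ℕ) :
    ∫⁻ ω, HH r a j ω ∂(PP μ lam) ≤ ENNReal.ofReal ((1 - r⁻¹) / r⁻¹) := by
  induction j with
  | zero =>
    calc _ ≤ ∫⁻ _ω, ENNReal.ofReal ((1 - r⁻¹) / r⁻¹) ∂(PP μ lam) := lintegral_mono fun ω => ?_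
      _ = _ := by simp
    dsimp only
    unfold HH
    split_ifs
    · rw [Phi, tsum_eq_single (([], 0) : Frog)]
      · simp [term, awake, st, pos, dep, walk, psi, gam_not_mem]
      · intro g hg
        simp [term, awake, st, hg]
    · exact zero_le
  | succ j ih => exact (HH_step μ hg a j).trans ih

/-- a schedule in which every particle occurs infinitely often -/
noncomputable def sched : ℕ → Frog := fun n => (Encodable.decode (Nat.unpair n).1).getD ([], 0)

lemma sched_often (f : Frog) (j : ℕ) : ∃ i, j ≤ i ∧ sched i = f :=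
  ⟨Nat.pair (Encodable.encode f) j, Nat.right_le_pair _ _, by
    simp only [sched, Nat.unpair_pair, Encodable.encodek, Option.getD_some]⟩

lemma progress (ω : Om) (f : Frog) (j : ℕ) (h : awake ω.2.1 (st sched ω j).1 f) :
    ∃ i, j ≤ i ∧ (st sched ω j).2.count f < (st sched ω i).2.count f := by
  classical
  by_contra hc
  push Not at hc
  have heq : ∀ i, j ≤ i → (st sched ω i).2.count f = (st sched ω j).2.count f := fun i hi =>
    le_antisymm (hc i hi) (Multiset.count_le_of_le f (st_mono sched ω hi).2)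
  have hno : ∀ i, j ≤ i → sched i = f → pos ω (st sched ω i) f ∉ (st sched ω i).1 := by
    intro i hi hs hp
    have h1 := heq (i + 1) (by omega)
    have h2 := heq i hi
    simp only [st, hs] at h1
    rw [upd, if_pos (awake_mono (st_mono sched ω hi).1 h), if_pos hp] at h1
    simp only [Multiset.count_cons_self] at h1
    omega
  obtain ⟨i, hi, hs⟩ := sched_often f j
  obtain ⟨k, hk, hs'⟩ := sched_often f (i + 1)
  refine hno k (by omega) hs' ?_
  have h1 : pos ω (st sched ω i) f ∈ (st sched ω (i + 1)).1 := by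
    simp only [st, hs]
    rw [upd, if_pos (awake_mono (st_mono sched ω hi).1 h), if_neg (hno i hi hs)]
    exact Finset.mem_union_right _ (self_mem_cell _ _)
  have h2 : pos ω (st sched ω k) f = pos ω (st sched ω i) f := by
    unfold pos
    rw [heq k (by omega), heq i hi]
  rw [h2]
  exact (st_mono sched ω hk).1 h1

lemma fair {ω : Om} {f : Frog} (h : Active ω.1 ω.2.1 ω.2.2 f) :
    ∀ n, ∃ j, awake ω.2.1 (st sched ω j).1 f ∧ n < (st sched ω j).2.count f := by
  have key : ∀ g : Frog, (∃ j, awake ω.2.1 (st sched ω j).1 g) →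
      ∀ n, ∃ j, awake ω.2.1 (st sched ω j).1 g ∧ n ≤ (st sched ω j).2.count g := by
    rintro g ⟨j, hj⟩ n
    induction n with
    | zero => exact ⟨j, hj, Nat.zero_le _⟩
    | succ n ih =>
      obtain ⟨i, h1, h2⟩ := ih
      obtain ⟨k, h3, h4⟩ := progress ω g i h1
      exact ⟨k, awake_mono (st_mono sched ω h3).1 h1, by omega⟩
  induction h with
  | root => exact fun n => key _ ⟨0, Or.inl rfl⟩ (n + 1)
  | wake f n v i _ h1 h2 h3 ih =>
    obtain ⟨j, -, hj⟩ := ih n
    have := (inv_st sched ω j).vis f n hj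
    rw [h1] at this
    exact fun m => key _ ⟨j, Or.inr ⟨this, h2, h3⟩⟩ (m + 1)

open Classical in
/-- reward collected so far -/
noncomputable def DD (j : ℕ) (ω : Om) : ℝ≥0∞ :=
  if Survives ω.1 then
    ∑' f, (if awake ω.2.1 (st sched ω j).1 f then dep ω (st sched ω j) f else 0)
  else 0

lemma measurable_DD (j : ℕ) : Measurable (DD j) := by
  classical
  refine Measurable.ite (measurable_fst ms_survives) ?_ measurable_const
  exact (disc_st sched j).measurable (g := fun σ (ω : Om) =>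
    ∑' f, (if awake ω.2.1 σ.1 f then dep ω σ f else 0)) fun σ =>
      Measurable.tsum fun f => Measurable.ite (ms_awake _ _) (measurable_dep σ f) measurable_const

lemma DD_le (r : ℝ) (j : ℕ) (ω : Om) : DD j ω ≤ HH r sched j ω := by
  unfold DD HH
  split_ifs
  · refine ENNReal.tsum_le_tsum fun f => ?_
    unfold term
    split_ifs
    · exact le_add_self
    · exact le_rfl
  · exact le_rfl

lemma DD_mono (ω : Om) : Monotone fun j => DD j ω := by
  intro i j hij
  unfold DD
  dsimp only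
  split_ifs
  · refine ENNReal.tsum_le_tsum fun f => ?_
    by_cases h : awake ω.2.1 (st sched ω i).1 f
    · rw [if_pos h, if_pos (awake_mono (st_mono sched ω hij).1 h)]
      exact Finset.sum_le_sum_of_subset
        (Finset.range_mono (Multiset.count_le_of_le f (st_mono sched ω hij).2))
    · rw [if_neg h]
      exact zero_le
  · exact le_rfl

lemma finite_of_DD {ω : Om} (hs : Survives ω.1) (h : ⨆ j, DD j ω ≠ ⊤) :
    {p : Frog × ℕ | Active ω.1 ω.2.1 ω.2.2 p.1 ∧ walk ω.1 ω.2.2 p.1 p.2 = []}.Finite := by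
  classical
  by_contra hinf
  apply h
  have hz : ((ω.1 [] : ℝ≥0∞))⁻¹ ≠ 0 := by simp
  have key : ∀ n : ℕ, (n : ℝ≥0∞) * (ω.1 [] : ℝ≥0∞)⁻¹ ≤ ⨆ j, DD j ω := by
    intro n
    obtain ⟨F, hF, hcard⟩ := Set.Infinite.exists_subset_card_eq hinf n
    have h1 : ∀ p ∈ F, ∃ j, awake ω.2.1 (st sched ω j).1 p.1 ∧ p.2 < (st sched ω j).2.count p.1 :=
      fun p hp => fair (hF hp).1 p.2
    choose! J hJ using h1
    set j := F.sup J
    have h2 : ∀ p ∈ F, awake ω.2.1 (st sched ω j).1 p.1 ∧ p.2 < (st sched ω j).2.count p.1 := by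
      intro p hp
      have hm := st_mono sched ω (Finset.le_sup (f := J) hp)
      exact ⟨awake_mono hm.1 (hJ p hp).1, (hJ p hp).2.trans_le (Multiset.count_le_of_le _ hm.2)⟩
    refine le_trans ?_ (le_iSup (fun j => DD j ω) j)
    rw [DD, if_pos hs]
    set G : Frog × ℕ → ℝ≥0∞ := fun p => if awake ω.2.1 (st sched ω j).1 p.1 ∧
      p.2 < (st sched ω j).2.count p.1 then cz ω.1 (walk ω.1 ω.2.2 p.1 p.2) else 0 with hG
    have e1 : ∑' f, (if awake ω.2.1 (st sched ω j).1 f then dep ω (st sched ω j) f else 0) =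
        ∑' p, G p := by
      rw [ENNReal.tsum_prod' (f := G)]
      refine tsum_congr fun f => ?_
      by_cases hf : awake ω.2.1 (st sched ω j).1 f
      · simp only [hG, hf, if_true, true_and, dep]
        rw [tsum_eq_sum (s := Finset.range ((st sched ω j).2.count f))
          (fun s hs => if_neg (by simpa using hs))]
        exact Finset.sum_congr rfl fun s hs => (if_pos (Finset.mem_range.1 hs)).symm
      · simp [hG, hf]
    rw [e1]
    refine le_trans (le_of_eq ?_) (ENNReal.sum_le_tsum F)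
    rw [Finset.sum_congr rfl (g := fun _ => (ω.1 [] : ℝ≥0∞)⁻¹), Finset.sum_const, hcard,
      nsmul_eq_mul]
    intro p hp
    simp only [hG]
    rw [if_pos (h2 p hp), (hF hp).2, cz, if_pos rfl]
  rw [eq_top_iff, ← ENNReal.top_mul hz, ← ENNReal.iSup_natCast, ENNReal.iSup_mul]
  exact iSup_le key

theorem main_ae {r : ℝ} {lam : ℝ≥0} (hg : Good μ r lam) :
    ∀ᵐ ω ∂(PP μ lam), Survives ω.1 →
      {p : Frog × ℕ | Active ω.1 ω.2.1 ω.2.2 p.1 ∧ walk ω.1 ω.2.2 p.1 p.2 = []}.Finite := by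
  have h1 : ∫⁻ ω, ⨆ j, DD j ω ∂(PP μ lam) ≠ ⊤ := by
    rw [lintegral_iSup measurable_DD fun i j hij ω => DD_mono ω hij]
    exact ne_top_of_le_ne_top ENNReal.ofReal_ne_top (iSup_le fun j =>
      (lintegral_mono (DD_le r j)).trans (HH_bound μ hg sched j))
  filter_upwards [ae_lt_top (Measurable.iSup measurable_DD) h1] with ω hω hs
  exact finite_of_DD hs hω.ne

lemma two_ne_zero_of_mean (hm : 1 < ∫⁻ n, (n : ℝ≥0∞) ∂μ) : μ {n | 2 ≤ n} ≠ 0 := by
  intro h
  have : ∀ᵐ (n : ℕ) ∂μ, (n : ℝ≥0∞) ≤ 1 := by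
    have : ∀ᵐ n ∂μ, ¬ 2 ≤ n := by
      rw [ae_iff]
      simpa only [not_not] using h
    filter_upwards [this] with n hn
    exact_mod_cast (by omega : n ≤ 1)
  have := lintegral_mono_ae this
  simp only [lintegral_const, measure_univ, mul_one] at this
  exact absurd hm (not_lt.2 this)

theorem visits_finite (hm : 1 < ∫⁻ n, (n : ℝ≥0∞) ∂μ) :
    ∃ lam : ℝ≥0, 0 < lam ∧ ∀ᵐ Z ∂(GW0 μ), Survives Z → ∀ᵐ q ∂(FM lam),
      {p : Frog × ℕ | Active Z q.1 q.2 p.1 ∧ walk Z q.2 p.1 p.2 = []}.Finite := by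
  by_cases hs : sv μ = 0
  · refine ⟨1, one_pos, ?_⟩
    have : ∀ᵐ Z ∂(GW0 μ), ¬ Survives Z := by
      rw [ae_iff]
      simpa [sv] using hs
    filter_upwards [this] with Z hZ h
    exact absurd h hZ
  · obtain ⟨r, lam, hl, hg⟩ := exists_good μ (two_ne_zero_of_mean μ hm) hs
    refine ⟨lam, hl, ?_⟩
    filter_upwards [Measure.ae_ae_of_ae_prod (main_ae μ hg)] with Z hZ h
    filter_upwards [hZ] with q hq
    exact hq h

end Pool.Agent.H109Z.FrogGW
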