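import Pool.Agent.H109Z.Frog.Defs

set_option autoImplicit false

namespace Pool.Agent.H109Z.FrogGW

open MeasureTheory ProbabilityTheory Set
open scoped NNReal ENNReal

instance : IsProbabilityMeasure unif := by
  constructor
  simp [unif]

open Classical in
/-- take `y` on `D` and `x` off `D` -/
noncomputable def mix {ι α : Type*} (D : Set ι) (x y : ι → α) : ι → α :=
  fun i => if i ∈ D then y i else x i

lemma mix_mem {ι α : Type*} {D : Set ι} (x y : ι → α) {i : ι} (h : i ∈ D) : mix D x y i = y i := by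
  simp [mix, h]

lemma mix_not_mem {ι α : Type*} {D : Set ι} (x y : ι → α) {i : ι} (h : i ∉ D) :
    mix D x y i = x i := by
  simp [mix, h]

lemma measurable_mix {ι α : Type*} [MeasurableSpace α] (D : Set ι) :
    Measurable fun p : (ι → α) × (ι → α) => mix D p.1 p.2 := by
  refine measurable_pi_lambda _ fun i => ?_
  by_cases h : i ∈ D
  · simp only [mix, h, if_true]; fun_prop
  · simp only [mix, h, if_false]; fun_prop

lemma mp_mix {ι α : Type*} [MeasurableSpace α] (μ : Measure α) [IsProbabilityMeasure μ]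
    (D : Set ι) :
    MeasurePreserving (fun p : (ι → α) × (ι → α) => mix D p.1 p.2)
      ((Measure.infinitePi fun _ : ι => μ).prod (Measure.infinitePi fun _ : ι => μ))
      (Measure.infinitePi fun _ : ι => μ) := by
  classical
  refine ⟨measurable_mix D, ?_⟩
  apply Measure.eq_infinitePi
  intro s t ht
  rw [Measure.map_apply (measurable_mix D) (MeasurableSet.pi s.countable_toSet fun i _ => ht i)]
  have : (fun p : (ι → α) × (ι → α) => mix D p.1 p.2) ⁻¹' (Set.pi s t) =
      (Set.pi (s.filter fun i => i ∉ D) t) ×ˢ (Set.pi (s.filter fun i => i ∈ D) t) := by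
    ext p
    simp only [mem_preimage, Set.mem_pi, Finset.mem_coe, mem_prod, Finset.coe_filter, mem_ofPred_eq]
    constructor
    · intro h
      refine ⟨fun i hi => ?_, fun i hi => ?_⟩
      · have := h i hi.1
        rwa [mix_not_mem _ _ hi.2] at this
      · have := h i hi.1
        rwa [mix_mem _ _ hi.2] at this
    · rintro ⟨h1, h2⟩ i hi
      by_cases h : i ∈ D
      · rw [mix_mem _ _ h]; exact h2 i ⟨hi, h⟩
      · rw [mix_not_mem _ _ h]; exact h1 i ⟨hi, h⟩
  rw [this, Measure.prod_prod, Measure.infinitePi_pi _ (fun i _ => ht i),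
    Measure.infinitePi_pi _ (fun i _ => ht i), mul_comm]
  exact Finset.prod_filter_mul_prod_filter_not s (fun i => i ∈ D) _

lemma mp_right {α β γ : Type*} [MeasurableSpace α] [MeasurableSpace β] [MeasurableSpace γ]
    {μ : Measure α} {ν : Measure β} (ρ : Measure γ) [SFinite μ] [SFinite ν] [SFinite ρ]
    {T : α × β → α} (hT : MeasurePreserving T (μ.prod ν) μ) :
    MeasurePreserving (fun p : (γ × α) × β => (p.1.1, T (p.1.2, p.2))) ((ρ.prod μ).prod ν)
      (ρ.prod μ) :=
  ((MeasurePreserving.id ρ).prod hT).comp (measurePreserving_prodAssoc ρ μ ν)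

lemma mp_left {α β γ : Type*} [MeasurableSpace α] [MeasurableSpace β] [MeasurableSpace γ]
    {μ : Measure α} {ν : Measure β} (ρ : Measure γ) [SFinite μ] [SFinite ν] [SFinite ρ]
    {T : α × β → α} (hT : MeasurePreserving T (μ.prod ν) μ) :
    MeasurePreserving (fun p : (α × γ) × β => (T (p.1.1, p.2), p.1.2)) ((μ.prod ρ).prod ν)
      (μ.prod ρ) :=
  (Measure.measurePreserving_swap.comp (mp_right ρ hT)).comp
    (Measure.measurePreserving_swap.prod (MeasurePreserving.id ν))

lemma lint_resample {α β : Type*} [MeasurableSpace α] [MeasurableSpace β]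
    {μ : Measure α} {ν : Measure β} [SFinite ν]
    {T : α × β → α} (hT : MeasurePreserving T (μ.prod ν) μ) {F : α → ℝ≥0∞} (hF : Measurable F) :
    ∫⁻ a, F a ∂μ = ∫⁻ a, ∫⁻ b, F (T (a, b)) ∂ν ∂μ := by
  rw [← hT.lintegral_comp hF]
  exact lintegral_prod _ (hF.comp hT.measurable).aemeasurable

/-- independence of a function of the coordinates off `D` and a function of those on `D` -/
lemma lint_indep {ι α : Type*} [MeasurableSpace α] (μ : Measure α) [IsProbabilityMeasure μ]
    (D : Set ι) {F G : (ι → α) → ℝ≥0∞} (hF : Measurable F) (hG : Measurable G)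
    (h1 : ∀ x y, F (mix D x y) = F x) (h2 : ∀ x y, G (mix D x y) = G y) :
    ∫⁻ x, F x * G x ∂(Measure.infinitePi fun _ : ι => μ) =
      (∫⁻ x, F x ∂(Measure.infinitePi fun _ : ι => μ)) *
        ∫⁻ x, G x ∂(Measure.infinitePi fun _ : ι => μ) := by
  rw [lint_resample (F := fun x => F x * G x) (mp_mix μ D) (hF.mul hG)]
  simp only [h1, h2]
  simp only [lintegral_const_mul _ hG]
  rw [lintegral_mul_const _ hF]

/-- functions with countably many values and measurable fibres -/
def Disc {Ω β : Type*} [MeasurableSpace Ω] (f : Ω → β) : Prop :=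
  ∀ b, MeasurableSet {ω | f ω = b}

lemma Disc.measurable {Ω β γ : Type*} [MeasurableSpace Ω] [MeasurableSpace γ] [Countable β]
    {f : Ω → β} (hf : Disc f) {g : β → Ω → γ} (hg : ∀ b, Measurable (g b)) :
    Measurable fun ω => g (f ω) ω := by
  intro s hs
  have : (fun ω => g (f ω) ω) ⁻¹' s = ⋃ b, {ω | f ω = b} ∩ g b ⁻¹' s := by
    ext ω; simp
  rw [this]
  exact MeasurableSet.iUnion fun b => (hf b).inter (hg b hs)

lemma Disc.set {Ω β : Type*} [MeasurableSpace Ω] [Countable β]
    {f : Ω → β} (hf : Disc f) {g : β → Ω → Prop} (hg : ∀ b, MeasurableSet {ω | g b ω}) :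
    MeasurableSet {ω | g (f ω) ω} := by
  have : {ω | g (f ω) ω} = ⋃ b, {ω | f ω = b} ∩ {ω | g b ω} := by
    ext ω; simp
  rw [this]
  exact MeasurableSet.iUnion fun b => (hf b).inter (hg b)

lemma Disc.bind {Ω β γ : Type*} [MeasurableSpace Ω] [Countable β]
    {f : Ω → β} (hf : Disc f) {g : β → Ω → γ} (hg : ∀ b, Disc (g b)) :
    Disc fun ω => g (f ω) ω := fun c =>
  hf.set (g := fun b ω => g b ω = c) fun b => hg b c

lemma Disc.const {Ω β : Type*} [MeasurableSpace Ω] (b : β) : Disc fun _ : Ω => b := by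
  intro c
  by_cases h : b = c <;> simp [h]

lemma Disc.map {Ω β γ : Type*} [MeasurableSpace Ω] [Countable β]
    {f : Ω → β} (hf : Disc f) (g : β → γ) : Disc fun ω => g (f ω) :=
  hf.bind (g := fun b _ => g b) fun _ => Disc.const _

lemma Disc.of_measurable {Ω β : Type*} [MeasurableSpace Ω] [MeasurableSpace β]
    [MeasurableSingletonClass β] {f : Ω → β} (hf : Measurable f) : Disc f := fun b =>
  hf (measurableSet_singleton b)

lemma Disc.comp {Ω Ω' β : Type*} [MeasurableSpace Ω] [MeasurableSpace Ω'] {f : Ω → β}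
    (hf : Disc f) {g : Ω' → Ω} (hg : Measurable g) : Disc fun ω => f (g ω) := fun b =>
  hg (hf b)

open Classical in
lemma Disc.ite {Ω β : Type*} [MeasurableSpace Ω] {p : Ω → Prop} (hp : MeasurableSet {ω | p ω})
    {f g : Ω → β} (hf : Disc f) (hg : Disc g) [DecidablePred p] :
    Disc fun ω => if p ω then f ω else g ω := by
  intro b
  have : {ω | (if p ω then f ω else g ω) = b} =
      ({ω | p ω} ∩ {ω | f ω = b}) ∪ ({ω | p ω}ᶜ ∩ {ω | g ω = b}) := by
    ext ω
    by_cases h : p ω <;> simp [h]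
  rw [this]
  exact (hp.inter (hf b)).union (hp.compl.inter (hg b))

open Classical in
lemma Disc.lint_split {Ω β : Type*} [MeasurableSpace Ω] [Countable β] {f : Ω → β} (hf : Disc f)
    (μ : Measure Ω) {F : Ω → ℝ≥0∞} (hF : Measurable F) :
    ∫⁻ ω, F ω ∂μ = ∑' b, ∫⁻ ω, (if f ω = b then F ω else 0) ∂μ := by
  rw [← lintegral_tsum]
  · congr 1
    ext ω
    rw [tsum_eq_single (f ω)]
    · simp
    · intro b hb
      simp [Ne.symm hb]
  · intro b
    exact (Measurable.ite (hf b) hF measurable_const).aemeasurable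

end Pool.Agent.H109Z.FrogGW
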