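import Pool.Agent.H109Z.Frog.Tree

set_option autoImplicit false

namespace Pool.Agent.H109Z.FrogGW

open MeasureTheory ProbabilityTheory Set
open scoped NNReal ENNReal

variable (μ : Measure ℕ) [IsProbabilityMeasure μ]

instance : IsProbabilityMeasure (GW0 μ) := by
  unfold GW0; infer_instance

/-- the words below `w` -/
def Dw (w : V) : Set V := {v | w <:+ v}

lemma sh_mix_self {α : Type*} (w : V) (x y : V → α) : sh w (mix (Dw w) x y) = sh w y := by
  funext v
  exact mix_mem _ _ (List.suffix_append v w)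

lemma sh_mix_other {α : Type*} {w c : V} (h1 : ¬ w <:+ c) (h2 : ¬ c <:+ w) (x y : V → α) :
    sh c (mix (Dw w) x y) = sh c x := by
  funext v
  refine mix_not_mem _ _ fun h => ?_
  rcases List.suffix_or_suffix_of_suffix h (List.suffix_append v c) with h | h
  · exact h1 h
  · exact h2 h

lemma sh_mix_ne {α : Type*} {i j : ℕ} (h : j ≠ i) (x y : V → α) :
    sh [j] (mix (Dw [i]) x y) = sh [j] x := by
  refine sh_mix_other ?_ ?_ x y
  · intro h'
    exact h (by simpa using (h'.eq_of_length rfl).symm)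
  · intro h'
    exact h (by simpa using (h'.eq_of_length rfl))

lemma mix_root {α : Type*} (i : ℕ) (x y : V → α) : mix (Dw [i]) x y [] = x [] :=
  mix_not_mem _ _ (by simp [Dw])

lemma lint_child (i : ℕ) {F G : (V → ℕ) → ℝ≥0∞} (hF : Measurable F) (hG : Measurable G)
    (h1 : ∀ x y, F (mix (Dw [i]) x y) = F x) :
    ∫⁻ x, F x * G (sh [i] x) ∂(GW0 μ) = (∫⁻ x, F x ∂(GW0 μ)) * ∫⁻ x, G x ∂(GW0 μ) := by
  unfold GW0
  rw [lint_indep μ (Dw [i]) (G := fun x => G (sh [i] x)) hF (hG.comp (measurable_sh _)) h1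
    (fun x y => by rw [sh_mix_self]), (mp_sh μ [i]).lintegral_comp hG]

lemma meas_child (i : ℕ) {A B : Set (V → ℕ)} (hA : MeasurableSet A) (hB : MeasurableSet B)
    (h1 : ∀ x y, mix (Dw [i]) x y ∈ A ↔ x ∈ A) :
    GW0 μ (A ∩ sh [i] ⁻¹' B) = GW0 μ A * GW0 μ B := by
  have := lint_child μ i (F := A.indicator 1) (G := B.indicator 1)
    (measurable_one.indicator hA) (measurable_one.indicator hB) (fun x y => by
      by_cases h : x ∈ A
      · simp [h, (h1 x y).2 h]
      · simp [h, mt (h1 x y).1 h])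
  rw [lintegral_indicator_one hA, lintegral_indicator_one hB] at this
  rw [← this, ← lintegral_indicator_one (hA.inter (measurable_sh _ hB))]
  congr 1
  ext x
  by_cases h : x ∈ A <;> by_cases h' : sh [i] x ∈ B <;> simp [h, h']

/-- survival probability -/
noncomputable def sv : ℝ≥0∞ := GW0 μ {Z | Survives Z}

lemma sv_ne_top : sv μ ≠ ⊤ := measure_ne_top _ _

lemma two_le_kk {Z : V → ℕ} (h : 2 ≤ Z []) (h0 : Survives (sh [0] Z)) (h1 : Survives (sh [1] Z)) :
    2 ≤ kk Z := by
  classical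
  have : ({0, 1} : Finset ℕ) ⊆ (Finset.range (Z [])).filter fun i => Survives (sh [i] Z) := by
    intro i hi
    simp only [Finset.mem_insert, Finset.mem_singleton] at hi
    rcases hi with rfl | rfl
    · simp only [Finset.mem_filter, Finset.mem_range]; exact ⟨by omega, h0⟩
    · simp only [Finset.mem_filter, Finset.mem_range]; exact ⟨by omega, h1⟩
  simpa [kk] using Finset.card_le_card this

lemma ms_kk (p : ℕ → Prop) : MeasurableSet {Z | p (kk Z)} :=
  disc_kk.set (g := fun k _ => p k) fun _ => MeasurableSet.const _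

lemma p2_ne_zero (h2 : μ {n | 2 ≤ n} ≠ 0) (hs : sv μ ≠ 0) : GW0 μ {Z | 2 ≤ kk Z} ≠ 0 := by
  have hA : MeasurableSet {Z : V → ℕ | 2 ≤ Z []} := ms_lt 1 []
  have e0 : GW0 μ {Z : V → ℕ | 2 ≤ Z []} = μ {n | 2 ≤ n} :=
    (measurePreserving_eval_infinitePi (fun _ : V => μ) []).measure_preimage
      (s := {n | 2 ≤ n}) MeasurableSet.of_discrete.nullMeasurableSet
  have e1 := meas_child μ 0 hA ms_survives (fun x y => by simp [mix_root])
  have e2 := meas_child μ 1 (hA.inter (measurable_sh [0] ms_survives)) ms_survives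
    (fun x y => by simp [mix_root, sh_mix_ne])
  rw [e1, e0] at e2
  intro h
  have : GW0 μ (({Z : V → ℕ | 2 ≤ Z []} ∩ sh [0] ⁻¹' {Z | Survives Z}) ∩
      sh [1] ⁻¹' {Z | Survives Z}) = 0 :=
    measure_mono_null (fun Z hZ => two_le_kk hZ.1.1 hZ.1.2 hZ.2) h
  rw [e2] at this
  simp only [mul_eq_zero] at this
  rcases this with (h | h) | h
  · exact h2 h
  · exact hs h
  · exact hs h

open Classical in
/-- `1/k` on the survival event -/
noncomputable def ik (k : ℕ) : ℝ≥0∞ := if k = 0 then 0 else (k : ℝ≥0∞)⁻¹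

lemma ik_le_one (k : ℕ) : ik k ≤ 1 := by
  unfold ik
  split_ifs with h
  · simp
  · exact ENNReal.inv_le_one.2 (by exact_mod_cast Nat.one_le_iff_ne_zero.2 h)

lemma aa_lt (h2 : μ {n | 2 ≤ n} ≠ 0) (hs : sv μ ≠ 0) : ∫⁻ Z, ik (kk Z) ∂(GW0 μ) < sv μ := by
  have hp := p2_ne_zero μ h2 hs
  have key : ∫⁻ Z, ik (kk Z) ∂(GW0 μ) + 2⁻¹ * GW0 μ {Z | 2 ≤ kk Z} ≤ sv μ := by
    rw [sv, ← lintegral_indicator_one ms_survives, ← lintegral_indicator_one (ms_kk _),
      ← lintegral_const_mul _ (measurable_one.indicator (ms_kk _)),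
      ← lintegral_add_left (measurable_kk ik)]
    refine lintegral_mono fun Z => ?_
    by_cases hZ : Survives Z
    · have hk := kk_pos.2 hZ
      by_cases h : 2 ≤ kk Z
      · simp only [indicator, mem_ofPred_eq, h, hZ, if_true, Pi.one_apply, mul_one, ik, hk.ne',
          if_false]
        calc ((kk Z : ℝ≥0∞))⁻¹ + 2⁻¹ ≤ 2⁻¹ + 2⁻¹ := by
              gcongr
              exact_mod_cast h
          _ = 1 := ENNReal.inv_two_add_inv_two
      · simp [indicator, h, hZ, ik_le_one]
    · have hk : kk Z = 0 := by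
        by_contra h
        exact hZ (kk_pos.1 (Nat.pos_of_ne_zero h))
      simp [indicator, hk, hZ, ik]
  refine lt_of_lt_of_le ?_ key
  refine ENNReal.lt_add_right ?_ (mul_ne_zero (by simp) hp)
  exact ne_top_of_le_ne_top (sv_ne_top μ) (le_trans le_self_add key)

/-- all children other than `i` have finite subtrees -/
def Aoth (i : ℕ) : Set (V → ℕ) :=
  {Z | i < Z [] ∧ ∀ j < Z [], j ≠ i → ¬ Survives (sh [j] Z)}

lemma ms_Aoth (i : ℕ) : MeasurableSet (Aoth i) := by
  have : Aoth i = {Z | i < Z []} ∩ ⋂ j : ℕ, ({Z | j < Z []}ᶜ ∪ ({_Z | j = i} ∪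
      {Z | Survives (sh [j] Z)}ᶜ)) := by
    ext Z
    simp only [Aoth, mem_ofPred_eq, mem_inter_iff, mem_iInter, mem_union, mem_compl_iff]
    refine and_congr_right fun _ => forall_congr' fun j => ?_
    tauto
  rw [this]
  exact (ms_lt i []).inter (MeasurableSet.iInter fun j => (ms_lt j []).compl.union
    ((MeasurableSet.const _).union (ms_survives_sh _).compl))

lemma mix_Aoth (i : ℕ) (x y : V → ℕ) : mix (Dw [i]) x y ∈ Aoth i ↔ x ∈ Aoth i := by
  simp only [Aoth, mem_ofPred_eq, mix_root]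
  refine and_congr_right fun _ => forall_congr' fun j => forall_congr' fun _ =>
    forall_congr' fun hj => ?_
  rw [sh_mix_ne hj]

lemma theta_lt (h2 : μ {n | 2 ≤ n} ≠ 0) (hs : sv μ ≠ 0) : ∑' i, GW0 μ (Aoth i) < 1 := by
  have hp := p2_ne_zero μ h2 hs
  have hd : Pairwise (Function.onFun Disjoint
      fun i => Aoth i ∩ sh [i] ⁻¹' {Z | Survives Z}) := by
    intro i j hij
    rw [Function.onFun, Set.disjoint_left]
    intro Z h1 h2
    exact h1.1.2 j h2.1.1 hij.symm h2.2
  have hm : ∀ i, MeasurableSet (Aoth i ∩ sh [i] ⁻¹' {Z | Survives Z}) := fun i =>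
    (ms_Aoth i).inter (measurable_sh _ ms_survives)
  have e1 : (∑' i, GW0 μ (Aoth i)) * sv μ =
      GW0 μ (⋃ i, Aoth i ∩ sh [i] ⁻¹' {Z | Survives Z}) := by
    rw [measure_iUnion hd hm, ← ENNReal.tsum_mul_right]
    congr 1
    ext i
    rw [meas_child μ i (ms_Aoth i) ms_survives (mix_Aoth i), sv]
  have e2 : GW0 μ (⋃ i, Aoth i ∩ sh [i] ⁻¹' {Z | Survives Z}) + GW0 μ {Z | 2 ≤ kk Z} ≤ sv μ := by
    rw [← measure_union _ (ms_kk _)]
    · refine measure_mono ?_
      rintro Z (hZ | hZ)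
      · obtain ⟨i, hi⟩ := mem_iUnion.1 hZ
        exact survives_iff.2 ⟨i, hi.1.1, hi.2⟩
      · exact kk_pos.1 (lt_of_lt_of_le (by norm_num) hZ)
    · classical
      rw [Set.disjoint_left]
      intro Z hZ h
      obtain ⟨i, hi⟩ := mem_iUnion.1 hZ
      have : ((Finset.range (Z [])).filter fun i => Survives (sh [i] Z)) ⊆ {i} := by
        intro j hj
        simp only [Finset.mem_filter, Finset.mem_range] at hj
        by_contra hne
        exact hi.1.2 j hj.1 (by simpa using hne) hj.2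
      have := Finset.card_le_card this
      simp only [kk, mem_ofPred_eq] at h
      simp only [Finset.card_singleton] at this
      omega
  by_contra hc
  push Not at hc
  have h3 : sv μ + GW0 μ {Z | 2 ≤ kk Z} ≤ sv μ := by
    refine le_trans ?_ e2
    gcongr
    rw [← e1]
    exact le_mul_of_one_le_left' hc
  exact absurd h3 (not_le.2 (ENNReal.lt_add_right (sv_ne_top μ) hp))

/-- probability that the tree is finite and contains `v` -/
noncomputable def pv (v : V) : ℝ≥0∞ := GW0 μ {Z | ¬ Survives Z ∧ InTree Z v}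

lemma ms_pv (v : V) : MeasurableSet {Z : V → ℕ | ¬ Survives Z ∧ InTree Z v} :=
  ms_survives.compl.inter (ms_inTree v)

lemma pv_concat (u : V) (i : ℕ) : pv μ (u ++ [i]) = GW0 μ (Aoth i) * pv μ u := by
  rw [pv, pv, ← meas_child μ i (ms_Aoth i) (ms_pv u) (mix_Aoth i)]
  congr 1
  ext Z
  simp only [mem_ofPred_eq, mem_inter_iff, mem_preimage, Aoth, inTree_append, inTree_single,
    survives_iff (Z := Z)]
  constructor
  · rintro ⟨h1, h2, h3⟩
    push Not at h1
    exact ⟨⟨h2, fun j hj _ => h1 j hj⟩, h1 i h2, h3⟩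
  · rintro ⟨⟨h1, h2⟩, h3, h4⟩
    refine ⟨?_, h1, h4⟩
    rintro ⟨j, hj, hs⟩
    by_cases h : j = i
    · exact h3 (h ▸ hs)
    · exact h2 j hj h hs

lemma beta_ne_top (h2 : μ {n | 2 ≤ n} ≠ 0) (hs : sv μ ≠ 0) : ∑' v, pv μ v ≠ ⊤ := by
  have hθ := theta_lt μ h2 hs
  set θ := ∑' i, GW0 μ (Aoth i) with hθd
  have hB : ∀ n : ℕ, ∑' v : V, (if v.length = n then pv μ v else 0) ≤ θ ^ n := by
    intro n
    induction n with
    | zero =>
      rw [tsum_eq_single ([] : V)]
      · simp only [List.length_nil, if_true, pow_zero]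
        exact prob_le_one
      · intro v hv
        simp [hv]
    | succ n ih =>
      rw [tsum_list]
      simp only [List.length_nil, List.length_append, List.length_singleton,
        Nat.add_right_cancel_iff, pv_concat]
      rw [if_neg (by omega), zero_add, pow_succ', hθd, ← ENNReal.tsum_mul_right]
      refine ENNReal.tsum_le_tsum fun i => ?_
      refine le_trans ?_ (mul_le_mul_right ih _)
      rw [← ENNReal.tsum_mul_left]
      refine ENNReal.tsum_le_tsum fun u => ?_
      split_ifs <;> simp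
  have : ∑' v, pv μ v = ∑' n : ℕ, ∑' v : V, (if v.length = n then pv μ v else 0) := by
    rw [ENNReal.tsum_comm]
    congr 1
    ext v
    rw [tsum_eq_single v.length]
    · simp
    · intro n hn
      simp [Ne.symm hn]
  rw [this]
  refine ne_top_of_le_ne_top ?_ (ENNReal.tsum_le_tsum hB)
  rw [ENNReal.tsum_geometric]
  simpa [tsub_eq_zero_iff_le] using hθ

open Classical in
/-- number of children other than `i` with infinite subtrees -/
noncomputable def kmi (i : ℕ) (Z : V → ℕ) : ℕ :=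
  ((Finset.range (Z [])).filter fun j => j ≠ i ∧ Survives (sh [j] Z)).card

lemma disc_kmi (i : ℕ) : Disc (kmi i) := by
  classical
  have : Disc fun Z : V → ℕ =>
      (Finset.range (Z [])).filter fun j => j ≠ i ∧ Survives (sh [j] Z) := by
    refine disc_finset fun j => ?_
    simp only [Finset.mem_filter, Finset.mem_range]
    exact (ms_lt j []).inter ((MeasurableSet.const _).inter (ms_survives_sh _))
  exact this.map Finset.card

lemma kmi_mix (i : ℕ) (x y : V → ℕ) : kmi i (mix (Dw [i]) x y) = kmi i x := by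
  classical
  unfold kmi
  rw [mix_root]
  congr 1
  refine Finset.filter_congr fun j _ => and_congr_right fun hj => ?_
  rw [sh_mix_ne hj]

lemma kk_eq_kmi {i : ℕ} {Z : V → ℕ} (h : ¬ Survives (sh [i] Z)) : kk Z = kmi i Z := by
  classical
  unfold kk kmi
  congr 1
  refine Finset.filter_congr fun j _ => ⟨fun hj => ⟨?_, hj⟩, fun hj => hj.2⟩
  rintro rfl
  exact h hj

lemma kk_eq_kmi_succ {i : ℕ} {Z : V → ℕ} (hi : i < Z []) (h : Survives (sh [i] Z)) :
    kk Z = kmi i Z + 1 := by
  classical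
  unfold kk kmi
  rw [← Finset.card_insert_of_notMem (a := i) (by simp)]
  congr 1
  ext j
  simp only [Finset.mem_filter, Finset.mem_range, Finset.mem_insert]
  by_cases hj : j = i
  · subst hj; simp [hi, h]
  · simp [hj]

lemma ik_le (k : ℕ) : ik k ≤ 2 * ((k : ℝ≥0∞) + 1)⁻¹ := by
  unfold ik
  split_ifs with h
  · simp
  · have h1 : (1 : ℝ≥0∞) ≤ k := by exact_mod_cast Nat.one_le_iff_ne_zero.2 h
    have : ((k : ℝ≥0∞))⁻¹ = 2 * (2 * (k : ℝ≥0∞))⁻¹ := by
      rw [ENNReal.mul_inv (by simp) (by simp), ← mul_assoc,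
        ENNReal.mul_inv_cancel (by simp) (by simp), one_mul]
    rw [this]
    gcongr
    rw [two_mul]
    gcongr

open Classical in
lemma dsum_le : (∑' i, ∫⁻ Z, (if i < Z [] then ((kmi i Z : ℝ≥0∞) + 1)⁻¹ else 0) ∂(GW0 μ)) * sv μ
    ≤ 1 := by
  have hm : ∀ i, Measurable fun Z : V → ℕ =>
      (if i < Z [] then ((kmi i Z : ℝ≥0∞) + 1)⁻¹ else 0) := fun i =>
    Measurable.ite (ms_lt i []) ((disc_kmi i).measurable (g := fun k _ => ((k : ℝ≥0∞) + 1)⁻¹)
      fun _ => measurable_const) measurable_const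
  have hG : Measurable ({Z : V → ℕ | Survives Z}.indicator (1 : (V → ℕ) → ℝ≥0∞)) :=
    measurable_one.indicator ms_survives
  rw [← ENNReal.tsum_mul_right, sv, ← lintegral_indicator_one ms_survives]
  have : ∀ i, (∫⁻ Z, (if i < Z [] then ((kmi i Z : ℝ≥0∞) + 1)⁻¹ else 0) ∂(GW0 μ)) *
      ∫⁻ Z, {Z : V → ℕ | Survives Z}.indicator 1 Z ∂(GW0 μ) =
      ∫⁻ Z, (if i < Z [] then ((kmi i Z : ℝ≥0∞) + 1)⁻¹ else 0) *
        {Z : V → ℕ | Survives Z}.indicator 1 (sh [i] Z) ∂(GW0 μ) := fun i =>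
    (lint_child μ i (hm i) hG fun x y => by rw [mix_root, kmi_mix]).symm
  simp only [this]
  rw [← lintegral_tsum fun i => ((hm i).fun_mul (hG.fun_comp (measurable_sh _))).aemeasurable]
  calc _ ≤ ∫⁻ _Z, 1 ∂(GW0 μ) := lintegral_mono fun Z => ?_
    _ = 1 := by simp
  dsimp only
  rw [tsum_eq_sum (s := (Finset.range (Z [])).filter fun i => Survives (sh [i] Z))]
  · rw [Finset.sum_congr rfl (g := fun _ => (kk Z : ℝ≥0∞)⁻¹)]
    · rw [Finset.sum_const, nsmul_eq_mul]
      exact ENNReal.mul_inv_le_one _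
    · intro i hi
      simp only [Finset.mem_filter, Finset.mem_range] at hi
      simp [hi.1, hi.2, kk_eq_kmi_succ hi.1 hi.2]
  · intro i hi
    simp only [Finset.mem_filter, Finset.mem_range, not_and] at hi
    by_cases h : i < Z []
    · simp [hi h]
    · simp [h]

open Classical in
/-- size of the cell -/
noncomputable def csz (Z : V → ℕ) : ℝ≥0∞ := ∑' v, if v ∈ cellSet Z then 1 else 0

lemma measurable_csz : Measurable csz :=
  Measurable.tsum fun v => Measurable.ite (ms_cellSet v) measurable_const measurable_const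

open Classical in
lemma m0_ne_top (h2 : μ {n | 2 ≤ n} ≠ 0) (hs : sv μ ≠ 0) :
    ∫⁻ Z, ik (kk Z) * csz Z ∂(GW0 μ) ≠ ⊤ := by
  have hβ := beta_ne_top μ h2 hs
  have hd := dsum_le μ
  set d : ℕ → ℝ≥0∞ := fun i =>
    ∫⁻ Z, (if i < Z [] then ((kmi i Z : ℝ≥0∞) + 1)⁻¹ else 0) ∂(GW0 μ) with hdd
  have hd' : ∑' i, d i ≠ ⊤ := by
    intro h
    rw [h, ENNReal.top_mul hs] at hd
    simp at hd
  have hm : ∀ i, Measurable fun Z : V → ℕ =>
      (if i < Z [] then ((kmi i Z : ℝ≥0∞) + 1)⁻¹ else 0) := fun i =>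
    Measurable.ite (ms_lt i []) ((disc_kmi i).measurable (g := fun k _ => ((k : ℝ≥0∞) + 1)⁻¹)
      fun _ => measurable_const) measurable_const
  have e1 : ∫⁻ Z, ik (kk Z) * csz Z ∂(GW0 μ) =
      ∑' v, ∫⁻ Z, ik (kk Z) * (if v ∈ cellSet Z then 1 else 0) ∂(GW0 μ) := by
    rw [← lintegral_tsum fun v => ((measurable_kk ik).fun_mul (Measurable.ite (ms_cellSet v)
      measurable_const measurable_const)).aemeasurable]
    congr 1
    ext Z
    rw [csz, ← ENNReal.tsum_mul_left]
  have e2 : ∀ i u, ∫⁻ Z, ik (kk Z) * (if u ++ [i] ∈ cellSet Z then 1 else 0) ∂(GW0 μ) ≤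
      2 * (d i * pv μ u) := by
    intro i u
    have hG : Measurable ({Z : V → ℕ | ¬ Survives Z ∧ InTree Z u}.indicator
        (1 : (V → ℕ) → ℝ≥0∞)) := measurable_one.indicator (ms_pv u)
    rw [pv, ← lintegral_indicator_one (ms_pv u), hdd,
      ← lint_child μ i (hm i) hG (fun x y => by rw [mix_root, kmi_mix]),
      ← lintegral_const_mul' _ _ (by simp)]
    refine lintegral_mono fun Z => ?_
    dsimp only
    by_cases h : u ++ [i] ∈ cellSet Z
    · rcases h with h | ⟨u', i', h, h1, h2, h3⟩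
      · simp at h
      · have := List.append_inj' h rfl
        simp only [List.cons.injEq, and_true] at this
        obtain ⟨rfl, rfl⟩ := this
        have h4 : u ++ [i] ∈ cellSet Z := Or.inr ⟨u, i, rfl, h1, h2, h3⟩
        simp only [h4, if_true, mul_one, h1, indicator,
          mem_ofPred_eq, h2, h3, not_false_eq_true, and_self, Pi.one_apply, kk_eq_kmi h2]
        exact ik_le _
    · simp [h]
  rw [e1, tsum_list]
  refine ENNReal.add_ne_top.2 ⟨?_, ?_⟩
  · refine ne_top_of_le_ne_top (b := ∫⁻ _Z, 1 ∂(GW0 μ)) (by simp) (lintegral_mono fun Z => ?_)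
    dsimp only
    split_ifs
    · simpa using ik_le_one _
    · simp
  · refine ne_top_of_le_ne_top ?_
      (ENNReal.tsum_le_tsum fun i => ENNReal.tsum_le_tsum fun u => e2 i u)
    simp only [ENNReal.tsum_mul_left, ENNReal.tsum_mul_right]
    exact ENNReal.mul_ne_top (by simp) (ENNReal.mul_ne_top hd' hβ)

end Pool.Agent.H109Z.FrogGW
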