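import Pool.Agent.H109Z.Frog.Proc

set_option autoImplicit false

namespace Pool.Agent.H109Z.FrogGW

open MeasureTheory ProbabilityTheory Set
open scoped NNReal ENNReal

variable (μ : Measure ℕ) [IsProbabilityMeasure μ]

/-- law of the particle numbers -/
noncomputable abbrev QN (lam : ℝ≥0) : Measure (V → ℕ) :=
  Measure.infinitePi fun _ : V => poissonMeasure lam

/-- law of the driving variables -/
noncomputable abbrev QU : Measure (Frog × ℕ → ℝ) := Measure.infinitePi fun _ : Frog × ℕ => unif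

/-- joint law -/
noncomputable abbrev PP (lam : ℝ≥0) : Measure Om := (GW0 μ).prod ((QN lam).prod QU)

noncomputable def TU (p : Frog × ℕ) (ω : Om) (η : Frog × ℕ → ℝ) : Om :=
  (ω.1, (ω.2.1, mix {p} ω.2.2 η))

lemma mp_TU (lam : ℝ≥0) (p : Frog × ℕ) :
    MeasurePreserving (fun q : Om × (Frog × ℕ → ℝ) => TU p q.1 q.2) ((PP μ lam).prod QU)
      (PP μ lam) :=
  mp_right (GW0 μ) (mp_right (QN lam) (mp_mix unif {p}))

lemma agree_TU {ω ω' : Om} {σ : St} {f : Frog} {t : ℕ} (ht : σ.2.count f = t)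
    (h1 : ω'.1 = ω.1) (h2 : ω'.2.1 = ω.2.1) (h3 : ∀ q, q ≠ (f, t) → ω'.2.2 q = ω.2.2 q) :
    Agree ω ω' σ := by
  refine ⟨fun v _ => by rw [h1], fun v _ => by rw [h2], fun g s hs => h3 _ ?_,
    fun v _ => by rw [h1]⟩
  intro h
  simp only [Prod.mk.injEq] at h
  obtain ⟨rfl, rfl⟩ := h
  omega

lemma inv_bounds {r : ℝ} (hr : 1 ≤ r) : ∀ _v : V, 0 < r⁻¹ ∧ r⁻¹ ≤ 1 := fun _ =>
  ⟨by positivity, inv_le_one_of_one_le₀ hr⟩

lemma tsum_split (F : Frog → ℝ≥0∞) (f : Frog) :
    ∑' g, F g = F f + ∑' g, if g = f then 0 else F g := by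
  rw [ENNReal.tsum_eq_add_tsum_ite f]
  congr
  ext g
  split_ifs <;> rfl

open Classical in
lemma move_inner {r : ℝ} (hr : 1 ≤ r) (a : ℕ → Frog) (j t : ℕ) (ω : Om) :
    ∫⁻ η, (if cl (TU (a j, t) ω η) (st a (TU (a j, t) ω η) j) (a j) = some (Sum.inl t)
      then HH r a (j + 1) (TU (a j, t) ω η) else 0) ∂QU ≤
    ∫⁻ η, (if cl (TU (a j, t) ω η) (st a (TU (a j, t) ω η) j) (a j) = some (Sum.inl t)
      then HH r a j (TU (a j, t) ω η) else 0) ∂QU := by
  set f := a j with hf
  have hoff : ∀ η q, q ≠ (f, t) → (TU (f, t) ω η).2.2 q = ω.2.2 q := fun η q hq =>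
    mix_not_mem _ _ (by simpa using hq)
  by_cases h : Survives ω.1 ∧ cl ω (st a ω j) f = some (Sum.inl t)
  · obtain ⟨hs, hc⟩ := h
    set σ := st a ω j with hσ
    have hI : Inv ω σ := inv_st a ω j
    obtain ⟨haw, hp, ht, -⟩ := cl_inl hc
    have hag : ∀ η, Agree ω (TU (f, t) ω η) σ := fun η => agree_TU ht rfl rfl (hoff η)
    have hst : ∀ η, st a (TU (f, t) ω η) j = σ := fun η => st_local a j (hag η)
    have hcl : ∀ η, cl (TU (f, t) ω η) σ f = some (Sum.inl t) := fun η => by
      rw [(hag η).cl hI, hc]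
    have hR : ∀ η, HH r a j (TU (f, t) ω η) = Phi r ω σ := fun η => by
      rw [HH, if_pos (by exact hs), hst, (hag η).phi hI]
    have hL : ∀ η, HH r a (j + 1) (TU (f, t) ω η) =
        ENNReal.ofReal (psi ω.1 σ.1 (fun _ => r⁻¹) (step ω.1 (pos ω σ f) (η (f, t)))) +
          ((dep ω σ f + cz ω.1 (pos ω σ f)) + ∑' g, if g = f then 0 else term r ω σ g) := by
      intro η
      rw [HH, if_pos (by exact hs)]
      simp only [st]
      rw [hst, ← hf, (cl_inl (hcl η)).2.2.2, Phi, ENNReal.tsum_eq_add_tsum_ite f, ← add_assoc]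
      congr 1
      · have e1 : walk (TU (f, t) ω η).1 (TU (f, t) ω η).2.2 f (σ.2.count f) = pos ω σ f :=
          (hag η).pos hI f
        have e2 := (hag η).dep hI f
        unfold term
        rw [if_pos (((hag η).awake f).2 haw)]
        unfold dep at e2 ⊢
        unfold pos
        simp only [Multiset.count_cons_self, Finset.sum_range_succ, walk]
        rw [e1, e2, ht]
        have e3 : (TU (f, t) ω η).2.2 (f, t) = η (f, t) := mix_mem _ _ (by simp)
        rw [e3, ← ht]
        rfl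
      · congr 1
        ext g
        split_ifs with hg
        · rfl
        · rw [← (hag η).term hI r g]
          unfold term dep pos
          simp only [Multiset.count_cons_of_ne hg]
    simp only [hst, hcl, if_true, hR, hL]
    have hm : Measurable fun u : ℝ =>
        ENNReal.ofReal (psi ω.1 σ.1 (fun _ => r⁻¹) (step ω.1 (pos ω σ f) u)) :=
      (disc_step ω.1 (pos ω σ f)).measurable
        (g := fun x _ => ENNReal.ofReal (psi ω.1 σ.1 (fun _ => r⁻¹) x)) fun _ => measurable_const
    rw [lintegral_add_right _ measurable_const,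
      (measurePreserving_eval_infinitePi (fun _ : Frog × ℕ => unif) (f, t)).lintegral_comp hm]
    simp only [lintegral_const, measure_univ, mul_one]
    rw [Phi, tsum_split (term r ω σ) f, ← add_assoc, add_comm (dep ω σ f), ← add_assoc,
      move_int (inv_bounds hr) hs hp, term, if_pos haw]
  · refine le_of_eq_of_le (lintegral_congr (g := fun _ => 0) fun η => ?_) (by simp)
    split_ifs with hc
    · rw [HH, if_neg]
      intro hs
      refine h ⟨hs, ?_⟩
      have hag : Agree (TU (f, t) ω η) ω (st a (TU (f, t) ω η) j) :=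
        agree_TU (cl_inl hc).2.2.1 rfl rfl fun q hq => (hoff η q hq).symm
      rw [st_local a j hag, hag.cl (inv_st a _ j), hc]
    · rfl

open Classical in
lemma move_step {r : ℝ} (hr : 1 ≤ r) (lam : ℝ≥0) (a : ℕ → Frog) (j t : ℕ) :
    ∫⁻ ω, (if cl ω (st a ω j) (a j) = some (Sum.inl t) then HH r a (j + 1) ω else 0) ∂(PP μ lam) ≤
    ∫⁻ ω, (if cl ω (st a ω j) (a j) = some (Sum.inl t) then HH r a j ω else 0) ∂(PP μ lam) := by
  rw [lint_resample (mp_TU μ lam (a j, t))
      (Measurable.ite (disc_cls a j _) (measurable_HH r a (j + 1)) measurable_const),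
    lint_resample (mp_TU μ lam (a j, t))
      (Measurable.ite (disc_cls a j _) (measurable_HH r a j) measurable_const)]
  exact lintegral_mono fun ω => move_inner hr a j t ω

end Pool.Agent.H109Z.FrogGW
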