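import Pool.Agent.H109Z.Frog.Moments

set_option autoImplicit false

namespace Pool.Agent.H109Z.FrogGW

open MeasureTheory ProbabilityTheory Set
open scoped NNReal ENNReal

/-- effective conductance from the parent of `v` to the ground through `v` -/
noncomputable def gam (Z : V → ℕ) (S : Finset V) (β : V → ℝ) (v : V) : ℝ :=
  if _h : v ∈ S then
    (∑ i ∈ Finset.range (Z v), gam Z S β (i :: v)) /
      (1 + ∑ i ∈ Finset.range (Z v), gam Z S β (i :: v))
  else β v
termination_by S.sup List.length + 1 - v.length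
decreasing_by
  all_goals
    have := Finset.le_sup (f := List.length) _h
    simp only [List.length_cons]
    omega

/-- conductance from `v` to the ground through its children -/
noncomputable def CC (Z : V → ℕ) (S : Finset V) (β : V → ℝ) (v : V) : ℝ :=
  ∑ i ∈ Finset.range (Z v), gam Z S β (i :: v)

lemma gam_mem {Z : V → ℕ} {S : Finset V} {β : V → ℝ} {v : V} (h : v ∈ S) :
    gam Z S β v = CC Z S β v / (1 + CC Z S β v) := by
  rw [gam, dif_pos h, CC]

lemma gam_not_mem {Z : V → ℕ} {S : Finset V} {β : V → ℝ} {v : V} (h : v ∉ S) :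
    gam Z S β v = β v := by
  rw [gam, dif_neg h]

lemma S_induct (S : Finset V) (P : V → Prop) (h1 : ∀ v, v ∉ S → P v)
    (h2 : ∀ v ∈ S, (∀ i, P (i :: v)) → P v) : ∀ v, P v := by
  intro v
  induction h : S.sup List.length + 1 - v.length using Nat.strong_induction_on generalizing v with
  | _ n ih =>
    by_cases hv : v ∈ S
    · refine h2 v hv fun i => ih _ ?_ _ rfl
      have := Finset.le_sup (f := List.length) hv
      simp only [List.length_cons]
      omega
    · exact h1 v hv

lemma gam_bounds {Z : V → ℕ} {S : Finset V} {β : V → ℝ} (hβ : ∀ v, 0 ≤ β v ∧ β v ≤ 1) :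
    ∀ v, 0 ≤ gam Z S β v ∧ gam Z S β v ≤ 1 := by
  refine S_induct S _ (fun v hv => by rw [gam_not_mem hv]; exact hβ v) fun v hv ih => ?_
  have hC : 0 ≤ CC Z S β v := Finset.sum_nonneg fun i _ => (ih i).1
  rw [gam_mem hv]
  refine ⟨by positivity, ?_⟩
  rw [div_le_one (by positivity)]
  linarith

lemma CC_nonneg {Z : V → ℕ} {S : Finset V} {β : V → ℝ} (hβ : ∀ v, 0 ≤ β v ∧ β v ≤ 1) (v : V) :
    0 ≤ CC Z S β v := Finset.sum_nonneg fun _ _ => (gam_bounds hβ _).1

lemma gam_congr {Z Z' : V → ℕ} {S : Finset V} {β : V → ℝ} (h : ∀ v ∈ S, Z v = Z' v) :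
    ∀ v, gam Z S β v = gam Z' S β v := by
  refine S_induct S _ (fun v hv => by rw [gam_not_mem hv, gam_not_mem hv]) fun v hv ih => ?_
  have : CC Z S β v = CC Z' S β v := by
    unfold CC
    rw [h v hv]
    exact Finset.sum_congr rfl fun i _ => ih i
  rw [gam_mem hv, gam_mem hv, this]

lemma gam_pos_of_child {Z : V → ℕ} {S : Finset V} {β : V → ℝ} (hβ : ∀ v, 0 ≤ β v ∧ β v ≤ 1)
    {v : V} {i : ℕ} (hi : i < Z v) (h : 0 < gam Z S β (i :: v)) : 0 < CC Z S β v :=
  lt_of_lt_of_le h (Finset.single_le_sum (f := fun i => gam Z S β (i :: v))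
    (fun _ _ => (gam_bounds hβ _).1) (Finset.mem_range.2 hi))

lemma gam_pos {Z : V → ℕ} {S : Finset V} {β : V → ℝ} (hβ : ∀ v, 0 < β v ∧ β v ≤ 1) :
    ∀ v, Survives (sh v Z) → 0 < gam Z S β v := by
  refine S_induct S _ (fun v hv _ => by rw [gam_not_mem hv]; exact (hβ v).1) fun v hv ih hs => ?_
  obtain ⟨i, hi, h⟩ := survives_child hs
  have := gam_pos_of_child (fun v => ⟨(hβ v).1.le, (hβ v).2⟩) hi (ih i h)
  rw [gam_mem hv]
  positivity

lemma gam_update {Z : V → ℕ} {S : Finset V} {β : V → ℝ} (w : V) (g : ℝ) :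
    ∀ x, ¬ x <:+ w → gam Z S (Function.update β w g) x = gam Z S β x := by
  refine S_induct S _ (fun v hv h => ?_) fun v hv ih h => ?_
  · rw [gam_not_mem hv, gam_not_mem hv, Function.update_of_ne]
    rintro rfl
    exact h (List.suffix_refl _)
  · have : CC Z S (Function.update β w g) v = CC Z S β v :=
      Finset.sum_congr rfl fun i _ => ih i fun h' => h ((List.suffix_cons i v).trans h')
    rw [gam_mem hv, gam_mem hv, this]

lemma gam_reveal {Z Z' : V → ℕ} {S : Finset V} {β : V → ℝ} {w : V}
    (hS : ∀ v ∈ S, ¬ w <:+ v) (hZ : ∀ v ∈ S, Z v = Z' v) :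
    ∀ v, (w <:+ v → v = w) → gam Z' (S ∪ cell Z' w) β v =
      gam Z S (Function.update β w (gam Z' (S ∪ cell Z' w) β w)) v := by
  classical
  have hw : w ∉ S := fun h => hS w h (List.suffix_refl _)
  refine S_induct (S ∪ cell Z' w) _ (fun v hv _ => ?_) fun v hv ih h => ?_
  · have h1 : v ∉ S := fun h => hv (Finset.mem_union_left _ h)
    have h2 : v ≠ w := by
      rintro rfl
      exact hv (Finset.mem_union_right _ (self_mem_cell _ _))
    rw [gam_not_mem hv, gam_not_mem h1, Function.update_of_ne h2]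
  · by_cases hvw : v = w
    · subst hvw
      rw [gam_not_mem hw, Function.update_self]
    · have h1 : ¬ w <:+ v := fun h' => hvw (h h')
      have h2 : v ∈ S := by
        rcases Finset.mem_union.1 hv with h' | h'
        · exact h'
        · exact absurd (suffix_of_mem_cell h') h1
      have : CC Z' (S ∪ cell Z' w) β v =
          CC Z S (Function.update β w (gam Z' (S ∪ cell Z' w) β w)) v := by
        unfold CC
        rw [hZ v h2]
        refine Finset.sum_congr rfl fun i _ => ih i fun h' => ?_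
        rcases List.suffix_cons_iff.1 h' with h' | h'
        · exact h'.symm
        · exact absurd h' h1
      rw [gam_mem hv, gam_mem h2, this]

lemma gam_bush {Z : V → ℕ} {S : Finset V} {β : V → ℝ} {w : V} {i : ℕ} (hi : i < Z w)
    (hs : ¬ Survives (sh (i :: w) Z)) :
    ∀ v, (∃ u, v = u ++ i :: w ∧ InTree (sh (i :: w) Z) u) → gam Z (S ∪ cell Z w) β v = 0 := by
  classical
  refine S_induct (S ∪ cell Z w) _ (fun v hv h => ?_) fun v hv ih h => ?_
  · obtain ⟨u, rfl, hu⟩ := h
    exact absurd (Finset.mem_union_right _ (mem_cell'.2 (Or.inr ⟨u, i, rfl, hi, hs, hu⟩))) hv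
  · obtain ⟨u, rfl, hu⟩ := h
    have : CC Z (S ∪ cell Z w) β (u ++ i :: w) = 0 :=
      Finset.sum_eq_zero fun j hj => ih j ⟨j :: u, rfl, inTree_cons.2 ⟨hu, Finset.mem_range.1 hj⟩⟩
    rw [gam_mem hv, this]
    simp

lemma gam_new {Z : V → ℕ} {S : Finset V} {w : V} (c : ℝ) (hS : ∀ v ∈ S, ¬ w <:+ v) :
    gam Z (S ∪ cell Z w) (fun _ => c) w = (kk (sh w Z) * c) / (1 + kk (sh w Z) * c) := by
  classical
  have : CC Z (S ∪ cell Z w) (fun _ => c) w = kk (sh w Z) * c := by
    unfold CC kk
    rw [Finset.card_filter, Nat.cast_sum, Finset.sum_mul]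
    refine Finset.sum_congr (by simp [sh]) fun i hi => ?_
    have hi' : i < Z w := by simpa [sh] using hi
    rw [sh_sh]
    by_cases hs : Survives (sh (i :: w) Z)
    · have : i :: w ∉ S ∪ cell Z w := by
        intro h
        rcases Finset.mem_union.1 h with h | h
        · exact hS _ h (List.suffix_cons i w)
        · rcases mem_cell'.1 h with h | ⟨u, j, h, h1, h2, h3⟩
          · exact List.cons_ne_self i w h
          · have hl := congrArg List.length h
            simp only [List.length_cons, List.length_append] at hl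
            have hu : u = [] := List.length_eq_zero_iff.1 (by omega)
            subst hu
            simp only [List.nil_append, List.cons.injEq, and_true] at h
            subst h
            exact h2 hs
      rw [gam_not_mem this]
      simp [hs]
    · rw [gam_bush hi' hs (i :: w) ⟨[], rfl, InTree.root⟩]
      simp [hs]
  rw [gam_mem (Finset.mem_union_right _ (self_mem_cell _ _)), this]

/-- voltage for a unit current entering at the root -/
noncomputable def psi (Z : V → ℕ) (S : Finset V) (β : V → ℝ) : V → ℝ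
  | [] => (1 - gam Z S β []) / gam Z S β []
  | i :: x => psi Z S β x * (1 - gam Z S β (i :: x))

lemma psi_nonneg {Z : V → ℕ} {S : Finset V} {β : V → ℝ} (hβ : ∀ v, 0 ≤ β v ∧ β v ≤ 1) (x : V) :
    0 ≤ psi Z S β x := by
  induction x with
  | nil =>
    have := gam_bounds (Z := Z) (S := S) hβ []
    exact div_nonneg (by linarith) this.1
  | cons i x ih =>
    have := gam_bounds (Z := Z) (S := S) hβ (i :: x)
    exact mul_nonneg ih (by linarith)

lemma psi_le {Z : V → ℕ} {S : Finset V} {β : V → ℝ} (hβ : ∀ v, 0 ≤ β v ∧ β v ≤ 1) {w v : V}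
    (h : w <:+ v) : psi Z S β v ≤ psi Z S β w := by
  obtain ⟨u, rfl⟩ := h
  induction u with
  | nil => simp
  | cons i u ih =>
    have := gam_bounds (Z := Z) (S := S) hβ (i :: (u ++ w))
    have h0 := psi_nonneg (Z := Z) (S := S) hβ (u ++ w)
    refine le_trans ?_ ih
    simp only [List.cons_append, psi]
    nlinarith

lemma psi_congr {Z Z' : V → ℕ} {S S' : Finset V} {β β' : V → ℝ} : ∀ x : V,
    (∀ v, v <:+ x → gam Z S β v = gam Z' S' β' v) → psi Z S β x = psi Z' S' β' x := by
  intro x
  induction x with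
  | nil => intro h; simp only [psi, h [] (List.suffix_refl _)]
  | cons i x ih =>
    intro h
    simp only [psi, h _ (List.suffix_refl _), ih fun v hv => h v (hv.trans (List.suffix_cons i x))]

lemma harm_cons {Z : V → ℕ} {S : Finset V} {β : V → ℝ} (hβ : ∀ v, 0 ≤ β v ∧ β v ≤ 1) {j : ℕ}
    {y : V} (h : j :: y ∈ S) :
    ∑ i ∈ Finset.range (Z (j :: y)), psi Z S β (i :: j :: y) + psi Z S β y =
      (Z (j :: y) + 1) * psi Z S β (j :: y) := by
  have hC := CC_nonneg (Z := Z) (S := S) hβ (j :: y)
  have e1 : ∑ i ∈ Finset.range (Z (j :: y)), psi Z S β (i :: j :: y) =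
      psi Z S β (j :: y) * (Z (j :: y) - CC Z S β (j :: y)) := by
    simp only [psi, CC]
    rw [← Finset.mul_sum, Finset.sum_sub_distrib]
    simp
  have e2 : psi Z S β y = psi Z S β (j :: y) * (1 + CC Z S β (j :: y)) := by
    simp only [psi]
    rw [gam_mem h]
    field_simp
    ring
  rw [e1, e2]
  ring

lemma harm_root {Z : V → ℕ} {S : Finset V} {β : V → ℝ} (hβ : ∀ v, 0 < β v ∧ β v ≤ 1)
    (hs : Survives Z) (h : [] ∈ S) :
    ∑ i ∈ Finset.range (Z []), psi Z S β [i] + 1 = Z [] * psi Z S β [] := by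
  obtain ⟨i, hi, hi'⟩ := survives_iff.1 hs
  have hC := gam_pos_of_child (S := S) (fun v => ⟨(hβ v).1.le, (hβ v).2⟩) hi (gam_pos hβ _ hi')
  have e1 : ∑ i ∈ Finset.range (Z []), psi Z S β [i] =
      psi Z S β [] * (Z [] - CC Z S β []) := by
    have : ∀ i, psi Z S β [i] = psi Z S β [] * (1 - gam Z S β [i]) := fun i => rfl
    simp only [this, CC]
    rw [← Finset.mul_sum, Finset.sum_sub_distrib]
    simp
  have e2 : psi Z S β [] * CC Z S β [] = 1 := by
    simp only [psi]
    rw [gam_mem h]
    field_simp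
    ring
  rw [e1]
  linarith

lemma upd_bounds {β : V → ℝ} (hβ : ∀ v, 0 ≤ β v ∧ β v ≤ 1) (w : V) {g : ℝ} (h0 : 0 ≤ g)
    (h1 : g ≤ 1) : ∀ v, 0 ≤ Function.update β w g v ∧ Function.update β w g v ≤ 1 := by
  intro v
  by_cases h : v = w
  · subst h; simp [h0, h1]
  · rw [Function.update_of_ne h]; exact hβ v

section Mobius

variable {Z : V → ℕ} {S : Finset V} {β : V → ℝ} {w : V}

lemma gam_path_pos (hβ : ∀ v, 0 ≤ β v ∧ β v ≤ 1) (hw : w ∉ S) (hT : InTree Z w)
    (hA : ∀ y, y <:+ w → y ≠ w → y ∈ S) {g : ℝ} (h0 : 0 < g) (h1 : g ≤ 1) :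
    ∀ u y : V, u ++ y = w → 0 < gam Z S (Function.update β w g) y := by
  intro u
  induction u using List.reverseRecOn with
  | nil =>
    intro y hy
    simp only [List.nil_append] at hy
    subst hy
    rw [gam_not_mem hw, Function.update_self]
    exact h0
  | append_singleton u i ih =>
    intro y hy
    have hy' : u ++ i :: y = w := by simpa using hy
    have hi : i < Z y := by
      rw [← hy', inTree_append, inTree_cons] at hT
      exact hT.1.2
    have hyS : y ∈ S := by
      refine hA y ⟨_, hy⟩ ?_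
      rintro rfl
      have := congrArg List.length hy'
      simp only [List.length_append, List.length_cons] at this
      omega
    have := gam_pos_of_child (upd_bounds hβ w h0.le h1) hi (ih _ hy')
    rw [gam_mem hyS]
    positivity

lemma mobius_path (hβ : ∀ v, 0 ≤ β v ∧ β v ≤ 1) (hw : w ∉ S) (hT : InTree Z w)
    (hA : ∀ y, y <:+ w → y ≠ w → y ∈ S) : ∀ y : V, y <:+ w →
    ∃ A B : ℝ, 0 ≤ A ∧ 0 ≤ B ∧ 0 < A + B ∧
      (∀ g, 0 < g → g ≤ 1 → psi Z S (Function.update β w g) y =
        (1 - gam Z S (Function.update β w g) y) / (A + B * gam Z S (Function.update β w g) y)) ∧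
      ∀ z, z <:+ y → ∃ a b : ℝ, 0 ≤ a ∧ 0 ≤ b ∧ ∀ g, 0 < g → g ≤ 1 →
        psi Z S (Function.update β w g) z = a + b * psi Z S (Function.update β w g) y := by
  intro y
  induction y with
  | nil =>
    intro _
    refine ⟨0, 1, le_rfl, zero_le_one, by norm_num, fun g _ _ => by simp [psi], fun z hz => ?_⟩
    rw [List.suffix_nil.1 hz]
    exact ⟨0, 1, le_rfl, zero_le_one, fun g _ _ => by simp⟩
  | cons i y ih =>
    intro hy
    obtain ⟨A, B, hA0, hB0, hAB, h1, h2⟩ := ih ((List.suffix_cons i y).trans hy)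
    obtain ⟨u, hu⟩ := hy
    have hi : i < Z y := by
      rw [← hu, inTree_append, inTree_cons] at hT
      exact hT.1.2
    have hyS : y ∈ S := by
      refine hA y ((List.suffix_cons i y).trans ⟨u, hu⟩) ?_
      rintro rfl
      have := congrArg List.length hu
      simp only [List.length_append, List.length_cons] at this
      omega
    set s := ∑ j ∈ (Finset.range (Z y)).erase i, gam Z S β (j :: y) with hs
    have hs0 : 0 ≤ s := Finset.sum_nonneg fun _ _ => (gam_bounds hβ _).1
    have hC : ∀ g, CC Z S (Function.update β w g) y =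
        gam Z S (Function.update β w g) (i :: y) + s := by
      intro g
      unfold CC
      rw [← Finset.add_sum_erase _ _ (Finset.mem_range.2 hi), hs]
      congr 1
      refine Finset.sum_congr rfl fun j hj => gam_update w g _ fun h => ?_
      have hne := (Finset.mem_erase.1 hj).1
      rcases List.suffix_or_suffix_of_suffix h ⟨u, hu⟩ with h' | h'
      · exact hne (by simpa using h'.eq_of_length rfl)
      · exact hne (by simpa using (h'.eq_of_length rfl).symm)
    have hy : ∀ g, 0 < g → g ≤ 1 → psi Z S (Function.update β w g) y =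
        1 / (A + (A + B) * s + (A + B) * gam Z S (Function.update β w g) (i :: y)) := by
      intro g h0 hg1
      have hp := gam_path_pos hβ hw hT hA h0 hg1 u _ hu
      rw [h1 g h0 hg1, gam_mem hyS, hC]
      have : 0 < A + (A + B) * s + (A + B) * gam Z S (Function.update β w g) (i :: y) := by
        positivity
      have h3 : 0 < 1 + (gam Z S (Function.update β w g) (i :: y) + s) := by positivity
      rw [div_eq_div_iff _ this.ne']
      · field_simp
        ring
      · have : A + B * ((gam Z S (Function.update β w g) (i :: y) + s) /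
            (1 + (gam Z S (Function.update β w g) (i :: y) + s))) =
            (A + (A + B) * s + (A + B) * gam Z S (Function.update β w g) (i :: y)) /
            (1 + (gam Z S (Function.update β w g) (i :: y) + s)) := by
          field_simp
          ring
        rw [this]
        positivity
    have hc : ∀ g, 0 < g → g ≤ 1 → psi Z S (Function.update β w g) (i :: y) =
        (1 - gam Z S (Function.update β w g) (i :: y)) /
          (A + (A + B) * s + (A + B) * gam Z S (Function.update β w g) (i :: y)) := by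
      intro g h0 hg1
      simp only [psi]
      rw [hy g h0 hg1]
      ring
    refine ⟨A + (A + B) * s, A + B, by positivity, hAB.le, by positivity, hc, fun z hz => ?_⟩
    rcases List.suffix_cons_iff.1 hz with rfl | hz
    · exact ⟨0, 1, le_rfl, zero_le_one, fun g _ _ => by simp⟩
    · obtain ⟨a, b, ha, hb, h3⟩ := h2 z hz
      have hD : 0 < A + (A + B) * s + (A + B) := by positivity
      refine ⟨a + b * (1 / (A + (A + B) * s + (A + B))),
        b * ((A + B) / (A + (A + B) * s + (A + B))), by positivity, by positivity,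
        fun g h0 hg1 => ?_⟩
      have hp := gam_path_pos hβ hw hT hA h0 hg1 u _ hu
      have : 0 < A + (A + B) * s + (A + B) * gam Z S (Function.update β w g) (i :: y) := by
        positivity
      rw [h3 g h0 hg1, hy g h0 hg1, hc g h0 hg1]
      field_simp
      ring

lemma mobius (hβ : ∀ v, 0 ≤ β v ∧ β v ≤ 1) (hw : w ∉ S) (hT : InTree Z w)
    (hA : ∀ y, y <:+ w → y ≠ w → y ∈ S) :
    ∃ A B : ℝ, 0 ≤ A ∧ 0 ≤ B ∧ 0 < A + B ∧
      (∀ g, 0 < g → g ≤ 1 → psi Z S (Function.update β w g) w = (1 - g) / (A + B * g)) ∧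
      ∀ x, (w <:+ x → x = w) → ∃ a b : ℝ, 0 ≤ a ∧ 0 ≤ b ∧ ∀ g, 0 < g → g ≤ 1 →
        psi Z S (Function.update β w g) x = a + b * psi Z S (Function.update β w g) w := by
  obtain ⟨A, B, hA0, hB0, hAB, h1, h2⟩ := mobius_path hβ hw hT hA w (List.suffix_refl _)
  refine ⟨A, B, hA0, hB0, hAB, fun g h0 hg1 => ?_, fun x => ?_⟩
  · rw [h1 g h0 hg1, gam_not_mem hw, Function.update_self]
  · induction x with
    | nil => intro _; exact h2 [] List.nil_suffix
    | cons i x ih =>
      intro hx
      by_cases h : (i :: x) <:+ w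
      · exact h2 _ h
      · have hx' : ¬ w <:+ x := fun h' =>
          h (by rw [hx (h'.trans (List.suffix_cons i x))])
        obtain ⟨a, b, ha, hb, h3⟩ := ih fun h' => absurd h' hx'
        have hb1 := gam_bounds (Z := Z) (S := S) hβ (i :: x)
        have h4 : 0 ≤ 1 - gam Z S β (i :: x) := by linarith [hb1.2]
        refine ⟨a * (1 - gam Z S β (i :: x)), b * (1 - gam Z S β (i :: x)), by positivity,
          by positivity, fun g h0 hg1 => ?_⟩
        have : psi Z S (Function.update β w g) (i :: x) = psi Z S (Function.update β w g) x *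
          (1 - gam Z S (Function.update β w g) (i :: x)) := rfl
        rw [this, gam_update w g _ h, h3 g h0 hg1]
        ring

end Mobius

lemma key_real {A B r k : ℝ} (hA : 0 ≤ A) (hB : 0 ≤ B) (hAB : 0 < A + B) (hr : 1 ≤ r)
    (hk : 1 ≤ k) :
    (1 - k * r⁻¹ / (1 + k * r⁻¹)) / (A + B * (k * r⁻¹ / (1 + k * r⁻¹))) +
        (A + B) / (A * r + B) ^ 2 * r ≤
      (1 - r⁻¹) / (A + B * r⁻¹) + (A + B) / (A * r + B) ^ 2 * (1 + r * k⁻¹) ∧
    (1 - k * r⁻¹ / (1 + k * r⁻¹)) / (A + B * (k * r⁻¹ / (1 + k * r⁻¹))) ≤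
      (A + B) / (A * r + B) ^ 2 * (r ^ 3 * k⁻¹) := by
  have hr0 : 0 < r := by linarith
  have hk0 : 0 < k := by linarith
  set ρ := 1 + r * k⁻¹ with hρ
  have hρ1 : 1 < ρ := by
    have : 0 < r * k⁻¹ := by positivity
    linarith
  have hD : 0 < A * r + B := by nlinarith
  have hD' : 0 < A * ρ + B := by nlinarith
  have e1 : (1 - k * r⁻¹ / (1 + k * r⁻¹)) / (A + B * (k * r⁻¹ / (1 + k * r⁻¹))) =
      (ρ - 1) / (A * ρ + B) := by
    have h1 : k * r⁻¹ / (1 + k * r⁻¹) = ρ⁻¹ := by
      rw [hρ]; field_simp; ring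
    have hρ0 : ρ ≠ 0 := by linarith
    rw [h1, div_eq_div_iff _ hD'.ne']
    · field_simp
    · have : A + B * ρ⁻¹ = (A * ρ + B) / ρ := by field_simp
      rw [this]
      positivity
  have e2 : (1 - r⁻¹) / (A + B * r⁻¹) = (r - 1) / (A * r + B) := by
    rw [div_eq_div_iff _ hD.ne']
    · field_simp
    · have : A + B * r⁻¹ = (A * r + B) / r := by field_simp
      rw [this]
      positivity
  rw [e1, e2]
  constructor
  · have : (r - 1) / (A * r + B) + (A + B) / (A * r + B) ^ 2 * ρ -
        ((ρ - 1) / (A * ρ + B) + (A + B) / (A * r + B) ^ 2 * r) =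
        (A + B) * A * (ρ - r) ^ 2 / ((A * r + B) ^ 2 * (A * ρ + B)) := by
      have h5 := hD.ne'
      have h6 := hD'.ne'
      generalize hx : A * r + B = x at h5
      generalize hy : A * ρ + B = y at h6
      field_simp
      rw [← hx, ← hy]
      ring
    have h2 : 0 ≤ (A + B) * A * (ρ - r) ^ 2 / ((A * r + B) ^ 2 * (A * ρ + B)) := by positivity
    linarith
  · have h1 : ρ - 1 = r * k⁻¹ := by rw [hρ]; ring
    have h2 : (ρ - 1) / (A * ρ + B) ≤ (r * k⁻¹) / (A + B) := by
      rw [h1]
      gcongr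
      nlinarith
    refine h2.trans ?_
    have h3 : A * r + B ≤ r * (A + B) := by nlinarith
    have h4 : (A + B) / (r * (A + B)) ^ 2 ≤ (A + B) / (A * r + B) ^ 2 := by gcongr
    refine le_trans (le_of_eq ?_) (mul_le_mul_of_nonneg_right h4 (by positivity))
    field_simp

end Pool.Agent.H109Z.FrogGW
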