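import Pool.Agent.H109Z.Frog.Key

set_option autoImplicit false

namespace Pool.Agent.H109Z.FrogGW

open MeasureTheory ProbabilityTheory Set
open scoped NNReal ENNReal

/-- sample space -/
abbrev Om := (V → ℕ) × ((V → ℕ) × (Frog × ℕ → ℝ))

/-- revealed vertices and performed steps -/
abbrev St := Finset V × Multiset Frog

def awake (N : V → ℕ) (S : Finset V) (f : Frog) : Prop :=
  f = ([], 0) ∨ (f.1 ∈ S ∧ f.1 ≠ [] ∧ f.2 < N f.1)

noncomputable def pos (ω : Om) (σ : St) (f : Frog) : V := walk ω.1 ω.2.2 f (σ.2.count f)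

open Classical in
noncomputable def upd (ω : Om) (f : Frog) (σ : St) : St :=
  if awake ω.2.1 σ.1 f then
    (if pos ω σ f ∈ σ.1 then (σ.1, f ::ₘ σ.2) else (σ.1 ∪ cell ω.1 (pos ω σ f), σ.2))
  else σ

noncomputable def st (a : ℕ → Frog) (ω : Om) : ℕ → St
  | 0 => (∅, 0)
  | j + 1 => upd ω (a j) (st a ω j)

structure Inv (ω : Om) (σ : St) : Prop where
  tree : ∀ v ∈ σ.1, InTree ω.1 v
  par : ∀ i v, i :: v ∈ σ.1 → v ∈ σ.1
  surv : ∀ v ∈ σ.1, ∀ i < ω.1 v, i :: v ∉ σ.1 → Survives (sh (i :: v) ω.1)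
  cnt : ∀ f, ¬ awake ω.2.1 σ.1 f → σ.2.count f = 0
  vis : ∀ f s, s < σ.2.count f → walk ω.1 ω.2.2 f s ∈ σ.1

lemma Inv.suffix {ω : Om} {σ : St} (h : Inv ω σ) {v y : V} (hv : v ∈ σ.1) (hy : y <:+ v) :
    y ∈ σ.1 := by
  obtain ⟨u, rfl⟩ := hy
  induction u with
  | nil => simpa using hv
  | cons i u ih => exact ih (h.par i _ hv)

lemma Inv.pos_cases {ω : Om} {σ : St} (h : Inv ω σ) {f : Frog} (hf : awake ω.2.1 σ.1 f) :
    pos ω σ f ∈ σ.1 ∨ pos ω σ f = [] ∨
      ∃ i x, pos ω σ f = i :: x ∧ x ∈ σ.1 ∧ i < ω.1 x := by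
  unfold pos
  cases hc : σ.2.count f with
  | zero =>
    rcases hf with rfl | hf
    · exact Or.inr (Or.inl rfl)
    · exact Or.inl hf.1
  | succ s =>
    have hx := h.vis f s (by omega)
    simp only [walk, step]
    split_ifs with hlt
    · exact Or.inr (Or.inr ⟨_, _, rfl, hx, hlt⟩)
    · cases hw : walk ω.1 ω.2.2 f s with
      | nil => exact Or.inr (Or.inl rfl)
      | cons i y =>
        rw [hw] at hx
        exact Or.inl (h.par i y hx)

structure Fresh (Z : V → ℕ) (S : Finset V) (w : V) : Prop where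
  nmem : w ∉ S
  tree : InTree Z w
  surv : Survives Z → Survives (sh w Z)
  anc : ∀ y, y <:+ w → y ≠ w → y ∈ S
  desc : ∀ v ∈ S, ¬ w <:+ v

lemma Inv.fresh {ω : Om} {σ : St} (h : Inv ω σ) {f : Frog} (hf : awake ω.2.1 σ.1 f)
    (hp : pos ω σ f ∉ σ.1) : Fresh ω.1 σ.1 (pos ω σ f) := by
  have hd : ∀ v ∈ σ.1, ¬ pos ω σ f <:+ v := fun v hv h' => hp (h.suffix hv h')
  rcases h.pos_cases hf with h1 | h1 | ⟨i, x, h1, h2, h3⟩
  · exact absurd h1 hp
  · rw [h1] at hp hd ⊢
    exact ⟨hp, InTree.root, fun hs => by simpa using hs,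
      fun y hy hne => absurd (List.suffix_nil.1 hy) hne, hd⟩
  · rw [h1] at hp hd ⊢
    refine ⟨hp, InTree.child _ _ (h.tree x h2) h3, fun _ => h.surv x h2 i h3 hp,
      fun y hy hne => ?_, hd⟩
    rcases List.suffix_cons_iff.1 hy with h' | h'
    · exact absurd h' hne
    · exact h.suffix h2 h'

lemma Inv.not_desc {ω : Om} {σ : St} (h : Inv ω σ) {f : Frog} (hf : awake ω.2.1 σ.1 f) {w : V}
    (hw : w ∉ σ.1) (hs : w <:+ pos ω σ f) : pos ω σ f = w := by
  rcases h.pos_cases hf with h1 | h1 | ⟨i, x, h1, h2, h3⟩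
  · exact absurd (h.suffix h1 hs) hw
  · rw [h1] at hs ⊢
    exact (List.suffix_nil.1 hs).symm
  · rw [h1] at hs ⊢
    rcases List.suffix_cons_iff.1 hs with h' | h'
    · exact h'.symm
    · exact absurd (h.suffix h2 h') hw

lemma awake_mono {N : V → ℕ} {S S' : Finset V} (h : S ⊆ S') {f : Frog} (hf : awake N S f) :
    awake N S' f := hf.imp id fun h' => ⟨h h'.1, h'.2⟩

lemma Inv.upd {ω : Om} {σ : St} (h : Inv ω σ) (f : Frog) : Inv ω (upd ω f σ) := by
  classical
  unfold FrogGW.upd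
  split_ifs with hf hp
  · refine ⟨h.tree, h.par, h.surv, fun g hg => ?_, fun g s hs => ?_⟩
    · have : g ≠ f := by rintro rfl; exact hg hf
      simp only [Multiset.count_cons_of_ne this]
      exact h.cnt g hg
    · by_cases hgf : g = f
      · subst hgf
        simp only [Multiset.count_cons_self] at hs
        rcases Nat.lt_succ_iff_lt_or_eq.1 hs with hs | rfl
        · exact h.vis g s hs
        · exact hp
      · simp only [Multiset.count_cons_of_ne hgf] at hs
        exact h.vis g s hs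
  · have hF := h.fresh hf hp
    set w := pos ω σ f
    refine ⟨fun v hv => ?_, fun i v hv => ?_, fun v hv i hi hn => ?_, fun g hg => ?_,
      fun g s hs => Finset.mem_union_left _ (h.vis g s hs)⟩
    · rcases Finset.mem_union.1 hv with hv | hv
      · exact h.tree v hv
      · rcases mem_cell'.1 hv with rfl | ⟨u, i, rfl, h1, h2, h3⟩
        · exact hF.tree
        · exact (inTree_append _ _).2 ⟨InTree.child _ _ hF.tree h1, h3⟩
    · rcases Finset.mem_union.1 hv with hv | hv
      · exact Finset.mem_union_left _ (h.par i v hv)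
      · rcases mem_cell'.1 hv with he | ⟨u, j, he, h1, h2, h3⟩
        · refine Finset.mem_union_left _ (hF.anc v (he ▸ List.suffix_cons i v) ?_)
          rw [← he]
          exact (List.cons_ne_self i v).symm
        · refine Finset.mem_union_right _ ?_
          cases u with
          | nil =>
            simp only [List.nil_append, List.cons.injEq] at he
            rw [he.2]
            exact self_mem_cell _ _
          | cons k u =>
            simp only [List.cons_append, List.cons.injEq] at he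
            exact mem_cell'.2 (Or.inr ⟨u, j, he.2, h1, h2, (inTree_cons.1 h3).1⟩)
    · rcases Finset.mem_union.1 hv with hv | hv
      · exact h.surv v hv i hi fun h' => hn (Finset.mem_union_left _ h')
      · by_contra hc
        refine hn (Finset.mem_union_right _ ?_)
        rcases mem_cell'.1 hv with rfl | ⟨u, j, rfl, h1, h2, h3⟩
        · exact mem_cell'.2 (Or.inr ⟨[], i, rfl, hi, hc, InTree.root⟩)
        · exact mem_cell'.2 (Or.inr ⟨i :: u, j, rfl, h1, h2, inTree_cons.2 ⟨h3, hi⟩⟩)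
    · exact h.cnt g fun h' => hg (awake_mono Finset.subset_union_left h')
  · exact h

lemma inv_st (a : ℕ → Frog) (ω : Om) (j : ℕ) : Inv ω (st a ω j) := by
  induction j with
  | zero => exact ⟨by simp [st], by simp [st], by simp [st], by simp [st], by simp [st]⟩
  | succ j ih => exact ih.upd _

lemma upd_mono (ω : Om) (f : Frog) (σ : St) : σ.1 ⊆ (upd ω f σ).1 ∧ σ.2 ≤ (upd ω f σ).2 := by
  classical
  unfold upd
  split_ifs
  · exact ⟨subset_rfl, Multiset.le_cons_self _ _⟩
  · exact ⟨Finset.subset_union_left, le_rfl⟩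
  · exact ⟨subset_rfl, le_rfl⟩

lemma st_mono (a : ℕ → Frog) (ω : Om) {i j : ℕ} (h : i ≤ j) :
    (st a ω i).1 ⊆ (st a ω j).1 ∧ (st a ω i).2 ≤ (st a ω j).2 := by
  induction h with
  | refl => exact ⟨subset_rfl, le_rfl⟩
  | step _ ih => exact ⟨ih.1.trans (upd_mono _ _ _).1, ih.2.trans (upd_mono _ _ _).2⟩

structure Agree (ω ω' : Om) (σ : St) : Prop where
  hZ : ∀ v ∈ σ.1, ω'.1 v = ω.1 v
  hN : ∀ v ∈ σ.1, ω'.2.1 v = ω.2.1 v
  hU : ∀ f s, s < σ.2.count f → ω'.2.2 (f, s) = ω.2.2 (f, s)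
  hc : ∀ x ∈ σ.1, cell ω'.1 x = cell ω.1 x

lemma Agree.mono {ω ω' : Om} {σ τ : St} (h : Agree ω ω' τ) (h1 : σ.1 ⊆ τ.1) (h2 : σ.2 ≤ τ.2) :
    Agree ω ω' σ :=
  ⟨fun v hv => h.hZ v (h1 hv), fun v hv => h.hN v (h1 hv),
    fun f s hs => h.hU f s (hs.trans_le (Multiset.count_le_of_le f h2)),
    fun v hv => h.hc v (h1 hv)⟩

lemma step_congr {Z Z' : V → ℕ} {x : V} (h : Z' x = Z x) (u : ℝ) : step Z' x u = step Z x u := by
  simp only [step, deg, h]

lemma Agree.walk {ω ω' : Om} {σ : St} (h : Agree ω ω' σ) (hI : Inv ω σ) (f : Frog) :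
    ∀ s ≤ σ.2.count f, walk ω'.1 ω'.2.2 f s = walk ω.1 ω.2.2 f s := by
  intro s
  induction s with
  | zero => intro _; rfl
  | succ s ih =>
    intro hs
    simp only [FrogGW.walk]
    rw [ih (by omega), h.hU f s (by omega), step_congr (h.hZ _ (hI.vis f s (by omega)))]

lemma Agree.pos {ω ω' : Om} {σ : St} (h : Agree ω ω' σ) (hI : Inv ω σ) (f : Frog) :
    pos ω' σ f = pos ω σ f := h.walk hI f _ le_rfl

lemma Agree.awake {ω ω' : Om} {σ : St} (h : Agree ω ω' σ) (f : Frog) :
    awake ω'.2.1 σ.1 f ↔ awake ω.2.1 σ.1 f := by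
  unfold FrogGW.awake
  refine or_congr_right (and_congr_right fun hf => ?_)
  rw [h.hN _ hf]

lemma st_local (a : ℕ → Frog) {ω ω' : Om} : ∀ j, Agree ω ω' (st a ω j) →
    st a ω' j = st a ω j := by
  classical
  intro j
  induction j with
  | zero => intro _; rfl
  | succ j ih =>
    intro h
    have h' : Agree ω ω' (st a ω j) := h.mono (upd_mono _ _ _).1 (upd_mono _ _ _).2
    have hI := inv_st a ω j
    simp only [st] at h ⊢
    rw [ih h']
    unfold upd at h ⊢
    simp only [h'.awake, h'.pos hI]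
    split_ifs at h ⊢ with h1 h2
    · rfl
    · rw [h.hc _ (Finset.mem_union_right _ (self_mem_cell _ _))]
    · rfl

noncomputable def dep (ω : Om) (σ : St) (f : Frog) : ℝ≥0∞ :=
  ∑ s ∈ Finset.range (σ.2.count f), cz ω.1 (walk ω.1 ω.2.2 f s)

open Classical in
noncomputable def term (r : ℝ) (ω : Om) (σ : St) (f : Frog) : ℝ≥0∞ :=
  if awake ω.2.1 σ.1 f then ENNReal.ofReal (psi ω.1 σ.1 (fun _ => r⁻¹) (pos ω σ f)) + dep ω σ f
  else 0

noncomputable def Phi (r : ℝ) (ω : Om) (σ : St) : ℝ≥0∞ := ∑' f, term r ω σ f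

lemma cz_congr {Z Z' : V → ℕ} {x : V} (h : Z' x = Z x) : cz Z' x = cz Z x := by
  unfold cz
  split_ifs with hx
  · subst hx; rw [h]
  · rfl

lemma Agree.dep {ω ω' : Om} {σ : St} (h : Agree ω ω' σ) (hI : Inv ω σ) (f : Frog) :
    dep ω' σ f = dep ω σ f := by
  refine Finset.sum_congr rfl fun s hs => ?_
  have hs' := Finset.mem_range.1 hs
  rw [h.walk hI f s hs'.le, cz_congr (h.hZ _ (hI.vis f s hs'))]

lemma Agree.term {ω ω' : Om} {σ : St} (h : Agree ω ω' σ) (hI : Inv ω σ) (r : ℝ) (f : Frog) :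
    term r ω' σ f = term r ω σ f := by
  unfold FrogGW.term
  simp only [h.pos hI, h.dep hI]
  rw [psi_congr _ fun v _ => gam_congr h.hZ v]
  rw [propext (h.awake f)]

lemma Agree.phi {ω ω' : Om} {σ : St} (h : Agree ω ω' σ) (hI : Inv ω σ) (r : ℝ) :
    Phi r ω' σ = Phi r ω σ := by
  simp only [Phi, h.term hI]

open Classical in
/-- the kind of the next action -/
noncomputable def cl (ω : Om) (σ : St) (f : Frog) : Option (ℕ ⊕ V) :=
  if awake ω.2.1 σ.1 f then
    (if pos ω σ f ∈ σ.1 then some (Sum.inl (σ.2.count f)) else some (Sum.inr (pos ω σ f)))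
  else none

lemma Agree.cl {ω ω' : Om} {σ : St} (h : Agree ω ω' σ) (hI : Inv ω σ) (f : Frog) :
    cl ω' σ f = cl ω σ f := by
  unfold FrogGW.cl
  simp only [h.pos hI]
  rw [propext (h.awake f)]

lemma cl_none {ω : Om} {σ : St} {f : Frog} (h : cl ω σ f = none) : upd ω f σ = σ := by
  unfold cl at h
  unfold upd
  split_ifs at h ⊢
  rfl

lemma cl_inl {ω : Om} {σ : St} {f : Frog} {t : ℕ} (h : cl ω σ f = some (Sum.inl t)) :
    awake ω.2.1 σ.1 f ∧ pos ω σ f ∈ σ.1 ∧ σ.2.count f = t ∧ upd ω f σ = (σ.1, f ::ₘ σ.2) := by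
  unfold cl at h
  unfold upd
  split_ifs at h ⊢ with h1 h2
  · exact ⟨h1, h2, by simpa using h, rfl⟩
  · simp at h

lemma cl_inr {ω : Om} {σ : St} {f : Frog} {w : V} (h : cl ω σ f = some (Sum.inr w)) :
    awake ω.2.1 σ.1 f ∧ pos ω σ f ∉ σ.1 ∧ pos ω σ f = w ∧
      upd ω f σ = (σ.1 ∪ cell ω.1 w, σ.2) := by
  unfold cl at h
  unfold upd
  split_ifs at h ⊢ with h1 h2
  · simp at h
  · have : pos ω σ f = w := by simpa using h
    exact ⟨h1, h2, this, by rw [this]⟩

/-! ### measurability -/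

lemma disc_step (Z : V → ℕ) (x : V) : Disc fun u : ℝ => step Z x u := by
  have hm : Measurable fun u : ℝ => ⌊u * (deg Z x : ℝ)⌋₊ :=
    Nat.measurable_floor.comp (measurable_id.mul_const _)
  exact (Disc.of_measurable hm).map fun j => if j < Z x then j :: x else x.tail

lemma disc_walk (f : Frog) (n : ℕ) : Disc fun ω : Om => walk ω.1 ω.2.2 f n := by
  induction n with
  | zero => exact Disc.const _
  | succ n ih =>
    refine ih.bind (g := fun x ω => step ω.1 x (ω.2.2 (f, n))) fun x => ?_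
    have h1 : Disc fun ω : Om => ω.1 x := Disc.of_measurable (by fun_prop)
    have h2 := h1.bind (g := fun z (ω : Om) => step (fun _ => z) x (ω.2.2 (f, n))) fun z =>
      (disc_step (fun _ => z) x).comp (by fun_prop)
    convert h2 using 2 with ω
    exact step_congr rfl _

lemma disc_pos (σ : St) (f : Frog) : Disc fun ω : Om => pos ω σ f := disc_walk f _

lemma ms_awake (S : Finset V) (f : Frog) : MeasurableSet {ω : Om | awake ω.2.1 S f} := by
  unfold awake
  refine (MeasurableSet.const _).union ((MeasurableSet.const _).inter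
    ((MeasurableSet.const _).inter ?_))
  exact (measurable_fst.comp measurable_snd) (ms_lt f.2 f.1)

lemma disc_upd (f : Frog) (σ : St) : Disc fun ω : Om => upd ω f σ := by
  classical
  unfold upd
  refine Disc.ite (ms_awake _ _) ?_ (Disc.const _)
  refine (disc_pos σ f).bind (g := fun x (ω : Om) =>
    if x ∈ σ.1 then (σ.1, f ::ₘ σ.2) else (σ.1 ∪ cell ω.1 x, σ.2)) fun x => ?_
  by_cases h : x ∈ σ.1
  · simp only [h, if_true]; exact Disc.const _
  · simp only [h, if_false]
    exact ((disc_cell x).comp measurable_fst).map fun c => (σ.1 ∪ c, σ.2)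

lemma disc_st (a : ℕ → Frog) (j : ℕ) : Disc fun ω : Om => st a ω j := by
  induction j with
  | zero => exact Disc.const _
  | succ j ih => exact ih.bind (g := fun σ ω => upd ω (a j) σ) fun σ => disc_upd _ σ

lemma disc_cl (σ : St) (f : Frog) : Disc fun ω : Om => cl ω σ f := by
  classical
  unfold cl
  refine Disc.ite (ms_awake _ _) ?_ (Disc.const _)
  exact (disc_pos σ f).map fun x =>
    if x ∈ σ.1 then some (Sum.inl (σ.2.count f)) else some (Sum.inr x)

lemma measurable_psi (S : Finset V) (β : V → ℝ) (x : V) :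
    Measurable fun Z : V → ℕ => psi Z S β x := by
  classical
  have h1 : Disc fun Z : V → ℕ => (fun v : S => Z v) := Disc.of_measurable (by fun_prop)
  have h2 := h1.measurable
    (g := fun (z : S → ℕ) (_ : V → ℕ) => psi (fun v => if h : v ∈ S then z ⟨v, h⟩ else 0) S β x)
    fun _ => measurable_const
  convert h2 using 2 with Z
  exact psi_congr _ fun v _ => gam_congr (fun v hv => by simp [hv]) v

lemma measurable_cz (x : V) : Measurable fun Z : V → ℕ => cz Z x := by
  unfold cz
  split_ifs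
  · exact (Measurable.of_discrete (f := fun n : ℕ => (n : ℝ≥0∞)⁻¹)).comp (measurable_pi_apply _)
  · exact measurable_const

lemma measurable_dep (σ : St) (f : Frog) : Measurable fun ω : Om => dep ω σ f :=
  Finset.measurable_sum _ fun s _ => (disc_walk f s).measurable
    (g := fun x (ω : Om) => cz ω.1 x) fun x => (measurable_cz x).comp measurable_fst

lemma measurable_term (r : ℝ) (σ : St) (f : Frog) : Measurable fun ω : Om => term r ω σ f := by
  refine Measurable.ite (ms_awake _ _) (Measurable.fun_add ?_ (measurable_dep σ f)) measurable_const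
  exact (disc_pos σ f).measurable
    (g := fun x (ω : Om) => ENNReal.ofReal (psi ω.1 σ.1 (fun _ => r⁻¹) x)) fun x =>
      ((measurable_psi _ _ x).comp measurable_fst).ennreal_ofReal

lemma measurable_phi (r : ℝ) (σ : St) : Measurable fun ω : Om => Phi r ω σ :=
  Measurable.tsum fun f => measurable_term r σ f

open Classical in
/-- the supermartingale -/
noncomputable def HH (r : ℝ) (a : ℕ → Frog) (j : ℕ) (ω : Om) : ℝ≥0∞ :=
  if Survives ω.1 then Phi r ω (st a ω j) else 0

lemma measurable_HH (r : ℝ) (a : ℕ → Frog) (j : ℕ) : Measurable (HH r a j) :=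
  Measurable.ite (measurable_fst ms_survives)
    ((disc_st a j).measurable (g := fun σ ω => Phi r ω σ) fun σ => measurable_phi r σ)
    measurable_const

lemma disc_cls (a : ℕ → Frog) (j : ℕ) : Disc fun ω : Om => cl ω (st a ω j) (a j) :=
  (disc_st a j).bind (g := fun σ ω => cl ω σ (a j)) fun σ => disc_cl σ _

end Pool.Agent.H109Z.FrogGW
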