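import Pool.Agent.H109Z.Frog.Move

set_option autoImplicit false

namespace Pool.Agent.H109Z.FrogGW

open MeasureTheory ProbabilityTheory Set
open scoped NNReal ENNReal

variable (μ : Measure ℕ) [IsProbabilityMeasure μ]

noncomputable def T2 (w : V) (ω : Om) (Z' N' : V → ℕ) : Om :=
  (mix (Dw w) ω.1 Z', (mix (Dw w) ω.2.1 N', ω.2.2))

lemma lint_T2 (lam : ℝ≥0) (w : V) {F : Om → ℝ≥0∞} (hF : Measurable F) :
    ∫⁻ ω, F ω ∂(PP μ lam) =
      ∫⁻ ω, ∫⁻ Z', ∫⁻ N', F (T2 w ω Z' N') ∂(QN lam) ∂(GW0 μ) ∂(PP μ lam) := by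
  have h1 : MeasurePreserving (fun q : Om × (V → ℕ) =>
      ((q.1.1, (mix (Dw w) q.1.2.1 q.2, q.1.2.2)) : Om)) ((PP μ lam).prod (QN lam)) (PP μ lam) :=
    mp_right (GW0 μ) (mp_left QU (mp_mix (poissonMeasure lam) (Dw w)))
  have h2 : MeasurePreserving (fun q : Om × (V → ℕ) =>
      ((mix (Dw w) q.1.1 q.2, q.1.2) : Om)) ((PP μ lam).prod (GW0 μ)) (PP μ lam) :=
    mp_left ((QN lam).prod QU) (mp_mix μ (Dw w))
  rw [lint_resample h1 hF,
    lint_resample h2 (Measurable.lintegral_prod_right' (hF.fun_comp h1.measurable))]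
  rfl

lemma cell_congr {Z Z' : V → ℕ} {w x : V} (h : ∀ v, ¬ w <:+ v → Z' v = Z v) (hT : InTree Z w)
    (hs : Survives (sh w Z)) (hs' : Survives (sh w Z')) (hx : ¬ w <:+ x) :
    cell Z' x = cell Z x := by
  have hT' : InTree Z' w := inTree_congr (fun u hu hne => (h u fun h' =>
    hne (hu.eq_of_length (le_antisymm hu.length_le h'.length_le))).symm) hT
  have key : ∀ (Y : V → ℕ) (c : V), InTree Y w → Survives (sh w Y) → c <:+ w →
      Survives (sh c Y) := by
    rintro Y c h1 h2 ⟨u, rfl⟩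
    exact survives_of_sh ((inTree_append u c).1 h1).2 (by rwa [sh_sh])
  have hsh : ∀ i, ¬ (i :: x) <:+ w → sh (i :: x) Z' = sh (i :: x) Z := by
    intro i hi
    funext u
    refine h _ fun h' => ?_
    rcases List.suffix_or_suffix_of_suffix h' (List.suffix_append u (i :: x)) with h' | h'
    · rcases List.suffix_cons_iff.1 h' with h' | h'
      · exact hi (h' ▸ List.suffix_refl _)
      · exact hx h'
    · exact hi h'
  ext v
  rw [mem_cell', mem_cell', h x hx]
  refine or_congr_right (exists_congr fun u => exists_congr fun i => ?_)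
  by_cases hi : (i :: x) <:+ w
  · simp [key Z _ hT hs hi, key Z' _ hT' hs' hi]
  · rw [hsh i hi]

lemma agree_T2 {ω ω' : Om} {σ : St} {w : V} (hF : Fresh ω.1 σ.1 w)
    (h1 : ∀ v, ¬ w <:+ v → ω'.1 v = ω.1 v) (h2 : ∀ v, ¬ w <:+ v → ω'.2.1 v = ω.2.1 v)
    (h3 : ω'.2.2 = ω.2.2) (hs : Survives (sh w ω.1)) (hs' : Survives (sh w ω'.1)) :
    Agree ω ω' σ :=
  ⟨fun v hv => h1 v (hF.desc v hv), fun v hv => h2 v (hF.desc v hv), fun _ _ _ => by rw [h3],
    fun x hx => cell_congr h1 hF.tree hs hs' (hF.desc x hx)⟩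

open Classical in
lemma new_count (lam : ℝ≥0) (Z : V → ℕ) (w : V) :
    ∫⁻ N, (∑' g : Frog, if g.1 ∈ cell Z w ∧ g.2 < N g.1 then 1 else 0) ∂(QN lam) =
      lam * csz (sh w Z) := by
  have e1 : ∀ N : V → ℕ, (∑' g : Frog, if g.1 ∈ cell Z w ∧ g.2 < N g.1 then (1 : ℝ≥0∞) else 0) =
      ∑' v : V, if v ∈ cell Z w then (N v : ℝ≥0∞) else 0 := by
    intro N
    rw [ENNReal.tsum_prod']
    congr 1
    ext v
    by_cases hv : v ∈ cell Z w
    · simp only [hv, true_and, if_true]
      rw [tsum_eq_sum (s := Finset.range (N v)) (fun i hi => by simpa using hi),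
        Finset.sum_congr rfl (g := fun _ => 1) (fun i hi => by simpa using hi)]
      simp
    · simp [hv]
  simp only [e1]
  rw [lintegral_tsum fun v => by
    split_ifs
    · exact ((Measurable.of_discrete (f := fun n : ℕ => (n : ℝ≥0∞))).comp
        (measurable_pi_apply v)).aemeasurable
    · exact aemeasurable_const]
  have e2 : ∀ v : V, ∫⁻ N, (if v ∈ cell Z w then (N v : ℝ≥0∞) else 0) ∂(QN lam) =
      lam * if v ∈ cell Z w then 1 else 0 := by
    intro v
    split_ifs
    · rw [mul_one, ← poisson_mean lam]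
      exact (measurePreserving_eval_infinitePi (fun _ : V => poissonMeasure lam) v).lintegral_comp
        (Measurable.of_discrete (f := fun n : ℕ => (n : ℝ≥0∞)))
    · simp
  simp only [e2]
  rw [ENNReal.tsum_mul_left, csz]
  congr 1
  have hinj : Function.Injective fun u : V => u ++ w := fun a b hab => List.append_cancel_right hab
  refine Eq.trans (hinj.tsum_eq ?_).symm ?_
  · intro v hv
    have : v ∈ cell Z w := by
      by_contra h
      simp [h] at hv
    obtain ⟨u, -, hu⟩ := mem_cell.1 this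
    exact ⟨u, hu⟩
  · congr 1
    ext u
    have : u ++ w ∈ cell Z w ↔ u ∈ cellSet (sh w Z) := by
      rw [mem_cell]
      exact ⟨fun ⟨u', h1, h2⟩ => hinj h2 ▸ h1, fun h => ⟨u, h, rfl⟩⟩
    simp [this]

open Classical in
lemma reveal_inner {r : ℝ} {lam : ℝ≥0} (hg : Good μ r lam) (a : ℕ → Frog) (j : ℕ) (w : V)
    (ω : Om) :
    ∫⁻ Z', ∫⁻ N', (if cl (T2 w ω Z' N') (st a (T2 w ω Z' N') j) (a j) = some (Sum.inr w)
      then HH r a (j + 1) (T2 w ω Z' N') else 0) ∂(QN lam) ∂(GW0 μ) ≤
    ∫⁻ Z', ∫⁻ N', (if cl (T2 w ω Z' N') (st a (T2 w ω Z' N') j) (a j) = some (Sum.inr w)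
      then HH r a j (T2 w ω Z' N') else 0) ∂(QN lam) ∂(GW0 μ) := by
  have hr : 1 ≤ r := hg.1
  have hβ : ∀ _v : V, 0 ≤ r⁻¹ ∧ r⁻¹ ≤ 1 := fun v => ⟨(inv_bounds hr v).1.le, (inv_bounds hr v).2⟩
  set f := a j with hf
  have hfresh : ∀ ω' : Om, cl ω' (st a ω' j) f = some (Sum.inr w) → Fresh ω'.1 (st a ω' j).1 w := by
    intro ω' h
    obtain ⟨h1, h2, h3, -⟩ := cl_inr h
    exact h3 ▸ (inv_st a ω' j).fresh h1 h2
  have hsh : ∀ Z' N', sh w (T2 w ω Z' N').1 = sh w Z' := fun Z' N' => sh_mix_self w _ _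
  by_cases h : ∃ Z0 N0, Survives (T2 w ω Z0 N0).1 ∧
      cl (T2 w ω Z0 N0) (st a (T2 w ω Z0 N0) j) f = some (Sum.inr w)
  swap
  · refine le_of_eq_of_le (lintegral_congr (g := fun _ => 0) fun Z' => ?_) (by simp)
    refine (lintegral_congr (g := fun _ => 0) fun N' => ?_).trans (by simp)
    split_ifs with hc
    · rw [HH, if_neg]
      exact fun hs => h ⟨Z', N', hs, hc⟩
    · rfl
  obtain ⟨Z0, N0, hs0, hc0⟩ := h
  set ω0 := T2 w ω Z0 N0 with hω0
  set σ := st a ω0 j with hσ
  have hI : Inv ω0 σ := inv_st a ω0 j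
  have hF : Fresh ω0.1 σ.1 w := hfresh ω0 hc0
  obtain ⟨haw, -, hpos, -⟩ := cl_inr hc0
  have hoffZ : ∀ Z' N' v, ¬ w <:+ v → (T2 w ω Z' N').1 v = ω0.1 v := fun Z' N' v hv =>
    (mix_not_mem (D := Dw w) _ _ hv).trans (mix_not_mem (D := Dw w) _ _ hv).symm
  have hag : ∀ Z' N', Survives (sh w Z') → Agree ω0 (T2 w ω Z' N') σ := fun Z' N' hs =>
    agree_T2 hF (hoffZ Z' N')
      (fun v hv => (mix_not_mem (D := Dw w) _ _ hv).trans (mix_not_mem (D := Dw w) _ _ hv).symm) rfl (hF.surv hs0)
      (by rwa [hsh])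
  have hst : ∀ Z' N', Survives (sh w Z') → st a (T2 w ω Z' N') j = σ := fun Z' N' hs =>
    st_local a j (hag Z' N' hs)
  have hcl : ∀ Z' N', Survives (sh w Z') → cl (T2 w ω Z' N') σ f = some (Sum.inr w) :=
    fun Z' N' hs => by rw [(hag Z' N' hs).cl hI, hc0]
  have hsv : ∀ Z' N', Survives (sh w Z') → Survives (T2 w ω Z' N').1 := fun Z' N' hs => by
    refine survives_of_sh (w := w) (inTree_congr (fun u hu hne => (hoffZ Z' N' u fun h' =>
      hne (hu.eq_of_length (le_antisymm hu.length_le h'.length_le))).symm) hF.tree) ?_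
    rwa [hsh]
  obtain ⟨A, B, hA, hB, hAB, m1', m2⟩ :=
    mobius (Z := ω0.1) (β := fun _ => r⁻¹) hβ hF.nmem hF.tree hF.anc
  have m1 : ∀ g : ℝ, 0 < g → g ≤ 1 →
      psi ω0.1 σ.1 (Function.update (fun _ => r⁻¹) w g) w = hh A B g := m1'
  -- the terms of the old particles as functions of the number of new edges
  set old : Frog → ℕ → ℝ≥0∞ := fun g k => if awake ω0.2.1 σ.1 g then
    ENNReal.ofReal (psi ω0.1 σ.1 (Function.update (fun _ => r⁻¹) w (gk r k)) (pos ω0 σ g)) +
      dep ω0 σ g else 0 with hold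
  have hkey := key_int μ hg hA hB hAB
  have hγ : psi ω0.1 σ.1 (fun _ => r⁻¹) = psi ω0.1 σ.1 (Function.update (fun _ => r⁻¹) w r⁻¹) := by
    rw [Function.update_eq_self_iff.2 rfl]
  have hI1 : Measurable ({Z : V → ℕ | Survives Z}.indicator (1 : (V → ℕ) → ℝ≥0∞)) :=
    measurable_one.indicator ms_survives
  have hmh : Measurable fun Z : V → ℕ =>
      if Survives Z then ENNReal.ofReal (hh A B (gk r (kk Z))) else 0 :=
    Measurable.ite ms_survives (measurable_kk fun k => ENNReal.ofReal (hh A B (gk r k)))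
      measurable_const
  have hkey' : ∫⁻ Z, (if Survives Z then ENNReal.ofReal (hh A B (gk r (kk Z))) else 0) ∂(GW0 μ) ≤
      ENNReal.ofReal (hh A B r⁻¹) * sv μ := by
    refine le_trans (lintegral_mono fun Z => ?_) hkey
    dsimp only
    split_ifs
    · exact le_mul_of_one_le_right' le_self_add
    · exact le_rfl
  have hper : ∀ g, ∫⁻ Z, (if Survives Z then old g (kk Z) else 0) ∂(GW0 μ) ≤
      term r ω0 σ g * sv μ := by
    intro g
    by_cases hg' : awake ω0.2.1 σ.1 g
    · obtain ⟨α, β, hα, hβ0, m3⟩ := m2 (pos ω0 σ g) (hI.not_desc hg' hF.nmem)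
      have e1 : ∀ Z, (if Survives Z then old g (kk Z) else 0) =
          (ENNReal.ofReal α + dep ω0 σ g) * {Z : V → ℕ | Survives Z}.indicator 1 Z +
            ENNReal.ofReal β *
              (if Survives Z then ENNReal.ofReal (hh A B (gk r (kk Z))) else 0) := by
        intro Z
        by_cases hZ : Survives Z
        · have hb := gk_bounds hr (kk_pos.2 hZ)
          simp only [hZ, if_true, hold, hg', indicator, mem_ofPred_eq, Pi.one_apply, mul_one]
          rw [m3 _ hb.1 hb.2, m1 _ hb.1 hb.2, ENNReal.ofReal_add hα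
            (mul_nonneg hβ0 (hh_nonneg hA hB hb.1.le hb.2)), ENNReal.ofReal_mul hβ0]
          ring
        · simp [hZ]
      simp only [e1]
      rw [lintegral_add_left (hI1.const_mul _), lintegral_const_mul _ hI1,
        lintegral_const_mul _ hmh, lintegral_indicator_one ms_survives, term, if_pos hg', hγ,
        m3 _ (inv_bounds hr []).1 (inv_bounds hr []).2,
        m1 _ (inv_bounds hr []).1 (inv_bounds hr []).2, ENNReal.ofReal_add hα
            (mul_nonneg hβ0 (hh_nonneg hA hB (hβ []).1 (hβ []).2)), ENNReal.ofReal_mul hβ0]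
      calc _ ≤ (ENNReal.ofReal α + dep ω0 σ g) * sv μ +
            ENNReal.ofReal β * (ENNReal.ofReal (hh A B r⁻¹) * sv μ) := by
            unfold sv at hkey' ⊢
            gcongr
        _ = _ := by ring
    · simp [hold, hg']
  -- pointwise bound after the reveal
  have hpt : ∀ Z' N', Survives (sh w Z') → HH r a (j + 1) (T2 w ω Z' N') ≤
      ∑' g, old g (kk (sh w Z')) + ENNReal.ofReal (hh A B (gk r (kk (sh w Z')))) *
        ∑' g : Frog, if g.1 ∈ cell Z' w ∧ g.2 < N' g.1 then 1 else 0 := by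
    intro Z' N' hs
    have hb := gk_bounds hr (kk_pos.2 hs)
    have hag' := hag Z' N' hs
    set ω' := T2 w ω Z' N' with hω'
    have hgw : gam ω'.1 (σ.1 ∪ cell ω'.1 w) (fun _ => r⁻¹) w = gk r (kk (sh w Z')) := by
      rw [gam_new _ hF.desc, hsh]; rfl
    have hps : ∀ x, (w <:+ x → x = w) → psi ω'.1 (σ.1 ∪ cell ω'.1 w) (fun _ => r⁻¹) x =
        psi ω0.1 σ.1 (Function.update (fun _ => r⁻¹) w (gk r (kk (sh w Z')))) x := by
      intro x hx
      refine psi_congr x fun v hv => ?_
      rw [gam_reveal hF.desc (fun v hv => (hag'.hZ v hv).symm) v, hgw]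
      intro h'
      have := hx (h'.trans hv)
      subst this
      exact hv.eq_of_length (le_antisymm hv.length_le h'.length_le)
    rw [HH, if_pos (hsv Z' N' hs)]
    simp only [st]
    rw [hst Z' N' hs, ← hf, (cl_inr (hcl Z' N' hs)).2.2.2, Phi, ← ENNReal.tsum_mul_left,
      ← ENNReal.tsum_add]
    refine ENNReal.tsum_le_tsum fun g => ?_
    by_cases hg' : awake ω0.2.1 σ.1 g
    · refine le_trans (le_of_eq ?_) le_self_add
      simp only [hold, hg', if_true]
      unfold term
      rw [if_pos (awake_mono Finset.subset_union_left ((hag'.awake g).2 hg'))]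
      have e1 : pos ω' (σ.1 ∪ cell ω'.1 w, σ.2) g = pos ω0 σ g := hag'.pos hI g
      have e2 : dep ω' (σ.1 ∪ cell ω'.1 w, σ.2) g = dep ω0 σ g := hag'.dep hI g
      rw [e1, e2, hps _ (hI.not_desc hg' hF.nmem)]
    · refine le_trans ?_ le_add_self
      unfold term
      by_cases h1 : awake ω'.2.1 (σ.1 ∪ cell ω'.1 w, σ.2).1 g
      · have hc := hI.cnt g hg'
        have h2 : g.1 ∈ cell ω'.1 w ∧ g.2 < ω'.2.1 g.1 := by
          rcases h1 with h1 | ⟨h1, h2, h3⟩
          · exact absurd (Or.inl h1) hg'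
          · rcases Finset.mem_union.1 h1 with h1 | h1
            · exact absurd ((hag'.awake g).1 (Or.inr ⟨h1, h2, h3⟩)) hg'
            · exact ⟨h1, h3⟩
        have h3 := suffix_of_mem_cell h2.1
        have h4 : g.1 ∈ cell Z' w ∧ g.2 < N' g.1 := by
          refine ⟨?_, ?_⟩
          · have := h2.1
            rwa [mem_cell, hsh, ← mem_cell] at this
          · have : ω'.2.1 g.1 = N' g.1 := mix_mem _ _ h3
            exact this ▸ h2.2
        rw [if_pos h1, if_pos h4, mul_one]
        unfold dep pos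
        simp only [hc, Finset.range_zero, Finset.sum_empty, add_zero, walk]
        refine ENNReal.ofReal_le_ofReal ((psi_le hβ h3).trans (le_of_eq ?_))
        rw [hps w fun _ => rfl, m1 _ hb.1 hb.2]
      · rw [if_neg h1]
        exact zero_le
  set G : (V → ℕ) → ℝ≥0∞ := fun Z => if Survives Z then
    ∑' g, old g (kk Z) + ENNReal.ofReal (hh A B (gk r (kk Z))) * (lam * csz Z) else 0 with hG
  have hL : ∀ Z', ∫⁻ N', (if cl (T2 w ω Z' N') (st a (T2 w ω Z' N') j) f = some (Sum.inr w)
      then HH r a (j + 1) (T2 w ω Z' N') else 0) ∂(QN lam) ≤ G (sh w Z') := by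
    intro Z'
    by_cases hs : Survives (sh w Z')
    · simp only [hG, hs, if_true]
      rw [← new_count lam Z' w, ← lintegral_const_mul' _ _ (by simp)]
      calc _ ≤ ∫⁻ N', (∑' g, old g (kk (sh w Z')) +
            ENNReal.ofReal (hh A B (gk r (kk (sh w Z')))) *
            ∑' g : Frog, if g.1 ∈ cell Z' w ∧ g.2 < N' g.1 then 1 else 0) ∂(QN lam) := by
            refine lintegral_mono fun N' => ?_
            dsimp only
            split_ifs
            · exact hpt Z' N' hs
            · exact zero_le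
        _ = _ := by
            rw [lintegral_add_left measurable_const]
            simp
    · refine le_of_eq_of_le (lintegral_congr (g := fun _ => 0) fun N' => ?_) (by simp)
      split_ifs with hc
      · rw [HH, if_neg]
        intro hs'
        have := (hfresh _ hc).surv hs'
        rw [hsh] at this
        exact hs this
      · rfl
  have hmo : ∀ g, Measurable fun Z : V → ℕ => if Survives Z then old g (kk Z) else 0 := fun g =>
    Measurable.ite ms_survives (measurable_kk (old g)) measurable_const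
  have hm2 : Measurable fun Z : V → ℕ => if Survives Z then
      ENNReal.ofReal (hh A B (gk r (kk Z))) * (1 + lam * csz Z) else 0 :=
    Measurable.ite ms_survives ((measurable_kk fun k => ENNReal.ofReal (hh A B (gk r k))).fun_mul
      ((measurable_csz.const_mul _).const_add _)) measurable_const
  have hGe : ∀ Z, G Z = (if Survives Z then
      ENNReal.ofReal (hh A B (gk r (kk Z))) * (1 + lam * csz Z) else 0) +
      (dep ω0 σ f * {Z : V → ℕ | Survives Z}.indicator 1 Z +
        ∑' g, if g = f then 0 else (if Survives Z then old g (kk Z) else 0)) := by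
    intro Z
    by_cases hZ : Survives Z
    · have hb := gk_bounds hr (kk_pos.2 hZ)
      simp only [hG, hZ, if_true, indicator, mem_ofPred_eq, Pi.one_apply, mul_one]
      rw [tsum_split (fun g => old g (kk Z)) f]
      have : old f (kk Z) = ENNReal.ofReal (hh A B (gk r (kk Z))) + dep ω0 σ f := by
        simp only [hold, haw, if_true]
        rw [hpos, m1 _ hb.1 hb.2]
      rw [this]
      ring
    · simp [hG, hZ]
  have hm3 : ∀ g, Measurable fun Z : V → ℕ =>
      if g = f then 0 else (if Survives Z then old g (kk Z) else 0) := by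
    intro g
    by_cases hgf : g = f
    · simp only [hgf, if_true]; exact measurable_const
    · simp only [hgf, if_false]; exact hmo g
  have hGm : Measurable G := by
    rw [funext hGe]
    exact hm2.fun_add ((hI1.const_mul _).fun_add (Measurable.tsum hm3))
  calc _ ≤ ∫⁻ Z', G (sh w Z') ∂(GW0 μ) := lintegral_mono hL
    _ = ∫⁻ Z, G Z ∂(GW0 μ) := (mp_sh μ w).lintegral_comp hGm
    _ ≤ Phi r ω0 σ * sv μ := by
      simp only [hGe]
      rw [lintegral_add_left hm2, lintegral_add_left (hI1.const_mul _),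
        lintegral_const_mul _ hI1, lintegral_indicator_one ms_survives,
        lintegral_tsum fun g => (hm3 g).aemeasurable, Phi, tsum_split (term r ω0 σ) f, add_mul,
        ← ENNReal.tsum_mul_right, ← add_assoc]
      gcongr with g
      · rw [term, if_pos haw, hpos, hγ, m1 _ (inv_bounds hr []).1 (inv_bounds hr []).2, add_mul]
        exact add_le_add hkey le_rfl
      · by_cases hgf : g = f
        · simp [hgf]
        · simp only [hgf, if_false]
          exact hper g
    _ = ∫⁻ Z', Phi r ω0 σ * {Z : V → ℕ | Survives Z}.indicator 1 (sh w Z') ∂(GW0 μ) := by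
      rw [lintegral_const_mul _ (hI1.fun_comp (measurable_sh w)),
        show ∫⁻ Z', {Z : V → ℕ | Survives Z}.indicator 1 (sh w Z') ∂(GW0 μ) =
          ∫⁻ Z, {Z : V → ℕ | Survives Z}.indicator 1 Z ∂(GW0 μ) from
          (mp_sh μ w).lintegral_comp hI1, lintegral_indicator_one ms_survives, sv]
    _ ≤ _ := by
      refine lintegral_mono fun Z' => ?_
      by_cases hs : Survives (sh w Z')
      · simp only [hst Z' _ hs, hcl Z' _ hs, if_true, HH, hsv Z' _ hs, (hag Z' _ hs).phi hI]
        simp [hs]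
      · simp [hs]

open Classical in
lemma reveal_step {r : ℝ} {lam : ℝ≥0} (hg : Good μ r lam) (a : ℕ → Frog) (j : ℕ) (w : V) :
    ∫⁻ ω, (if cl ω (st a ω j) (a j) = some (Sum.inr w) then HH r a (j + 1) ω else 0) ∂(PP μ lam) ≤
    ∫⁻ ω, (if cl ω (st a ω j) (a j) = some (Sum.inr w) then HH r a j ω else 0) ∂(PP μ lam) := by
  rw [lint_T2 μ lam w
      (Measurable.ite (disc_cls a j _) (measurable_HH r a (j + 1)) measurable_const),
    lint_T2 μ lam w (Measurable.ite (disc_cls a j _) (measurable_HH r a j) measurable_const)]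
  exact lintegral_mono fun ω => reveal_inner μ hg a j w ω

end Pool.Agent.H109Z.FrogGW
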