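import Pool.Agent.H109Z.Frog.Bm

set_option autoImplicit false

/-! The number of visitors of the root, given the tree. -/

namespace Pool.Agent.H109Z.FrogGW

open MeasureTheory ProbabilityTheory Function Finset
open scoped ENNReal NNReal

lemma walk_eq_wk (Z : V → ℕ) (U : Frog × ℕ → ℝ) (f : Frog) :
    ∀ k, walk Z U f k = wk Z f.1 (uf f U) k
  | 0 => rfl
  | k + 1 => by simp only [walk, wk, walk_eq_wk Z U f k, uf]

/-- at most `j` frogs visit the root -/
def Few (Z : V → ℕ) (j : ℕ) : Set ((V → ℕ) × (Frog × ℕ → ℝ)) :=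
  {p | ∃ B : Finset Frog, B.card ≤ j ∧
    ∀ f, Active Z p.1 p.2 f → (∃ k, walk Z p.2 f k = []) → f ∈ B}

theorem root_bound (hA : AStmt) (hA0 : A0Stmt) (hD1 : D1Stmt) (Z : V → ℕ) (h : ℕ) (lam : ℝ≥0)
    (hpos : 0 < gh (h + 1) Z) (j : ℕ) :
    ENNReal.ofReal (1 / 2) ^ j * FM lam (Few Z j) ≤
      ∑ i ∈ range (Z []), ENNReal.ofReal (gh h (sh [i] Z) / Cs (fun i => gh h (sh [i] Z)) (Z [])) *
        Lap (PM lam h (sh [i] Z)) (1 / 2) := by
  classical
  obtain ⟨mk, hd, hnil, hrec, hsound⟩ := hA Z (h + 1)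
  obtain ⟨ex, hex, hlaw, hsex⟩ := hA0 Z (h + 1) hpos
  set s : ℝ≥0∞ := ENNReal.ofReal (1 / 2) with hsd
  have hs : s ≤ 1 := ENNReal.ofReal_le_one.2 (by norm_num)
  set S0 : Set V := {z | z ≠ []} with hS0
  set f0 : Frog := ([], 0) with hf0
  have hf0S : f0.1 ∉ S0 := fun h => h rfl
  set Φ : (V → ℕ) × (Frog × ℕ → ℝ) → ℝ≥0∞ := fun ω =>
    Ph s ∅ S0 (pth [] (ex (uf f0 ω.2))) ω.1 (MK mk Prod.fst ω.2) with hΦ
  have hm := fun e => measurable_PhMK hd s Prod.fst ∅ S0 (pth [] e)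
  have hΦm : Measurable Φ :=
    (hex.comp ((measurable_uf f0).comp measurable_snd)).measurable
      (g := fun e (ω : (V → ℕ) × (Frog × ℕ → ℝ)) =>
        Ph s ∅ S0 (pth [] e) ω.1 (MK mk Prod.fst ω.2)) hm
  -- lower bound on the event
  have hlow : s ^ j * FM lam (Few Z j) ≤ ∫⁻ ω, Φ ω ∂(FM lam) := by
    refine le_trans (mul_le_mul' le_rfl (measure_mono_ae ?_))
      (mul_meas_ge_le_lintegral₀ hΦm.aemeasurable (s ^ j))
    have hq : ∀ f, MeasurePreserving (fun ω : (V → ℕ) × (Frog × ℕ → ℝ) => uf f ω.2) (FM lam) UU :=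
      fun f => (mp_uf f).comp (measurePreserving_snd (μ := QN lam) (ν := QU))
    have h1 := ae_all_iff.2 fun f : Frog => (hq f).quasiMeasurePreserving.ae (hsound f.1)
    have h2 := (hq f0).quasiMeasurePreserving.ae hsex
    filter_upwards [h1, h2] with ω h1 h2
    rintro ⟨B0, hB0, hB⟩
    have hact : ∀ g, Act ∅ S0 (pth [] (ex (uf f0 ω.2))) ω.1 (MK mk Prod.fst ω.2) g →
        Active Z ω.1 ω.2 g := by
      intro g hg
      refine Act.ind (p := fun g => Active Z ω.1 ω.2 g) ?_ ?_ hg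
      · rintro g (hg | ⟨h3, h4, h5⟩)
        · simp at hg
        · obtain ⟨k, hk⟩ := h2 g.1 h3.2
          exact Active.wake f0 k g.1 g.2 Active.root (by rw [walk_eq_wk]; exact hk) h4 h5
      · rintro f g - hf ⟨h3, h4, y, e, h5, h6⟩
        obtain ⟨k, hk⟩ := (h1 f).1 y e h5 g.1 h6.1 h6.2
        exact Active.wake f k g.1 g.2 hf (by rw [walk_eq_wk]; exact hk) h3 h4
    refine le_iInf fun B => ?_
    rw [Finset.prod_ite, Finset.prod_const, Finset.prod_const_one, mul_one]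
    refine pow_le_pow_right_of_le_one' hs (le_trans (Finset.card_le_card fun g hg => ?_) hB0)
    obtain ⟨-, h3, h4⟩ := Finset.mem_filter.1 hg
    obtain ⟨k, hk⟩ := (h1 g).2 h4
    exact hB g (hact g h3) ⟨k, by rw [walk_eq_wk]; exact hk⟩
  refine hlow.trans ?_
  -- upper bound on the mean
  set g : ℕ → ℝ := fun i => gh h (sh [i] Z) with hg
  have hg0 : ∀ i, 0 ≤ g i := fun i => (gh_box h _).1
  have hCs := Cs_nonneg (g := g) (k := Z []) fun i _ => hg0 i
  have hgh : gh (h + 1) Z = Cs g (Z []) / (1 + Cs g (Z [])) := rfl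
  have hC : 0 < Cs g (Z []) := by
    rcases hCs.eq_or_lt with h0 | h0
    · rw [hgh, ← h0] at hpos; simp at hpos
    · exact h0
  have hup : ENNReal.ofReal (gh (h + 1) Z) * ∫⁻ ω, Φ ω ∂(FM lam) ≤
      AW Z (h + 1) [] fun e => WW lam s mk Prod.fst ∅ S0 (pth [] e) := by
    have hr := mp_right (QN lam) (mp_mix unif {p : Frog × ℕ | p.1 = f0})
    unfold WW
    rw [← AW_lint _ Z hm]
    rw [show FM lam = (QN lam).prod QU from rfl, lint_resample hr hΦm,
      ← lintegral_const_mul' _ _ ENNReal.ofReal_ne_top]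
    refine lintegral_mono fun ω => ?_
    refine le_trans (mul_le_mul' le_rfl ?_) (hlaw (fun e => Ph s ∅ S0 (pth [] e) ω.1
      (MK mk Prod.fst ω.2)) fun _ => Ph_le_one _ _ _ _ _ _)
    rw [← (mp_uf f0).lintegral_comp (hex.measurable (g := fun e _ => Ph s ∅ S0 (pth [] e) ω.1
      (MK mk Prod.fst ω.2)) fun _ => measurable_const)]
    refine lintegral_mono fun U' => ?_
    simp only [hΦ, uf_mix_self, MK_mix]
    exact Ph_irrel hs _ _ _ hf0S _
  have hch : ∀ i ∈ range (Z []), AW Z h [i] (fun e => WW lam s mk Prod.fst ∅ S0 (pth [] e)) ≤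
      ENNReal.ofReal (g i) * Lap (PM lam h (sh [i] Z)) (1 / 2) := by
    intro i hi
    have := Cl_all (lam := lam) hD1 hs hd hrec h [i] (List.cons_ne_nil _ _)
      (inTree_single.2 (mem_range.1 hi)) (by simp; omega) Prod.fst ∅ S0 ∅ Unit (fun _ => 1)
      (fun _ => 1 / 2) (fun _ => by norm_num) (fun z hz h0 => by simp [h0] at hz) (by simp)
      (fun _ _ => rfl) (fun ps' B hB _ => by
        rw [tsum_fintype]
        simp only [Finset.empty_union, Finset.univ_unique, Finset.sum_const, Finset.card_singleton,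
          one_mul, one_smul]
        exact WW_root hnil (fun f hf => (hB f hf).2) _ _)
    rw [tsum_fintype] at this
    simp only [Finset.univ_unique, Finset.sum_const, Finset.card_singleton, one_mul, one_smul,
      Set.empty_union] at this
    rw [show (1 - 1 / 2 : ℝ) = 1 / 2 by norm_num] at this
    exact (AW_mono Z h _ fun e => WW_mono hs _ subset_rfl subset_rfl (pth_child i [] e)).trans this
  have hfin := hup.trans (mul_le_mul' (Finset.sum_le_sum hch) le_rfl)
  have hne : ENNReal.ofReal (gh (h + 1) Z) ≠ 0 := by simpa using hpos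
  rw [← ENNReal.mul_le_mul_iff_right hne ENNReal.ofReal_ne_top]
  refine hfin.trans (le_of_eq ?_)
  rw [Finset.sum_mul, Finset.mul_sum]
  refine Finset.sum_congr rfl fun i _ => ?_
  rw [← mul_assoc, ← ENNReal.ofReal_mul hpos.le, mul_right_comm, ← ENNReal.ofReal_mul (hg0 i), hgh]
  congr 2
  change g i * (1 / (1 + Cs g (Z []))) = _ * (g i / Cs g (Z []))
  field_simp

end Pool.Agent.H109Z.FrogGW
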