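import Pool.Agent.H109Z.Frog.Main

set_option autoImplicit false

namespace Pool.Agent.H109Z.FrogGW

open MeasureTheory ProbabilityTheory Set Filter Topology
open scoped NNReal ENNReal

variable (μ : Measure ℕ) [IsProbabilityMeasure μ]

/-- survival up to generation `n` -/
def SS (n : ℕ) : Set (V → ℕ) := {Z | ∃ v : V, v.length = n ∧ InTree Z v}

lemma ms_SS (n : ℕ) : MeasurableSet (SS n) := by
  have : SS n = ⋃ v : V, {_Z | v.length = n} ∩ {Z | InTree Z v} := by
    ext Z; simp [SS]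
  rw [this]
  exact MeasurableSet.iUnion fun v => (MeasurableSet.const _).inter (ms_inTree v)

lemma SS_anti : Antitone SS := by
  refine antitone_nat_of_succ_le fun n => ?_
  rintro Z ⟨v, h1, h2⟩
  cases v with
  | nil => simp at h1
  | cons i v => exact ⟨v, by simpa using h1, (inTree_cons.1 h2).1⟩

lemma root_lt (i : ℕ) : GW0 μ {Z : V → ℕ | i < Z []} = μ {n | i < n} :=
  (measurePreserving_eval_infinitePi (fun _ : V => μ) []).measure_preimage
    (s := {n | i < n}) MeasurableSet.of_discrete.nullMeasurableSet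

lemma ms_fail (B : Set (V → ℕ)) (hB : MeasurableSet B) (i m : ℕ) :
    MeasurableSet {Z : V → ℕ | i < Z [] ∧ ∀ j < m, sh [j] Z ∈ B} := by
  have : {Z : V → ℕ | i < Z [] ∧ ∀ j < m, sh [j] Z ∈ B} =
      {Z | i < Z []} ∩ ⋂ j : ℕ, ⋂ _ : j < m, sh [j] ⁻¹' B := by
    ext Z; simp
  rw [this]
  exact (ms_lt i []).inter (MeasurableSet.iInter fun j => MeasurableSet.iInter fun _ =>
    measurable_sh _ hB)

lemma mix_fail (B : Set (V → ℕ)) (i m : ℕ) (x y : V → ℕ) :
    mix (Dw [m]) x y ∈ {Z : V → ℕ | i < Z [] ∧ ∀ j < m, sh [j] Z ∈ B} ↔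
      x ∈ {Z : V → ℕ | i < Z [] ∧ ∀ j < m, sh [j] Z ∈ B} := by
  simp only [mem_ofPred_eq, mix_root]
  refine and_congr_right fun _ => forall_congr' fun j => forall_congr' fun hj => ?_
  rw [sh_mix_ne hj.ne]

lemma meas_fail (B : Set (V → ℕ)) (hB : MeasurableSet B) (i m : ℕ) :
    GW0 μ {Z : V → ℕ | i < Z [] ∧ ∀ j < m, sh [j] Z ∈ B} = μ {n | i < n} * GW0 μ B ^ m := by
  induction m with
  | zero => simp [root_lt]
  | succ m ih =>
    rw [pow_succ, ← mul_assoc, ← ih, ← meas_child μ m (ms_fail B hB i m) hB (mix_fail B i m)]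
    congr 1
    ext Z
    simp only [mem_ofPred_eq, mem_inter_iff, mem_preimage, Nat.forall_lt_succ_right, and_assoc]

lemma SS_rec (n K : ℕ) : (∑ i ∈ Finset.range K, μ {k | i < k}) * GW0 μ (SS n)ᶜ ^ K *
    GW0 μ (SS n) ≤ GW0 μ (SS (n + 1)) := by
  set E : ℕ → Set (V → ℕ) := fun i =>
    {Z : V → ℕ | i < Z [] ∧ ∀ j < i, sh [j] Z ∈ (SS n)ᶜ} ∩ sh [i] ⁻¹' SS n with hE
  have hm : ∀ i, MeasurableSet (E i) := fun i =>
    (ms_fail _ (ms_SS n).compl i i).inter (measurable_sh _ (ms_SS n))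
  have hd : Pairwise (Function.onFun Disjoint E) := by
    intro i j hij
    rw [Function.onFun, Set.disjoint_left]
    intro Z h1 h2
    rcases lt_or_gt_of_ne hij with h | h
    · exact h2.1.2 i h h1.2
    · exact h1.1.2 j h h2.2
  calc _ ≤ ∑ i ∈ Finset.range K, GW0 μ (E i) := by
        rw [Finset.sum_mul, Finset.sum_mul]
        refine Finset.sum_le_sum fun i hi => ?_
        rw [hE]
        dsimp only
        rw [meas_child μ i (ms_fail _ (ms_SS n).compl i i) (ms_SS n) (mix_fail _ i i),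
          meas_fail μ _ (ms_SS n).compl]
        gcongr ?_ * _
        exact mul_le_mul_right
          (pow_le_pow_of_le_one zero_le prob_le_one (Finset.mem_range.1 hi).le) _
    _ ≤ ∑' i, GW0 μ (E i) := ENNReal.sum_le_tsum _
    _ = GW0 μ (⋃ i, E i) := (measure_iUnion hd hm).symm
    _ ≤ _ := by
        refine measure_mono (iUnion_subset fun i => ?_)
        rintro Z ⟨⟨h1, -⟩, v, h2, h3⟩
        exact ⟨v ++ [i], by simp [h2], (inTree_append _ _).2 ⟨inTree_single.2 h1, h3⟩⟩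

theorem sv_ne_zero (hm : 1 < ∫⁻ n, (n : ℝ≥0∞) ∂μ) : sv μ ≠ 0 := by
  intro hs
  have e1 : ∫⁻ n, (n : ℝ≥0∞) ∂μ = ∑' i, μ {k | i < k} := by
    have : ∀ i : ℕ, μ {k | i < k} = ∫⁻ n, {k | i < k}.indicator 1 n ∂μ := fun i =>
      (lintegral_indicator_one MeasurableSet.of_discrete).symm
    simp only [this]
    rw [← lintegral_tsum fun i => Measurable.of_discrete.aemeasurable]
    congr 1
    ext n
    rw [tsum_eq_sum (s := Finset.range n) (fun i hi => by simpa using hi),
      Finset.sum_congr rfl (g := fun _ => 1)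
        (fun i hi => by simp [indicator, Finset.mem_range.1 hi])]
    simp
  rw [e1, ENNReal.tsum_eq_iSup_nat, lt_iSup_iff] at hm
  obtain ⟨K, hK⟩ := hm
  set M := ∑ i ∈ Finset.range K, μ {k | i < k} with hM
  have hq : Tendsto (fun n => GW0 μ (SS n)ᶜ) atTop (𝓝 1) := by
    have h1 := tendsto_measure_iUnion_atTop (μ := GW0 μ) (s := fun n => (SS n)ᶜ)
      fun i j hij => compl_subset_compl.2 (SS_anti hij)
    have h2 : GW0 μ (⋃ n, (SS n)ᶜ) = 1 := by
      rw [← compl_iInter, prob_compl_eq_one_iff (MeasurableSet.iInter ms_SS)]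
      refine measure_mono_null (fun Z hZ => ?_) hs
      intro hf
      obtain ⟨v, h1, h2⟩ := mem_iInter.1 hZ (hf.toFinset.sup List.length + 1)
      have := Finset.le_sup (f := List.length) (hf.mem_toFinset.2 h2)
      omega
    rwa [h2] at h1
  have hq2 : Tendsto (fun n => M * GW0 μ (SS n)ᶜ ^ K) atTop (𝓝 (M * 1 ^ K)) :=
    ENNReal.Tendsto.const_mul (ENNReal.Tendsto.pow hq) (Or.inl (by simp))
  rw [one_pow, mul_one] at hq2
  obtain ⟨n, hn⟩ := (hq2.eventually (lt_mem_nhds hK)).exists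
  have h0 : μ {k | 0 < k} ≠ 0 := by
    intro h
    have : M = 0 := Finset.sum_eq_zero fun i _ =>
      measure_mono_null (fun k (hk : i < k) => (by omega : 0 < k)) h
    rw [this] at hK
    simp at hK
  have hpos : ∀ n, GW0 μ (SS n) ≠ 0 := by
    intro n
    induction n with
    | zero =>
      have : SS 0 = univ := eq_univ_of_forall fun Z => ⟨[], rfl, InTree.root⟩
      simp [this]
    | succ n ih =>
      have h1 := meas_child μ 0 (ms_lt 0 []) (ms_SS n) (fun x y => by simp [mix_root])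
      rw [root_lt] at h1
      intro h
      refine mul_ne_zero h0 ih (h1 ▸ measure_mono_null ?_ h)
      rintro Z ⟨h2, v, h3, h4⟩
      exact ⟨v ++ [0], by simp [h3], (inTree_append _ _).2 ⟨inTree_single.2 h2, h4⟩⟩
  have h3 := (SS_rec μ n K).trans (measure_mono (SS_anti (Nat.le_succ n)))
  have h4 : 1 * GW0 μ (SS n) < M * GW0 μ (SS n)ᶜ ^ K * GW0 μ (SS n) :=
    ENNReal.mul_lt_mul_left (hpos n) (measure_ne_top _ _) hn
  rw [one_mul] at h4
  exact absurd h3 (not_le.2 h4)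

theorem transient_regime (hm : 1 < ∫⁻ n, (n : ℝ≥0∞) ∂μ) :
    IsProbabilityMeasure (GW μ) ∧
      ∃ lam : ℝ≥0, 0 < lam ∧ ∀ᵐ Z ∂(GW μ), Transient lam Z := by
  refine ⟨cond_isProbabilityMeasure (sv_ne_zero μ hm), ?_⟩
  obtain ⟨lam, hl, h⟩ := visits_finite μ hm
  refine ⟨lam, hl, ?_⟩
  filter_upwards [cond_absolutelyContinuous.ae_le h, ae_cond_mem ms_survives] with Z h1 h2
  filter_upwards [h1 h2] with q hq
  refine (hq.image Prod.fst).subset ?_
  rintro f ⟨h3, n, h4⟩
  exact ⟨(f, n), ⟨h3, h4⟩, rfl⟩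

end Pool.Agent.H109Z.FrogGW
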