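import Pool.Agent.H109Z.Frog.DP
import Pool.Agent.H109Z.Frog.Super

set_option autoImplicit false

/-!
Recurrence of the frog model on Galton-Watson trees: the comparison model and the statements of
the intermediate steps.  The tree is cut at level `n`; a vertex at level `n - h` has height `h`.
-/

namespace Pool.Agent.H109Z.FrogGW

open MeasureTheory Function Finset
open scoped ENNReal NNReal

/-- total conductance of the first `k` children -/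
noncomputable def Cs (g : ℕ → ℝ) (k : ℕ) : ℝ := ∑ i ∈ range k, g i

/-- probability that the walk from the root of `Z` gets `h` levels down before visiting the
(virtual) parent of the root -/
noncomputable def gh : ℕ → (V → ℕ) → ℝ
  | 0, _ => 1
  | h + 1, Z => Cs (fun i => gh h (sh [i] Z)) (Z []) / (1 + Cs (fun i => gh h (sh [i] Z)) (Z []))

/-- `AW Z h w φ` is the mean of `φ` at the exit point `h` levels below `w`, on the event that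
the walk from `w` exits before visiting the parent of `w` -/
noncomputable def AW (Z : V → ℕ) : ℕ → V → (V → ℝ≥0∞) → ℝ≥0∞
  | 0, w, φ => φ w
  | h + 1, w, φ => (∑ i ∈ range (Z w), AW Z h (i :: w) φ) *
      ENNReal.ofReal (1 / (1 + Cs (fun i => gh h (sh (i :: w) Z)) (Z w)))

/-- the walk from `x` driven by `u` -/
noncomputable def wk (Z : V → ℕ) (x : V) (u : ℕ → ℝ) : ℕ → V
  | 0 => x
  | k + 1 => step Z (wk Z x u k) (u k)

/-- iid uniform variables -/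
noncomputable def UU : Measure (ℕ → ℝ) := Measure.infinitePi fun _ : ℕ => unif

/-- Marks of the walks: `some (y, e)` when the walk exits at `e` on level `n` and `y` is the
highest vertex visited before, `none` when it visits the root first. -/
def AStmt : Prop := ∀ (Z : V → ℕ) (n : ℕ), ∃ mk : V → (ℕ → ℝ) → Option (V × V),
  (∀ x, Disc (mk x)) ∧ (∀ u, mk [] u = none) ∧
  (∀ i v h, InTree Z (i :: v) → (i :: v).length + h = n → ∀ F : Option (V × V) → ℝ≥0∞,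
    (∀ a, F a ≤ 1) → ∫⁻ u, F (mk (i :: v) u) ∂UU ≤
      AW Z h (i :: v) (fun e => F (some (i :: v, e))) +
        ENNReal.ofReal (1 - gh h (sh (i :: v) Z)) * ∫⁻ u, F (mk v u) ∂UU) ∧
  ∀ x, ∀ᵐ u ∂UU, (∀ y e, mk x u = some (y, e) → ∀ z, y <:+ z → z <:+ e → ∃ k, wk Z x u k = z) ∧
    (mk x u = none → ∃ k, wk Z x u k = [])

/-- The exit point on level `n` of the walk from the root. -/
def A0Stmt : Prop := ∀ (Z : V → ℕ) (n : ℕ), 0 < gh n Z → ∃ ex : (ℕ → ℝ) → V, Disc ex ∧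
  (∀ φ : V → ℝ≥0∞, (∀ e, φ e ≤ 1) →
    ENNReal.ofReal (gh n Z) * ∫⁻ u, φ (ex u) ∂UU ≤ AW Z n [] φ) ∧
  ∀ᵐ u ∂UU, ∀ z, z <:+ ex u → ∃ k, wk Z [] u k = z

open Classical in
/-- a child chosen with probability proportional to `g` -/
noncomputable def lead (g : ℕ → ℝ) (k : ℕ) : PMF ℕ :=
  if h : ∑ i ∈ range k, ENNReal.ofReal (g i / Cs g k) = 1 then
    PMF.ofFinset (fun i => if i ∈ range k then ENNReal.ofReal (g i / Cs g k) else 0) (range k)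
      (by rw [← h]; exact Finset.sum_congr rfl fun i hi => if_pos hi) (fun i hi => if_neg hi)
  else PMF.pure 0

/-- the children hit by a Poisson(`m`) number of particles at their parent -/
noncomputable def row (g : ℕ → ℝ) (k : ℕ) (m : ℝ) : PMF (ℕ → Bool) :=
  piL (fun b => bern (m * g b / (1 + Cs g k))) (fun _ => false) (List.range k)

/-- the random digraph on the children: `r a b` when a particle sent by `a` enters `b` -/
noncomputable def rows (g : ℕ → ℝ) (k : ℕ) (m : ℕ → ℝ) : PMF (ℕ → ℕ → Bool) :=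
  piL (fun a => row g k (m a)) (fun _ _ => false) (List.range k)

open Classical in
/-- the children reached from `c` -/
noncomputable def Rch (k : ℕ) (r : ℕ → ℕ → Bool) (c : ℕ) : Finset ℕ :=
  (range k).filter fun b => Relation.ReflTransGen (fun a b => b < k ∧ r a b = true) c b

/-- the intensity sent up by a vertex of height `h + 1` -/
noncomputable def stepM (lam : ℝ) (h : ℕ) (g m : ℕ → ℝ) (k : ℕ) : PMF ℝ :=
  (lead g k).bind fun c => (rows g k (update m c (lam + m c))).map fun r =>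
    min (((h : ℝ) + 1) * (Cs g k / (1 + Cs g k))) ((lam + ∑ a ∈ Rch k r c, m a) / (1 + Cs g k))

/-- quenched law of the intensity -/
noncomputable def PM (lam : ℝ) : ℕ → (V → ℕ) → PMF ℝ
  | 0, _ => PMF.pure 0
  | h + 1, Z => (piL (fun i => PM lam h (sh [i] Z)) (fun _ => 0) (List.range (Z []))).bind
      fun m => stepM lam h (fun i => gh h (sh [i] Z)) m (Z [])

/-- annealed law of (escape probability, intensity) -/
noncomputable def nu (μ : PMF ℕ) (lam : ℝ) : ℕ → PMF (ℝ × ℝ)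
  | 0 => PMF.pure (1, 0)
  | h + 1 => μ.bind fun k =>
      (piL (fun _ => nu μ lam h) (fun _ => ((0 : ℝ), (0 : ℝ))) (List.range k)).bind fun x =>
        (stepM lam h (fun i => (x i).1) (fun i => (x i).2) k).map fun m =>
          (Cs (fun i => (x i).1) k / (1 + Cs (fun i => (x i).1) k), m)

/-- expectation over the number of children and their iid data -/
noncomputable def EZ (μ : PMF ℕ) (ν : PMF (ℝ × ℝ)) (F : ℕ → (ℕ → ℝ × ℝ) → ℝ≥0∞) : ℝ≥0∞ :=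
  EL μ fun k => EL (piL (fun _ => ν) (fun _ => ((0 : ℝ), (0 : ℝ))) (List.range k)) (F k)

/-- Laplace transform -/
noncomputable def Lap (P : PMF ℝ) (τ : ℝ) : ℝ≥0∞ := EL P fun m => ee (τ * m)

/-- sample space of the marked digraph -/
abbrev XX := (ℕ → ℝ) × (ℕ → ℕ → Bool) × (ℕ → Bool)

def D1Stmt : Prop := ∀ (g : ℕ → ℝ) (k : ℕ) (Pm : ℕ → PMF ℝ) (t lam : ℝ) (h : ℕ),
  (∀ i < k, 0 ≤ g i) → (∀ i < k, ∀ a ∈ (Pm i).support, 0 ≤ a) → 0 ≤ t → t ≤ 1 → 0 ≤ lam →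
  ∃ (TT : PMF XX) (σ : Finset ℕ → XX → ℝ),
    (∀ U, U ⊆ range k → ∀ x, 0 ≤ σ U x ∧ σ U x ≤ 1) ∧
    (∀ U, U ⊆ range k → ∀ n : ℕ,
      ENNReal.ofReal ((1 - t + ∑ c ∈ range k \ U, g c) / (1 + Cs g k)) *
          EL TT (fun x => ENNReal.ofReal (σ U x) ^ n) +
        ∑ c ∈ U, ENNReal.ofReal (g c / (1 + Cs g k)) *
          EL TT (fun x => ENNReal.ofReal (σ (U.erase c) x) ^ n * Lap (Pm c) (1 - σ (U.erase c) x))
      ≤ EL TT fun x => ENNReal.ofReal (σ U x) ^ (n + 1)) ∧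
    ∑ c ∈ range k, ENNReal.ofReal (g c / (1 + Cs g k)) *
        EL TT (fun x => ee (lam * (1 - σ ((range k).erase c) x)) *
          Lap (Pm c) (1 - σ ((range k).erase c) x))
      ≤ ENNReal.ofReal (Cs g k / (1 + Cs g k)) *
        Lap ((piL Pm (fun _ => 0) (List.range k)).bind fun m => stepM lam h g m k) t

def D2Stmt : Prop := ∀ (g m : ℕ → ℝ) (k c0 c : ℕ), (∀ i < k, 0 ≤ g i) → (∀ i < k, 0 ≤ m i) →
  c0 < k → c < k →
  EL (rows g k m) (fun r => if c ∈ Rch k r c0 then 0 else 1) ≤ ee (m c0 * g c / (1 + Cs g k))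

def D3Stmt : Prop := ∀ (g m : ℕ → ℝ) (k c0 c : ℕ) (Gd : Finset ℕ) (γ0 y : ℝ),
  (∀ i < k, 0 ≤ g i) → (∀ i < k, 0 ≤ m i) → c0 < k → c < k → Gd ⊆ range k → c0 ∉ Gd →
  0 ≤ γ0 → 0 ≤ y → (∀ b ∈ Gd, γ0 ≤ g b ∧ y ≤ m b) →
  EL (rows g k m) (fun r => if c ∈ Rch k r c0 then 0 else 1) ≤
    ee (m c0 * γ0 * Gd.card / (1 + Cs g k)) +
      2 * ee ((1 - Real.exp (-(y * γ0 / (1 + Cs g k)))) * Gd.card / 4) +
      ee (y * g c * Gd.card / (2 * (1 + Cs g k)))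

/-- annealing: the quenched laws average to `nu` -/
def AnnStmt : Prop := ∀ (μ : Measure ℕ) [IsProbabilityMeasure μ] (lam : ℝ) (h : ℕ),
  (∀ f : ℝ × ℝ → ℝ≥0∞, Measurable (fun Z => EL (PM lam h Z) fun m => f (gh h Z, m)) ∧
    ∫⁻ Z, EL (PM lam h Z) (fun m => f (gh h Z, m)) ∂(GW0 μ) = EL (nu μ.toPMF lam h) f) ∧
  ∀ F : ℕ → (ℕ → ℝ × ℝ) → ℝ≥0∞, (∀ k x x', (∀ i < k, x i = x' i) → F k x = F k x') →
    Measurable (fun Z : V → ℕ =>
      EL (piL (fun i => PM lam h (sh [i] Z)) (fun _ => 0) (List.range (Z []))) fun m =>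
        F (Z []) fun i => (gh h (sh [i] Z), m i)) ∧
    ∫⁻ Z, EL (piL (fun i => PM lam h (sh [i] Z)) (fun _ => 0) (List.range (Z [])))
      (fun m => F (Z []) fun i => (gh h (sh [i] Z), m i)) ∂(GW0 μ) =
      EZ μ.toPMF (nu μ.toPMF lam h) F

/-- the conductance of the siblings of `i` -/
noncomputable def sib (x : ℕ → ℝ × ℝ) (k i : ℕ) : ℝ := ∑ j ∈ (range k).erase i, (x j).1

/-- the properties of the first marginals -/
structure Env (μ : PMF ℕ) (σ0 : ℝ≥0∞) (ν : ℕ → PMF (ℝ × ℝ)) : Prop where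
  box : ∀ h, ∀ x ∈ (ν h).support, 0 ≤ x.1 ∧ x.1 ≤ 1
  zero : ∀ x ∈ (ν 0).support, x.1 = 1
  succ : ∀ h (f : ℝ → ℝ≥0∞), EL (ν (h + 1)) (fun x => f x.1) =
    EZ μ (ν h) fun k x => f (Cs (fun i => (x i).1) k / (1 + Cs (fun i => (x i).1) k))
  low : ∀ h, σ0 ≤ EL (ν h) fun x => if 0 < x.1 then 1 else 0
  anti : ∀ h, EL (ν (h + 1)) (fun x => if 0 < x.1 then 1 else 0) ≤
    EL (ν h) fun x => if 0 < x.1 then 1 else 0

/-- uniform estimates on the environment -/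
def EnvStmt : Prop := ∀ (μ : PMF ℕ) (σ0 : ℝ≥0∞), σ0 ≠ 0 → (∃ k, 2 ≤ k ∧ μ k ≠ 0) →
  (∀ r : ℕ, ∃ G : ℝ≥0∞, G ≠ ⊤ ∧ ∀ ν, Env μ σ0 ν → ∀ h,
    EL (ν h) (fun x => if 0 < x.1 then ENNReal.ofReal (1 / x.1) ^ r else 0) ≤ G) ∧
  (∃ γ0 π0 : ℝ, 0 < γ0 ∧ γ0 ≤ 1 ∧ 0 < π0 ∧ π0 ≤ 1 ∧ ∀ ν, Env μ σ0 ν → ∀ h,
    ENNReal.ofReal π0 ≤ EL (ν h) fun x => if γ0 ≤ x.1 then 1 else 0) ∧
  (∀ ε : ℝ≥0∞, ε ≠ 0 → ∃ K : ℕ, ∀ ν, Env μ σ0 ν → ∀ h,
    EZ μ (ν h) (fun k x => ∑ i ∈ range k,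
      if K < k then ENNReal.ofReal (1 / (1 + sib x k i)) else 0) ≤ ε) ∧
  (∃ κ : ℝ≥0∞, κ ≠ ⊤ ∧ ∀ ν, Env μ σ0 ν → ∀ h,
    EZ μ (ν h) (fun k x => ∑ i ∈ range k, ENNReal.ofReal (1 / (1 + sib x k i))) ≤ κ) ∧
  ∃ (q : ℕ) (θ : ℝ≥0∞), 1 ≤ q ∧ θ < 1 ∧ ∀ ν, Env μ σ0 ν → ∀ h,
    EZ μ (ν h) (fun k x => ∑ i ∈ range k, ENNReal.ofReal (1 / (1 + sib x k i)) ^ q) ≤ θ

/-- normalised deficit (zero when `x.1 = 0`) -/
noncomputable def dl (h : ℕ) (x : ℝ × ℝ) : ℝ := ((h : ℝ) * x.1 - x.2) / x.1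

/-- mean harmonic weight of the children that are not reached -/
noncomputable def failP (lam : ℝ) (k : ℕ) (x : ℕ → ℝ × ℝ) : ℝ≥0∞ :=
  EL (lead (fun i => (x i).1) k) fun c =>
    EL (rows (fun i => (x i).1) k (update (fun i => (x i).2) c (lam + (x c).2))) fun r =>
      ∑ b ∈ range k \ Rch k r c, ENNReal.ofReal ((x b).1 / Cs (fun i => (x i).1) k)

/-- the failure term -/
def EJStmt : Prop := ∀ (μ : PMF ℕ) (σ0 : ℝ≥0∞), σ0 ≠ 0 → (∃ k, 2 ≤ k ∧ μ k ≠ 0) →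
  ∀ q : ℕ, 1 ≤ q → ∃ π1 CJ : ℝ≥0∞, π1 ≠ 0 ∧ CJ ≠ ⊤ ∧ ∀ ε : ℝ≥0∞, ε ≠ 0 → ∃ l0 : ℝ,
    ∀ lam, l0 ≤ lam → 0 ≤ lam → ∀ ν, Env μ σ0 ν → ∀ h : ℕ,
      (∀ x ∈ (ν h).support, 0 ≤ x.2 ∧ x.2 ≤ h * x.1) →
      EL (ν h) (fun x => if 0 < dl h x then 1 else 0) ≤ π1 →
      (h : ℝ≥0∞) ^ q * EZ μ (ν h) (failP lam) ≤
        ε * EL (ν h) (fun x => ENNReal.ofReal (dl h x) ^ q) + CJ

/-! ### basic facts -/

lemma Cs_nonneg {g : ℕ → ℝ} {k : ℕ} (hg : ∀ i < k, 0 ≤ g i) : 0 ≤ Cs g k :=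
  Finset.sum_nonneg fun i hi => hg i (mem_range.1 hi)

lemma Cs_le {g : ℕ → ℝ} {k : ℕ} (hg : ∀ i < k, g i ≤ 1) : Cs g k ≤ k := by
  have := Finset.sum_le_card_nsmul (range k) g 1 fun i hi => hg i (mem_range.1 hi)
  simpa [Cs] using this

lemma gh_box : ∀ (h : ℕ) (Z : V → ℕ), 0 ≤ gh h Z ∧ gh h Z ≤ 1
  | 0, _ => by simp [gh]
  | h + 1, Z => by
    have := Cs_nonneg (g := fun i => gh h (sh [i] Z)) (k := Z []) fun i _ => (gh_box h _).1
    unfold gh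
    refine ⟨by positivity, ?_⟩
    rw [div_le_one (by positivity)]
    linarith

lemma gh_succ_sh (h : ℕ) (w : V) (Z : V → ℕ) : gh (h + 1) (sh w Z) =
    Cs (fun i => gh h (sh (i :: w) Z)) (Z w) / (1 + Cs (fun i => gh h (sh (i :: w) Z)) (Z w)) := by
  simp only [gh, sh_sh]
  rfl

lemma EL_lead {g : ℕ → ℝ} {k : ℕ} (hg : ∀ i < k, 0 ≤ g i) (hC : 0 < Cs g k) (f : ℕ → ℝ≥0∞) :
    EL (lead g k) f = ∑ i ∈ range k, ENNReal.ofReal (g i / Cs g k) * f i := by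
  have h : ∑ i ∈ range k, ENNReal.ofReal (g i / Cs g k) = 1 := by
    rw [← ENNReal.ofReal_sum_of_nonneg fun i hi => div_nonneg (hg i (mem_range.1 hi)) hC.le,
      ← Finset.sum_div]
    change ENNReal.ofReal (Cs g k / Cs g k) = 1
    rw [div_self hC.ne', ENNReal.ofReal_one]
  unfold lead EL
  rw [dif_pos h, tsum_eq_sum (s := range k)]
  · refine Finset.sum_congr rfl fun i hi => ?_
    simp only [PMF.ofFinset_apply, if_pos hi]
  · intro i hi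
    simp only [PMF.ofFinset_apply, if_neg hi, zero_mul]

lemma self_mem_Rch {k c : ℕ} (r : ℕ → ℕ → Bool) (hc : c < k) : c ∈ Rch k r c := by
  simp only [Rch, mem_filter, mem_range]
  exact ⟨hc, Relation.ReflTransGen.refl⟩

lemma Rch_subset (k c : ℕ) (r : ℕ → ℕ → Bool) : Rch k r c ⊆ range k := by
  classical
  exact Finset.filter_subset _ _

lemma supp_EZ {ν : PMF (ℝ × ℝ)} {k : ℕ} {x : ℕ → ℝ × ℝ}
    (hx : x ∈ (piL (fun _ => ν) (fun _ => ((0 : ℝ), (0 : ℝ))) (List.range k)).support) {i : ℕ}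
    (hi : i < k) : x i ∈ ν.support :=
  (supp_piL hx).1 i (List.mem_range.2 hi)

lemma EZ_mono (μ : PMF ℕ) (ν : PMF (ℝ × ℝ)) {F G : ℕ → (ℕ → ℝ × ℝ) → ℝ≥0∞}
    (h : ∀ k x, (∀ i < k, x i ∈ ν.support) → F k x ≤ G k x) : EZ μ ν F ≤ EZ μ ν G :=
  EL_mono _ fun k => EL_mono_supp _ fun x hx => h k x fun _ hi => supp_EZ hx hi

lemma EZ_add (μ : PMF ℕ) (ν : PMF (ℝ × ℝ)) (F G : ℕ → (ℕ → ℝ × ℝ) → ℝ≥0∞) :
    EZ μ ν (fun k x => F k x + G k x) = EZ μ ν F + EZ μ ν G := by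
  simp only [EZ, EL_add]

lemma EZ_const_mul (μ : PMF ℕ) (ν : PMF (ℝ × ℝ)) (c : ℝ≥0∞) (F : ℕ → (ℕ → ℝ × ℝ) → ℝ≥0∞) :
    EZ μ ν (fun k x => c * F k x) = c * EZ μ ν F := by
  simp only [EZ, EL_const_mul]

lemma EZ_fst (μ : PMF ℕ) (ν : PMF (ℝ × ℝ)) (f : ℕ → ℝ≥0∞) :
    EZ μ ν (fun k _ => f k) = EL μ f := by
  simp only [EZ, EL_const]

/-- a child is independent of its siblings -/
lemma EZ_child (μ : PMF ℕ) (ν : PMF (ℝ × ℝ)) (F : ℕ → ℕ → (ℕ → ℝ × ℝ) → ℝ≥0∞)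
    (hF : ∀ k i x a, F k i (update x i a) = F k i x) (G : ℝ × ℝ → ℝ≥0∞) :
    EZ μ ν (fun k x => ∑ i ∈ range k, F k i x * G (x i)) =
      EZ μ ν (fun k x => ∑ i ∈ range k, F k i x) * EL ν G := by
  unfold EZ
  rw [← EL_mul_const]
  congr 1
  funext k
  rw [EL_sum, EL_sum, Finset.sum_mul]
  refine Finset.sum_congr rfl fun i hi => ?_
  exact EL_indep (fun _ => ν) _ (List.mem_range.2 (mem_range.1 hi)) (hF k i) G

lemma sib_update (x : ℕ → ℝ × ℝ) (k i : ℕ) (a : ℝ × ℝ) : sib (update x i a) k i = sib x k i :=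
  Finset.sum_congr rfl fun j hj => by rw [update_of_ne (Finset.ne_of_mem_erase hj)]

lemma Cs_eq_sib (x : ℕ → ℝ × ℝ) {k i : ℕ} (hi : i < k) :
    Cs (fun j => (x j).1) k = (x i).1 + sib x k i :=
  (Finset.add_sum_erase (range k) (fun j => (x j).1) (mem_range.2 hi)).symm

end Pool.Agent.H109Z.FrogGW
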