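import Pool.Agent.H109Z.Frog.Mix

set_option autoImplicit false

namespace Pool.Agent.H109Z.FrogGW

open MeasureTheory ProbabilityTheory Set
open scoped NNReal ENNReal

/-- the offspring numbers seen from `w` -/
def sh {α : Type*} (w : V) (Z : V → α) : V → α := fun v => Z (v ++ w)

@[simp] lemma sh_nil {α : Type*} (Z : V → α) : sh [] Z = Z := by
  funext v; simp [sh]

lemma sh_sh {α : Type*} (u w : V) (Z : V → α) : sh u (sh w Z) = sh (u ++ w) Z := by
  funext v; simp [sh]

lemma inTree_cons {Z : V → ℕ} {i : ℕ} {v : V} : InTree Z (i :: v) ↔ InTree Z v ∧ i < Z v := by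
  constructor
  · intro h
    cases h with
    | child _ _ h1 h2 => exact ⟨h1, h2⟩
  · rintro ⟨h1, h2⟩
    exact InTree.child v i h1 h2

lemma inTree_append {Z : V → ℕ} (u w : V) :
    InTree Z (u ++ w) ↔ InTree Z w ∧ InTree (sh w Z) u := by
  induction u with
  | nil => simp [InTree.root]
  | cons i u ih =>
    rw [List.cons_append, inTree_cons, inTree_cons, ih]
    simp only [sh, and_assoc]

lemma inTree_single {Z : V → ℕ} {i : ℕ} : InTree Z [i] ↔ i < Z [] := by
  simp [inTree_cons, InTree.root]

lemma inTree_congr {Z Z' : V → ℕ} : ∀ {v : V}, (∀ u, u <:+ v → u ≠ v → Z u = Z' u) →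
    InTree Z v → InTree Z' v := by
  intro v
  induction v with
  | nil => intro _ _; exact InTree.root
  | cons i v ih =>
    intro h hv
    rw [inTree_cons] at hv ⊢
    have h1 : Z v = Z' v := h v (List.suffix_cons i v) (List.cons_ne_self i v).symm
    refine ⟨ih (fun u hu hne => h u (hu.trans (List.suffix_cons i v)) ?_) hv.1, h1 ▸ hv.2⟩
    intro he
    have := hu.length_le
    rw [he] at this
    simp at this

lemma survives_of_sh {Z : V → ℕ} {w : V} (hw : InTree Z w) (h : Survives (sh w Z)) :
    Survives Z := by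
  have hinj : Function.Injective fun u : V => u ++ w := fun a b hab => List.append_cancel_right hab
  refine (h.image hinj.injOn).mono ?_
  rintro _ ⟨u, hu, rfl⟩
  exact (inTree_append u w).2 ⟨hw, hu⟩

lemma survives_iff {Z : V → ℕ} : Survives Z ↔ ∃ i < Z [], Survives (sh [i] Z) := by
  constructor
  · intro h
    by_contra hc
    push Not at hc
    apply h
    have : {v | InTree Z v} ⊆ {[]} ∪ ⋃ i ∈ Finset.range (Z []),
        (fun u : V => u ++ [i]) '' {u | InTree (sh [i] Z) u} := by
      intro v hv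
      rcases List.eq_nil_or_concat' v with rfl | ⟨u, i, rfl⟩
      · simp
      · right
        have := (inTree_append u [i]).1 hv
        simp only [mem_iUnion]
        exact ⟨i, Finset.mem_range.2 (inTree_single.1 this.1), u, this.2, rfl⟩
    refine Set.Finite.subset ((Set.finite_singleton _).union ?_) this
    refine Set.Finite.biUnion (Finset.finite_toSet _) fun i hi => Set.Finite.image _ ?_
    exact Set.not_infinite.1 (hc i (Finset.mem_range.1 hi))
  · rintro ⟨i, hi, h⟩
    exact survives_of_sh (inTree_single.2 hi) h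

lemma survives_child {Z : V → ℕ} {v : V} (h : Survives (sh v Z)) :
    ∃ i < Z v, Survives (sh (i :: v) Z) := by
  obtain ⟨i, hi, h⟩ := survives_iff.1 h
  refine ⟨i, by simpa [sh] using hi, ?_⟩
  rwa [sh_sh] at h

/-- the root together with the finite subtrees hanging at it -/
def cellSet (Z : V → ℕ) : Set V :=
  {v | v = [] ∨ ∃ u i, v = u ++ [i] ∧ i < Z [] ∧ ¬ Survives (sh [i] Z) ∧ InTree (sh [i] Z) u}

lemma cellSet_finite (Z : V → ℕ) : (cellSet Z).Finite := by
  have : cellSet Z ⊆ {[]} ∪ ⋃ i ∈ {i | i < Z [] ∧ ¬ Survives (sh [i] Z)},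
      (fun u : V => u ++ [i]) '' {u | InTree (sh [i] Z) u} := by
    rintro v (rfl | ⟨u, i, rfl, h1, h2, h3⟩)
    · simp
    · right
      simp only [mem_iUnion]
      exact ⟨i, ⟨h1, h2⟩, u, h3, rfl⟩
  refine Set.Finite.subset ((Set.finite_singleton _).union ?_) this
  refine Set.Finite.biUnion ((Set.finite_lt_nat (Z [])).subset fun i hi => hi.1)
    fun i hi => Set.Finite.image _ ?_
  exact Set.not_infinite.1 hi.2

/-- the vertex `w` together with the finite subtrees hanging at it -/
noncomputable def cell (Z : V → ℕ) (w : V) : Finset V :=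
  ((cellSet_finite (sh w Z)).toFinset).image fun u => u ++ w

lemma mem_cell {Z : V → ℕ} {w v : V} : v ∈ cell Z w ↔ ∃ u ∈ cellSet (sh w Z), u ++ w = v := by
  simp [cell]

lemma mem_cell' {Z : V → ℕ} {w v : V} : v ∈ cell Z w ↔ v = w ∨ ∃ u i, v = u ++ i :: w ∧ i < Z w ∧
    ¬ Survives (sh (i :: w) Z) ∧ InTree (sh (i :: w) Z) u := by
  rw [mem_cell]
  constructor
  · rintro ⟨u, (rfl | ⟨u, i, rfl, h1, h2, h3⟩), rfl⟩
    · simp
    · right
      rw [sh_sh] at h2 h3
      exact ⟨u, i, by simp, by simpa [sh] using h1, h2, h3⟩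
  · rintro (rfl | ⟨u, i, rfl, h1, h2, h3⟩)
    · exact ⟨[], Or.inl rfl, rfl⟩
    · refine ⟨u ++ [i], Or.inr ⟨u, i, rfl, by simpa [sh] using h1, ?_, ?_⟩, by simp⟩
      · rw [sh_sh]; exact h2
      · rw [sh_sh]; exact h3

lemma self_mem_cell (Z : V → ℕ) (w : V) : w ∈ cell Z w := mem_cell'.2 (Or.inl rfl)

lemma suffix_of_mem_cell {Z : V → ℕ} {w v : V} (h : v ∈ cell Z w) : w <:+ v := by
  obtain ⟨u, -, rfl⟩ := mem_cell.1 h
  exact List.suffix_append u w

open Classical in
/-- the number of children of the root with an infinite subtree -/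
noncomputable def kk (Z : V → ℕ) : ℕ :=
  ((Finset.range (Z [])).filter fun i => Survives (sh [i] Z)).card

lemma kk_pos {Z : V → ℕ} : 0 < kk Z ↔ Survives Z := by
  classical
  rw [kk, Finset.card_pos, survives_iff]
  constructor
  · rintro ⟨i, hi⟩
    simp only [Finset.mem_filter, Finset.mem_range] at hi
    exact ⟨i, hi⟩
  · rintro ⟨i, hi⟩
    exact ⟨i, by simpa using hi⟩

/-! ### measurability -/

lemma measurable_sh {α : Type*} [MeasurableSpace α] (w : V) :
    Measurable (sh w : (V → α) → V → α) :=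
  measurable_pi_lambda _ fun _ => measurable_pi_apply _

lemma mp_sh {α : Type*} [MeasurableSpace α] (μ : Measure α) [IsProbabilityMeasure μ] (w : V) :
    MeasurePreserving (sh w : (V → α) → V → α) (Measure.infinitePi fun _ => μ)
      (Measure.infinitePi fun _ => μ) := by
  refine ⟨measurable_sh w, ?_⟩
  have hinj : Function.Injective fun u : V => u ++ w := fun a b hab => List.append_cancel_right hab
  exact Measure.map_infinitePi_infinitePi_of_inj (P := fun _ : V => μ) hinj

lemma ms_lt (i : ℕ) (v : V) : MeasurableSet {Z : V → ℕ | i < Z v} :=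
  measurable_pi_apply v (MeasurableSet.of_discrete (s := {n | i < n}))

lemma ms_inTree (v : V) : MeasurableSet {Z : V → ℕ | InTree Z v} := by
  induction v with
  | nil => simp [InTree.root]
  | cons i v ih =>
    simp only [inTree_cons]
    exact ih.inter (ms_lt i v)

lemma ms_survives : MeasurableSet {Z : V → ℕ | Survives Z} := by
  have : {Z : V → ℕ | Survives Z} = ⋂ s : Finset V, ⋃ v : V, {Z | InTree Z v} ∩ {_Z | v ∉ s} := by
    ext Z
    simp only [Survives, mem_ofPred_eq, mem_iInter, mem_iUnion, mem_inter_iff]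
    constructor
    · intro h s
      obtain ⟨v, hv, hs⟩ := h.exists_notMem_finset s
      exact ⟨v, hv, hs⟩
    · intro h hf
      obtain ⟨v, hv, hs⟩ := h hf.toFinset
      exact hs (by simpa using hv)
  rw [this]
  exact MeasurableSet.iInter fun s => MeasurableSet.iUnion fun v =>
    (ms_inTree v).inter (MeasurableSet.const _)

lemma ms_survives_sh (w : V) : MeasurableSet {Z : V → ℕ | Survives (sh w Z)} :=
  measurable_sh w ms_survives

lemma ms_inTree_sh (w v : V) : MeasurableSet {Z : V → ℕ | InTree (sh w Z) v} :=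
  measurable_sh w (ms_inTree v)

lemma ms_cellSet (v : V) : MeasurableSet {Z : V → ℕ | v ∈ cellSet Z} := by
  have : {Z : V → ℕ | v ∈ cellSet Z} = {_Z | v = []} ∪ ⋃ u : V, ⋃ i : ℕ,
      {_Z | v = u ++ [i]} ∩ ({Z | i < Z []} ∩ ({Z | Survives (sh [i] Z)}ᶜ ∩
        {Z | InTree (sh [i] Z) u})) := by
    ext Z
    simp [cellSet]
  rw [this]
  exact (MeasurableSet.const _).union (MeasurableSet.iUnion fun u => MeasurableSet.iUnion fun i =>
    (MeasurableSet.const _).inter ((ms_lt i []).inter ((ms_survives_sh _).compl.inter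
      (ms_inTree_sh _ _))))

lemma ms_mem_cell (w v : V) : MeasurableSet {Z : V → ℕ | v ∈ cell Z w} := by
  have : {Z : V → ℕ | v ∈ cell Z w} = ⋃ u : V,
      (sh w ⁻¹' {Z | u ∈ cellSet Z}) ∩ {_Z | u ++ w = v} := by
    ext Z
    simp [mem_cell]
  rw [this]
  exact MeasurableSet.iUnion fun u => (measurable_sh w (ms_cellSet u)).inter (MeasurableSet.const _)

lemma disc_finset {Ω β : Type*} [MeasurableSpace Ω] [Countable β] {f : Ω → Finset β}
    (h : ∀ b, MeasurableSet {ω | b ∈ f ω}) : Disc f := by
  intro s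
  have : {ω | f ω = s} = ⋂ b, ({ω | b ∈ f ω} ∩ {_ω | b ∈ s}) ∪ ({ω | b ∈ f ω}ᶜ ∩ {_ω | b ∉ s}) := by
    ext ω
    simp only [mem_ofPred_eq, mem_iInter, mem_union, mem_inter_iff, mem_compl_iff, Finset.ext_iff]
    refine forall_congr' fun b => ?_
    tauto
  rw [this]
  exact MeasurableSet.iInter fun b => ((h b).inter (MeasurableSet.const _)).union
    ((h b).compl.inter (MeasurableSet.const _))

lemma disc_cell (w : V) : Disc fun Z : V → ℕ => cell Z w := disc_finset (ms_mem_cell w)

lemma disc_kk : Disc kk := by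
  classical
  have : Disc fun Z : V → ℕ => (Finset.range (Z [])).filter fun i => Survives (sh [i] Z) := by
    refine disc_finset fun i => ?_
    simp only [Finset.mem_filter, Finset.mem_range]
    exact (ms_lt i []).inter (ms_survives_sh _)
  exact this.map Finset.card

lemma measurable_kk (g : ℕ → ℝ≥0∞) : Measurable fun Z => g (kk Z) :=
  disc_kk.measurable (g := fun k _ => g k) fun _ => measurable_const

lemma tsum_list (F : V → ℝ≥0∞) : ∑' v, F v = F [] + ∑' i : ℕ, ∑' u : V, F (u ++ [i]) := by
  classical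
  rw [ENNReal.tsum_eq_add_tsum_ite ([] : V), ← ENNReal.tsum_prod (f := fun (i : ℕ) (u : V) => F (u ++ [i]))]
  congr 1
  have hinj : Function.Injective fun p : ℕ × V => p.2 ++ [p.1] := by
    rintro ⟨i, u⟩ ⟨j, v⟩ h
    have := List.append_inj' h rfl
    simp only [List.cons.injEq, and_true] at this
    exact Prod.ext this.2 this.1
  refine Eq.trans (hinj.tsum_eq ?_).symm ?_
  swap
  · simp
  · intro v hv
    rcases List.eq_nil_or_concat' v with rfl | ⟨u, i, rfl⟩
    · simp at hv
    · exact ⟨(i, u), rfl⟩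

end Pool.Agent.H109Z.FrogGW
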