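import Pool.Agent.H109Z.Frog.Spec

set_option autoImplicit false

/-! The frog model in terms of marks; one-step inequalities. -/

namespace Pool.Agent.H109Z.FrogGW

open MeasureTheory ProbabilityTheory Function
open scoped ENNReal NNReal

/-! ### the operator `AW` -/

lemma AW_mono (Z : V → ℕ) : ∀ (h : ℕ) (w : V) {φ ψ : V → ℝ≥0∞}, (∀ e, φ e ≤ ψ e) →
    AW Z h w φ ≤ AW Z h w ψ
  | 0, w, _, _, hh => hh w
  | h + 1, w, _, _, hh => mul_le_mul' (Finset.sum_le_sum fun i _ => AW_mono Z h (i :: w) hh) le_rfl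

lemma AW_const (Z : V → ℕ) (c : ℝ≥0∞) : ∀ (h : ℕ) (w : V),
    AW Z h w (fun _ => c) = ENNReal.ofReal (gh h (sh w Z)) * c
  | 0, w => by simp [AW, gh]
  | h + 1, w => by
    have hC := Cs_nonneg (g := fun i => gh h (sh (i :: w) Z)) (k := Z w) fun i _ => (gh_box h _).1
    simp only [AW, AW_const Z c h]
    rw [gh_succ_sh, ← Finset.sum_mul, ← ENNReal.ofReal_sum_of_nonneg fun i _ => (gh_box h _).1,
      mul_right_comm, ← ENNReal.ofReal_mul' (by positivity)]
    congr 2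
    rw [mul_one_div]
    rfl

lemma AW_tsum {β : Type*} (Z : V → ℕ) (c : β → ℝ≥0∞) (φ : β → V → ℝ≥0∞) : ∀ (h : ℕ) (w : V),
    AW Z h w (fun e => ∑' j, c j * φ j e) = ∑' j, c j * AW Z h w (φ j)
  | 0, w => rfl
  | h + 1, w => by
    simp only [AW, AW_tsum Z c φ h]
    rw [← Summable.tsum_finsetSum fun _ _ => ENNReal.summable, ← ENNReal.tsum_mul_right]
    simp only [Finset.mul_sum, Finset.sum_mul, mul_assoc]

lemma AW_measurable {Ω : Type*} [MeasurableSpace Ω] (Z : V → ℕ) {φ : Ω → V → ℝ≥0∞}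
    (hφ : ∀ e, Measurable fun ω => φ ω e) : ∀ (h : ℕ) (w : V),
    Measurable fun ω => AW Z h w (φ ω)
  | 0, w => hφ w
  | h + 1, w => (Finset.measurable_sum _ fun i _ => AW_measurable Z hφ h (i :: w)).mul_const _

lemma AW_lint {Ω : Type*} [MeasurableSpace Ω] (ν : Measure Ω) (Z : V → ℕ) {φ : Ω → V → ℝ≥0∞}
    (hφ : ∀ e, Measurable fun ω => φ ω e) : ∀ (h : ℕ) (w : V),
    ∫⁻ ω, AW Z h w (φ ω) ∂ν = AW Z h w fun e => ∫⁻ ω, φ ω e ∂ν
  | 0, w => rfl
  | h + 1, w => by
    simp only [AW]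
    rw [lintegral_mul_const _ (Finset.measurable_sum _ fun i _ => AW_measurable Z hφ h (i :: w)),
      lintegral_finset_sum _ fun i _ => AW_measurable Z hφ h (i :: w)]
    simp only [AW_lint ν Z hφ h]

/-! ### activation in terms of marks -/

lemma ms_rtg {Ω α : Type*} [MeasurableSpace Ω] [Countable α] {r : Ω → α → α → Prop}
    (hr : ∀ a b, MeasurableSet {ω | r ω a b}) (a b : α) :
    MeasurableSet {ω | Relation.ReflTransGen (r ω) a b} := by
  let rn : ℕ → Ω → α → Prop := fun k => Nat.rec (fun _ b => a = b)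
    (fun _ ih ω b => ∃ c, ih ω c ∧ r ω c b) k
  have h1 : ∀ k b, MeasurableSet {ω | rn k ω b} := by
    intro k
    induction k with
    | zero => intro b; exact MeasurableSet.const _
    | succ k ih =>
      intro b
      have : {ω | rn (k + 1) ω b} = ⋃ c, {ω | rn k ω c} ∩ {ω | r ω c b} := by
        ext ω; simp [rn]
      rw [this]
      exact MeasurableSet.iUnion fun c => (ih c).inter (hr c b)
  have : {ω | Relation.ReflTransGen (r ω) a b} = ⋃ k, {ω | rn k ω b} := by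
    ext ω
    simp only [Set.mem_ofPred_eq, Set.mem_iUnion]
    constructor
    · intro h
      induction h with
      | refl => exact ⟨0, rfl⟩
      | tail _ h2 ih =>
        obtain ⟨k, hk⟩ := ih
        exact ⟨k + 1, _, hk, h2⟩
    · rintro ⟨k, hk⟩
      induction k generalizing b with
      | zero => cases hk; exact Relation.ReflTransGen.refl
      | succ k ih =>
        obtain ⟨c, h1, h2⟩ := hk
        exact (ih c h1).tail h2
  rw [this]
  exact MeasurableSet.iUnion fun k => h1 k b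

/-- the geodesic segment from `y` down to `e` -/
def pth (y e : V) : Set V := {z | y <:+ z ∧ z <:+ e}

def Ini (A : Finset Frog) (S P : Set V) (N : V → ℕ) (f : Frog) : Prop :=
  f ∈ A ∨ (f.1 ∈ P ∧ f.1 ∈ S ∧ f.2 < N f.1)

def Edg (S : Set V) (N : V → ℕ) (M : Frog → Option (V × V)) (f g : Frog) : Prop :=
  g.1 ∈ S ∧ g.2 < N g.1 ∧ ∃ y e, M f = some (y, e) ∧ g.1 ∈ pth y e

/-- activated frogs: `A` is active, the vertices of `S` carry sleeping frogs, `P` is visited -/
def Act (A : Finset Frog) (S P : Set V) (N : V → ℕ) (M : Frog → Option (V × V)) (g : Frog) :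
    Prop := ∃ f, Ini A S P N f ∧ Relation.ReflTransGen (Edg S N M) f g

lemma Act.ind {A : Finset Frog} {S P : Set V} {N : V → ℕ} {M : Frog → Option (V × V)}
    {p : Frog → Prop} (h0 : ∀ f, Ini A S P N f → p f)
    (h1 : ∀ f g, Act A S P N M f → p f → Edg S N M f g → p g) {g : Frog}
    (hg : Act A S P N M g) : p g := by
  obtain ⟨f, hf, h⟩ := hg
  induction h with
  | refl => exact h0 f hf
  | tail h2 h3 ih => exact h1 _ _ ⟨f, hf, h2⟩ ih h3

lemma Act.ini {A : Finset Frog} {S P : Set V} {N : V → ℕ} {M : Frog → Option (V × V)} {f : Frog}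
    (h : Ini A S P N f) : Act A S P N M f := ⟨f, h, Relation.ReflTransGen.refl⟩

lemma Act.edg {A : Finset Frog} {S P : Set V} {N : V → ℕ} {M : Frog → Option (V × V)}
    {f g : Frog} (h : Act A S P N M f) (h' : Edg S N M f g) : Act A S P N M g := by
  obtain ⟨f0, h0, h1⟩ := h
  exact ⟨f0, h0, h1.tail h'⟩

lemma Act.cases {A : Finset Frog} {S P : Set V} {N : V → ℕ} {M : Frog → Option (V × V)}
    {g : Frog} (h : Act A S P N M g) : g ∈ A ∨ g.1 ∈ S :=
  Act.ind (p := fun g => g ∈ A ∨ g.1 ∈ S) (fun _ hf => hf.imp id fun h => h.2.1)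
    (fun _ _ _ _ h => Or.inr h.1) h

open Classical in
/-- `s` to the number of activated frogs that hit the root -/
noncomputable def Ph (s : ℝ≥0∞) (A : Finset Frog) (S P : Set V) (N : V → ℕ)
    (M : Frog → Option (V × V)) : ℝ≥0∞ :=
  ⨅ B : Finset Frog, ∏ f ∈ B, if Act A S P N M f ∧ M f = none then s else 1

lemma Ph_le_one (s : ℝ≥0∞) (A : Finset Frog) (S P : Set V) (N : V → ℕ)
    (M : Frog → Option (V × V)) : Ph s A S P N M ≤ 1 :=
  (iInf_le _ ∅).trans (by simp)

lemma Ph_le {s : ℝ≥0∞} (hs : s ≤ 1) {A A' : Finset Frog} {S P S' P' : Set V} {N N' : V → ℕ}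
    {M M' : Frog → Option (V × V)}
    (h : ∀ g, Act A' S' P' N' M' g → M' g = none → Act A S P N M g ∧ M g = none) :
    Ph s A S P N M ≤ Ph s A' S' P' N' M' := by
  refine iInf_mono fun B => Finset.prod_le_prod' fun f _ => ?_
  by_cases h' : Act A' S' P' N' M' f ∧ M' f = none
  · rw [if_pos h', if_pos (h f h'.1 h'.2)]
  · rw [if_neg h']
    split_ifs
    · exact hs
    · exact le_rfl

lemma Ph_mono {s : ℝ≥0∞} (hs : s ≤ 1) {A A' : Finset Frog} {S P S' P' : Set V} (hA : A' ⊆ A)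
    (hS : S' ⊆ S) (hP : P' ⊆ P) (N : V → ℕ) (M : Frog → Option (V × V)) :
    Ph s A S P N M ≤ Ph s A' S' P' N M := by
  refine Ph_le hs fun g hg hn => ⟨?_, hn⟩
  refine Act.ind (p := fun g => Act A S P N M g) (fun f hf => Act.ini ?_)
    (fun f g _ hf h => hf.edg ⟨hS h.1, h.2⟩) hg
  exact hf.imp (fun h => hA h) fun h => ⟨hP h.1, hS h.2.1, h.2.2⟩

lemma Ph_step {s : ℝ≥0∞} (hs : s ≤ 1) {A : Finset Frog} {S : Set V} (P : Set V) (N : V → ℕ)
    (M : Frog → Option (V × V)) {f : Frog} (hf : f ∈ A) (hS : f.1 ∉ S) (y e : V) :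
    Ph s A S P N (update M f (some (y, e))) ≤ Ph s (A.erase f) S (P ∪ pth y e) N M := by
  have hne : ∀ g, Act (A.erase f) S (P ∪ pth y e) N M g → g ≠ f := by
    rintro g hg rfl
    rcases hg.cases with h | h
    · simp at h
    · exact hS h
  refine Ph_le hs fun g hg hn => ⟨?_, by rw [update_of_ne (hne g hg)]; exact hn⟩
  refine Act.ind (p := fun g => Act A S P N (update M f (some (y, e))) g) ?_ ?_ hg
  · rintro g (h | ⟨h1 | h1, h2, h3⟩)
    · exact Act.ini (Or.inl (Finset.mem_of_mem_erase h))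
    · exact Act.ini (Or.inr ⟨h1, h2, h3⟩)
    · exact (Act.ini (Or.inl hf)).edg ⟨h2, h3, y, e, update_self _ _ _, h1⟩
  · intro g g' h0 h1 h2
    refine h1.edg ⟨h2.1, h2.2.1, ?_⟩
    rw [update_of_ne (hne g h0)]
    exact h2.2.2

lemma Ph_irrel {s : ℝ≥0∞} (hs : s ≤ 1) {S : Set V} (P : Set V) (N : V → ℕ)
    (M : Frog → Option (V × V)) {f : Frog} (hS : f.1 ∉ S) (a : Option (V × V)) :
    Ph s ∅ S P N (update M f a) ≤ Ph s ∅ S P N M := by
  have hne : ∀ g, Act ∅ S P N M g → g ≠ f := by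
    rintro g hg rfl
    rcases hg.cases with h | h
    · simp at h
    · exact hS h
  refine Ph_le hs fun g hg hn => ⟨?_, by rw [update_of_ne (hne g hg)]; exact hn⟩
  refine Act.ind (p := fun g => Act ∅ S P N (update M f a) g) (fun _ h => Act.ini h) ?_ hg
  intro g g' h0 h1 h2
  refine h1.edg ⟨h2.1, h2.2.1, ?_⟩
  rw [update_of_ne (hne g h0)]
  exact h2.2.2

/-- the first `j` frogs at `z` -/
def Qz (z : V) (j : ℕ) : Finset Frog := (Finset.range j).image fun i => (z, i)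

lemma mem_Qz {z : V} {j : ℕ} {f : Frog} : f ∈ Qz z j ↔ f.1 = z ∧ f.2 < j := by
  obtain ⟨v, i⟩ := f
  simp only [Qz, Finset.mem_image, Finset.mem_range, Prod.mk.injEq]
  constructor
  · rintro ⟨a, h, rfl, rfl⟩; exact ⟨rfl, h⟩
  · rintro ⟨rfl, h⟩; exact ⟨i, h, rfl, rfl⟩

lemma card_Qz (z : V) (j : ℕ) : (Qz z j).card = j := by
  rw [Qz, Finset.card_image_of_injective _ (fun a b h => by simpa using h), Finset.card_range]

lemma Ph_wake {s : ℝ≥0∞} (hs : s ≤ 1) (A : Finset Frog) {S P : Set V} (N N' : V → ℕ)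
    (M : Frog → Option (V × V)) {z : V} (hP : z ∈ P) (hS : z ∈ S) :
    Ph s A S P (mix {z} N N') M ≤ Ph s (A ∪ Qz z (N' z)) (S \ {z}) P N M := by
  refine Ph_le hs fun g hg hn => ⟨?_, hn⟩
  refine Act.ind (p := fun g => Act A S P (mix {z} N N') M g) ?_ ?_ hg
  · rintro g (h | ⟨h1, h2, h3⟩)
    · rcases Finset.mem_union.1 h with h | h
      · exact Act.ini (Or.inl h)
      · rw [mem_Qz] at h
        refine Act.ini (Or.inr ⟨h.1 ▸ hP, h.1 ▸ hS, ?_⟩)
        rw [h.1, mix_mem _ _ (Set.mem_singleton z)]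
        exact h.2
    · refine Act.ini (Or.inr ⟨h1, h2.1, ?_⟩)
      rw [mix_not_mem _ _ h2.2]
      exact h3
  · intro g g' _ h1 h2
    refine h1.edg ⟨h2.1.1, ?_, h2.2.2⟩
    rw [mix_not_mem _ _ h2.1.2]
    exact h2.2.1

lemma measurable_Ph {Ω : Type*} [MeasurableSpace Ω] (s : ℝ≥0∞) (A : Finset Frog) (S P : Set V)
    {N : Ω → V → ℕ} {M : Ω → Frog → Option (V × V)} (hN : ∀ v, Disc fun ω => N ω v)
    (hM : ∀ f, Disc fun ω => M ω f) : Measurable fun ω => Ph s A S P (N ω) (M ω) := by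
  have hI : ∀ f, MeasurableSet {ω | Ini A S P (N ω) f} := fun f =>
    (hN f.1).set (g := fun j _ => f ∈ A ∨ (f.1 ∈ P ∧ f.1 ∈ S ∧ f.2 < j))
      fun _ => MeasurableSet.const _
  have hE : ∀ f g, MeasurableSet {ω | Edg S (N ω) (M ω) f g} := fun f g =>
    (hN g.1).set (g := fun j ω => g.1 ∈ S ∧ g.2 < j ∧ ∃ y e, M ω f = some (y, e) ∧ g.1 ∈ pth y e)
      fun j => (hM f).set
        (g := fun a _ => g.1 ∈ S ∧ g.2 < j ∧ ∃ y e, a = some (y, e) ∧ g.1 ∈ pth y e)
        fun _ => MeasurableSet.const _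
  have hA : ∀ g, MeasurableSet {ω | Act A S P (N ω) (M ω) g} := by
    intro g
    have : {ω | Act A S P (N ω) (M ω) g} = ⋃ f, {ω | Ini A S P (N ω) f} ∩
        {ω | Relation.ReflTransGen (Edg S (N ω) (M ω)) f g} := by
      ext ω; simp [Act]
    rw [this]
    exact MeasurableSet.iUnion fun f => (hI f).inter (ms_rtg hE f g)
  refine Measurable.iInf fun B => Finset.measurable_prod _ fun f _ => ?_
  exact Measurable.ite ((hA f).inter (hM f none)) measurable_const measurable_const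

end Pool.Agent.H109Z.FrogGW
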