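import Pool.Agent.H109Z.Frog.Wm

set_option autoImplicit false

/-! The value function of the exploration and its one-step inequalities. -/

namespace Pool.Agent.H109Z.FrogGW

open MeasureTheory ProbabilityTheory Function
open scoped ENNReal NNReal

instance : IsProbabilityMeasure UU := by unfold UU; infer_instance

instance (lam : ℝ≥0) : IsProbabilityMeasure (FM lam) := by unfold FM; infer_instance

/-- the driving variables of one frog -/
def uf (f : Frog) (U : Frog × ℕ → ℝ) : ℕ → ℝ := fun k => U (f, k)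

lemma measurable_uf (f : Frog) : Measurable (uf f) :=
  measurable_pi_lambda _ fun _ => measurable_pi_apply _

lemma mp_uf (f : Frog) : MeasurePreserving (uf f) QU UU := by
  refine ⟨measurable_uf f, ?_⟩
  have hinj : Function.Injective fun k : ℕ => (f, k) := fun a b hab => by simpa using hab
  exact Measure.map_infinitePi_infinitePi_of_inj (P := fun _ : Frog × ℕ => unif) hinj

lemma uf_mix_self (f : Frog) (U U' : Frog × ℕ → ℝ) : uf f (mix {p | p.1 = f} U U') = uf f U' := by
  funext k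
  exact mix_mem _ _ rfl

lemma uf_mix_ne {f g : Frog} (h : g ≠ f) (U U' : Frog × ℕ → ℝ) :
    uf g (mix {p | p.1 = f} U U') = uf g U := by
  funext k
  exact mix_not_mem _ _ h

/-- the marks of all frogs, frog `f` starting afresh from `ps f` -/
def MK (mk : V → (ℕ → ℝ) → Option (V × V)) (ps : Frog → V) (U : Frog × ℕ → ℝ) :
    Frog → Option (V × V) := fun f => mk (ps f) (uf f U)

lemma MK_mix (mk : V → (ℕ → ℝ) → Option (V × V)) (ps : Frog → V) (f : Frog)
    (U U' : Frog × ℕ → ℝ) :
    MK mk ps (mix {p | p.1 = f} U U') = update (MK mk ps U) f (mk (ps f) (uf f U')) := by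
  funext g
  by_cases h : g = f
  · subst h; simp only [MK, uf_mix_self, update_self]
  · simp only [MK, uf_mix_ne h, update_of_ne h]

lemma MK_update (mk : V → (ℕ → ℝ) → Option (V × V)) (ps : Frog → V) (f : Frog) (v : V)
    (U : Frog × ℕ → ℝ) (a : Option (V × V)) :
    update (MK mk (update ps f v) U) f a = update (MK mk ps U) f a := by
  funext g
  by_cases h : g = f
  · subst h; simp only [update_self]
  · simp only [MK, update_of_ne h]

/-- the value function -/
noncomputable def WW (lam : ℝ≥0) (s : ℝ≥0∞) (mk : V → (ℕ → ℝ) → Option (V × V)) (ps : Frog → V)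
    (A : Finset Frog) (S P : Set V) : ℝ≥0∞ :=
  ∫⁻ ω, Ph s A S P ω.1 (MK mk ps ω.2) ∂(FM lam)

variable {lam : ℝ≥0} {s : ℝ≥0∞} {mk : V → (ℕ → ℝ) → Option (V × V)}

lemma disc_N (v : V) : Disc fun ω : (V → ℕ) × (Frog × ℕ → ℝ) => ω.1 v :=
  Disc.of_measurable ((measurable_pi_apply v).comp measurable_fst)

lemma measurable_PhMK (hd : ∀ x, Disc (mk x)) (s : ℝ≥0∞) (ps : Frog → V) (A : Finset Frog)
    (S P : Set V) :
    Measurable fun ω : (V → ℕ) × (Frog × ℕ → ℝ) => Ph s A S P ω.1 (MK mk ps ω.2) :=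
  measurable_Ph s A S P disc_N fun f => (hd _).comp ((measurable_uf f).comp measurable_snd)

lemma WW_mono (hs : s ≤ 1) (ps : Frog → V) {A A' : Finset Frog} {S P S' P' : Set V} (hA : A' ⊆ A)
    (hS : S' ⊆ S) (hP : P' ⊆ P) : WW lam s mk ps A S P ≤ WW lam s mk ps A' S' P' :=
  lintegral_mono fun _ => Ph_mono hs hA hS hP _ _

lemma WW_res (hd : ∀ x, Disc (mk x)) (ps : Frog → V) (A : Finset Frog) (S P : Set V) (f : Frog) :
    WW lam s mk ps A S P =
      ∫⁻ ω, ∫⁻ u, Ph s A S P ω.1 (update (MK mk ps ω.2) f (mk (ps f) u)) ∂UU ∂(FM lam) := by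
  unfold WW
  have h := mp_right (QN lam) (mp_mix unif {p : Frog × ℕ | p.1 = f})
  rw [show FM lam = (QN lam).prod QU from rfl, lint_resample h (measurable_PhMK hd s ps A S P)]
  refine lintegral_congr fun ω => ?_
  simp only [MK_mix]
  exact (mp_uf f).lintegral_comp (f := fun u => Ph s A S P ω.1 (update (MK mk ps ω.2) f
    (mk (ps f) u))) ((hd _).measurable
      (g := fun a _ => Ph s A S P ω.1 (update (MK mk ps ω.2) f a)) fun _ => measurable_const)

lemma WW_step {Z : V → ℕ} (hs : s ≤ 1) (hd : ∀ x, Disc (mk x)) {h : ℕ} {w : V} {c : ℝ≥0∞}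
    (hc : c ≠ ⊤) (hrec : ∀ F : Option (V × V) → ℝ≥0∞, (∀ a, F a ≤ 1) → ∫⁻ u, F (mk w u) ∂UU ≤
      AW Z h w (fun e => F (some (w, e))) + c * ∫⁻ u, F (mk w.tail u) ∂UU)
    {ps : Frog → V} {A : Finset Frog} {S : Set V} (P : Set V) {f : Frog} (hf : f ∈ A)
    (hS : f.1 ∉ S) (hp : ps f = w) :
    WW lam s mk ps A S P ≤ AW Z h w (fun e => WW lam s mk ps (A.erase f) S (P ∪ pth w e)) +
      c * WW lam s mk (update ps f w.tail) A S P := by
  rw [WW_res hd ps A S P f, WW_res hd (update ps f w.tail) A S P f]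
  simp only [MK_update, update_self, hp]
  unfold WW
  have hm := fun e => measurable_PhMK hd s ps (A.erase f) S (P ∪ pth w e)
  rw [← AW_lint _ Z hm, ← lintegral_const_mul' _ _ hc,
    ← lintegral_add_left (AW_measurable Z hm h w)]
  refine lintegral_mono fun ω => ?_
  refine (hrec (fun a => Ph s A S P ω.1 (update (MK mk ps ω.2) f a))
    fun _ => Ph_le_one _ _ _ _ _ _).trans ?_
  exact add_le_add (AW_mono Z h w fun e => Ph_step hs P _ _ hf hS w e) le_rfl

lemma WW_wake (hs : s ≤ 1) (hd : ∀ x, Disc (mk x)) (ps : Frog → V) (A : Finset Frog)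
    {S P : Set V} {z : V} (hP : z ∈ P) (hS : z ∈ S) :
    WW lam s mk ps A S P ≤
      ∑' j, poissonMeasure lam {j} * WW lam s mk ps (A ∪ Qz z j) (S \ {z}) P := by
  unfold WW
  have h := mp_left QU (mp_mix (poissonMeasure lam) {z})
  have hm := fun j => measurable_PhMK hd s ps (A ∪ Qz z j) (S \ {z}) P
  simp only [← lintegral_const_mul _ (hm _)]
  rw [← lintegral_tsum fun j => ((hm j).const_mul _).aemeasurable]
  rw [show FM lam = (QN lam).prod QU from rfl, lint_resample h (measurable_PhMK hd s ps A S P)]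
  refine lintegral_mono fun ω => ?_
  refine (lintegral_mono fun N' => Ph_wake hs A ω.1 N' _ hP hS).trans (le_of_eq ?_)
  rw [(measurePreserving_eval_infinitePi (fun _ : V => poissonMeasure lam) z).lintegral_comp
    (f := fun j => Ph s (A ∪ Qz z j) (S \ {z}) P ω.1 (MK mk ps ω.2)) Measurable.of_discrete,
    lintegral_countable']
  simp only [mul_comm]

lemma poisson_pgf (lam : ℝ≥0) {σ : ℝ} (hσ : 0 ≤ σ) :
    ∑' j, poissonMeasure lam {j} * ENNReal.ofReal σ ^ j = ee (lam * (1 - σ)) := by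
  simp only [poissonMeasure_singleton]
  have h := (NormedSpace.expSeries_div_hasSum_exp (lam * σ : ℝ)).mul_left (Real.exp (-lam))
  rw [← Real.exp_eq_exp_ℝ, ← Real.exp_add] at h
  have e : ∀ j : ℕ, ENNReal.ofReal (Real.exp (-lam) * lam ^ j / (j.factorial : ℝ)) *
      ENNReal.ofReal σ ^ j =
      ENNReal.ofReal (Real.exp (-lam) * ((lam * σ : ℝ) ^ j / (j.factorial : ℝ))) := by
    intro j
    rw [← ENNReal.ofReal_pow hσ, ← ENNReal.ofReal_mul (by positivity)]
    congr 1
    rw [mul_pow]; ring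
  simp only [e]
  rw [← ENNReal.ofReal_tsum_of_nonneg (fun j => by positivity) h.summable, h.tsum_eq, ee]
  congr 2
  ring

lemma WW_root (hnil : ∀ u, mk [] u = none) {ps : Frog → V} {B : Finset Frog}
    (hB : ∀ f ∈ B, ps f = []) (S P : Set V) : WW lam s mk ps B S P ≤ s ^ B.card := by
  calc WW lam s mk ps B S P ≤ ∫⁻ _ω, s ^ B.card ∂(FM lam) := lintegral_mono fun ω => ?_
    _ = _ := by simp
  refine (iInf_le _ B).trans (le_of_eq ?_)
  rw [← Finset.prod_const]
  refine Finset.prod_congr rfl fun f hf => if_pos ⟨Act.ini (Or.inl hf), ?_⟩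
  simp only [MK, hB f hf, hnil]

end Pool.Agent.H109Z.FrogGW
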